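import Pool.Agent.Whitehead.Defs

set_option autoImplicit false

namespace Pool.Agent.Whitehead

open Equiv Finset

theorem mv_mul_le {n : ℕ} {σ τ : Perm (HE n)} (hσ : BP σ) (hτ : BP τ) :
    mv σ ≤ mv (σ * τ) + mv τ := by
  classical
  -- blocks moved by σ : i with (σ (i,0)).1 ≠ i; write i = block of τ (i',0)
  have hinj : ∀ i j : Fin n, (τ (i, 0)).1 = (τ (j, 0)).1 → i = j := by
    intro i j h
    exact (hτ (i, 0) (j, 0)).mp h
  have hsurj : ∀ i : Fin n, ∃ j : Fin n, (τ (j, 0)).1 = i := by
    have : Function.Injective (fun i : Fin n => (τ (i, 0)).1) := fun i j h => hinj i j h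
    exact Finite.surjective_of_injective this
  choose b hb using hsurj
  have hbinj : Function.Injective b := by
    intro i j h
    rw [← hb i, ← hb j, h]
  unfold mv
  rw [← card_image_of_injective (univ.filter fun i : Fin n => (σ (i, 0)).1 ≠ i) hbinj]
  refine (card_le_card ?_).trans (card_union_le _ _)
  intro j hj
  rw [mem_image] at hj
  obtain ⟨i, hi, rfl⟩ := hj
  rw [mem_filter] at hi
  rw [mem_union, mem_filter, mem_filter]
  by_cases h : (τ (b i, 0)).1 = b i
  · left
    refine ⟨mem_univ _, ?_⟩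
    rw [Perm.mul_apply]
    have h1 : i = b i := (hb i).symm.trans h
    have h2 : (σ (τ (b i, 0))).1 = (σ (i, 0)).1 := by
      rw [hσ]; rw [hb i]
    rw [h2, ← h1]
    exact hi.2
  · right
    exact ⟨mem_univ _, h⟩

theorem Bad_proof : Stmt_Bad := by
  classical
  intro n K B hB
  set T : Finset (Perm (HE n)) := (bpSet n).filter (fun σ => K ≤ mv σ) with hT
  let F : ((HE n × HE n) × (HE n × HE n)) → Perm (HE n) → Perm (HE n) := fun z σ =>
    swap z.2.1 z.2.2 * σ * swap z.1.1 z.1.2
  -- per-matching bound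
  have key : ∀ M ∈ B, (stab M).card ≤
      2 * ∑ z : (HE n × HE n) × (HE n × HE n),
        (T.filter (fun σ => F z σ * M = M * F z σ)).card := by
    intro M hM
    obtain ⟨hmat, hbad⟩ := hB M hM
    unfold Good at hbad
    push Not at hbad
    obtain ⟨p₁, q₁, p₂, q₂, σ₀, hσ₀, hk, hcomm⟩ := hbad
    have hsplit := Finset.card_filter_add_card_filter_not (s := stab M)
      (p := fun w => K ≤ mv w)
    rw [← hsplit]
    set U : Finset (Σ _ : (HE n × HE n) × (HE n × HE n), Perm (HE n)) :=
      (univ : Finset ((HE n × HE n) × (HE n × HE n))).sigma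
        (fun z => T.filter (fun σ => F z σ * M = M * F z σ)) with hU
    have hUcard : U.card = ∑ z : (HE n × HE n) × (HE n × HE n),
        (T.filter (fun σ => F z σ * M = M * F z σ)).card := by
      rw [hU, card_sigma]
    rw [← hUcard]
    have h1 : ((stab M).filter (fun w => K ≤ mv w)).card ≤ U.card := by
      refine card_le_card_of_injOn (fun w => ⟨((p₁, p₁), (p₁, p₁)), w⟩) ?_ ?_
      · intro w hw
        rw [mem_coe, mem_filter] at hw
        obtain ⟨hw1, hw2⟩ := hw
        rw [stab, mem_filter] at hw1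
        rw [mem_coe, hU, mem_sigma]
        refine ⟨mem_univ _, ?_⟩
        rw [mem_filter]
        refine ⟨?_, ?_⟩
        · rw [hT, mem_filter]; exact ⟨hw1.1, hw2⟩
        · simp only [F]
          rw [swap_self, show (Equiv.refl (HE n) : Perm (HE n)) = 1 from rfl, one_mul, mul_one]
          exact hw1.2
      · intro w _ w' _ h
        simpa using h
    have h2 : ((stab M).filter (fun w => ¬ K ≤ mv w)).card ≤ U.card := by
      refine card_le_card_of_injOn
        (fun w => ⟨((w⁻¹ p₁, w⁻¹ q₁), (p₂, q₂)), σ₀ * w⟩) ?_ ?_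
      · intro w hw
        rw [mem_coe, mem_filter] at hw
        obtain ⟨hw1, hw2⟩ := hw
        rw [stab, mem_filter, bpSet, mem_filter] at hw1
        obtain ⟨⟨_, hwbp⟩, hwM⟩ := hw1
        rw [mem_coe, hU, mem_sigma]
        refine ⟨mem_univ _, ?_⟩
        rw [mem_filter]
        refine ⟨?_, ?_⟩
        · rw [hT, mem_filter, bpSet, mem_filter]
          refine ⟨⟨mem_univ _, hσ₀.mul hwbp⟩, ?_⟩
          have := mv_mul_le hσ₀ hwbp
          show K ≤ mv (σ₀ * w)
          omega
        · simp only [F]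
          have hsw : swap (w⁻¹ p₁) (w⁻¹ q₁) = w⁻¹ * swap p₁ q₁ * w := by
            have := Equiv.swap_apply_apply w⁻¹ p₁ q₁
            rw [this, inv_inv]
          rw [hsw]
          have e1 : swap p₂ q₂ * (σ₀ * w) * (w⁻¹ * swap p₁ q₁ * w) =
              (swap p₂ q₂ * σ₀ * swap p₁ q₁) * w := by group
          rw [e1, mul_assoc, hwM, ← mul_assoc, hcomm, mul_assoc]
      · intro w _ w' _ h
        simp only [Sigma.mk.injEq, heq_eq_eq, mul_right_inj] at h
        exact h.2
    omega
  have hsum : ∑ M ∈ B, (stab M).card ≤ ∑ M ∈ B,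
      2 * ∑ z : (HE n × HE n) × (HE n × HE n),
        (T.filter (fun σ => F z σ * M = M * F z σ)).card := sum_le_sum key
  refine hsum.trans ?_
  rw [← mul_sum, sum_comm]
  refine Nat.mul_le_mul_left 2 (sum_le_sum fun z _ => ?_)
  have e : ∑ M ∈ B, (T.filter (fun σ => F z σ * M = M * F z σ)).card =
      ∑ σ ∈ T, (B.filter (fun M => F z σ * M = M * F z σ)).card := by
    simp only [card_filter]
    rw [sum_comm]
  rw [e]
  refine sum_le_sum fun σ _ => ?_
  refine card_le_card ?_
  intro M hM
  rw [mem_filter] at hM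
  rw [fixMat, mem_filter]
  exact ⟨mem_univ _, (hB M hM.1).1, hM.2⟩

end Pool.Agent.Whitehead
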