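import Pool.Agent.Whitehead.Defs

set_option autoImplicit false

namespace Pool.Agent.Whitehead

open Equiv Finset

open scoped Nat

namespace ConnAux

/-- number of perfect matchings on `N` points -/
def pm (N : ℕ) : ℕ := if Even N then (N - 1)‼ else 0

theorem card_fixMat (hMatch : Stmt_Match) (α : Type) [Fintype α] [DecidableEq α] :
    (fixMat (1 : Perm α)).card = pm (Fintype.card α) := by
  unfold pm
  split_ifs with h
  · exact (hMatch α).1 h
  · exact (hMatch α).2 h

/-- `(2m-1)‼ 2^m m! = (2m)!` -/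
theorem dfact (m : ℕ) : (2 * m - 1)‼ * (2 ^ m * m !) = (2 * m)! := by
  rcases m with _ | m
  · simp
  · have h1 : 2 * (m + 1) = (2 * m + 1) + 1 := by ring
    have h2 := Nat.factorial_eq_mul_doubleFactorial (2 * m + 1)
    have h3 := Nat.doubleFactorial_two_mul (m + 1)
    rw [h1] at h3
    rw [h1, h2, h3]
    simp only [Nat.add_sub_cancel]
    ring

/-- Vandermonde -/
theorem choose_mul_le (a b c d : ℕ) : a.choose c * b.choose d ≤ (a + b).choose (c + d) := by
  rw [Nat.add_choose_eq]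
  exact single_le_sum (f := fun ij : ℕ × ℕ => a.choose ij.1 * b.choose ij.2)
    (fun _ _ => Nat.zero_le _) (mem_antidiagonal.2 (by simp : (c, d).1 + (c, d).2 = c + d))

/-- the main inequality: `C(2m,2u) · pm(6u) · pm(6m-6u) · C(m,u) ≤ pm(6m)` -/
theorem main_ineq (m u : ℕ) (hu : u ≤ m) :
    (2 * m).choose (2 * u) * (pm (3 * (2 * u)) * pm (3 * (2 * m - 2 * u))) * m.choose u ≤
      pm (3 * (2 * m)) := by
  have e1 : pm (3 * (2 * u)) = (2 * (3 * u) - 1)‼ := by
    unfold pm; rw [if_pos ⟨3 * u, by ring⟩]; congr 2; ring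
  have e2 : pm (3 * (2 * m - 2 * u)) = (2 * (3 * (m - u)) - 1)‼ := by
    unfold pm; rw [if_pos ⟨3 * (m - u), by omega⟩]; congr 2; omega
  have e3 : pm (3 * (2 * m)) = (2 * (3 * m) - 1)‼ := by
    unfold pm; rw [if_pos ⟨3 * m, by ring⟩]; congr 2; ring
  rw [e1, e2, e3]
  have d1 := dfact (3 * u)
  have d2 := dfact (3 * (m - u))
  have d3 := dfact (3 * m)
  set A := (2 * (3 * u) - 1)‼
  set B := (2 * (3 * (m - u)) - 1)‼
  set C := (2 * (3 * m) - 1)‼
  have c1 : (3 * m).choose (3 * u) * (3 * u)! * (3 * (m - u))! = (3 * m)! := by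
    have := Nat.choose_mul_factorial_mul_factorial (show 3 * u ≤ 3 * m by omega)
    rwa [show 3 * m - 3 * u = 3 * (m - u) by omega] at this
  have c2 : (2 * (3 * m)).choose (2 * (3 * u)) * (2 * (3 * u))! * (2 * (3 * (m - u)))! =
      (2 * (3 * m))! := by
    have := Nat.choose_mul_factorial_mul_factorial (show 2 * (3 * u) ≤ 2 * (3 * m) by omega)
    rwa [show 2 * (3 * m) - 2 * (3 * u) = 2 * (3 * (m - u)) by omega] at this
  have p2 : 2 ^ (3 * m) = 2 ^ (3 * u) * 2 ^ (3 * (m - u)) := by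
    rw [← pow_add]; congr 1; omega
  -- `C · choose(3m,3u) = choose(6m,6u) · A · B`
  have key : C * (3 * m).choose (3 * u) = (2 * (3 * m)).choose (2 * (3 * u)) * (A * B) := by
    have hpos : 0 < (2 ^ (3 * u) * (3 * u)!) * (2 ^ (3 * (m - u)) * (3 * (m - u))!) := by
      positivity
    apply Nat.eq_of_mul_eq_mul_right hpos
    calc C * (3 * m).choose (3 * u) *
          ((2 ^ (3 * u) * (3 * u)!) * (2 ^ (3 * (m - u)) * (3 * (m - u))!))
        = C * ((2 ^ (3 * u) * 2 ^ (3 * (m - u))) *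
            ((3 * m).choose (3 * u) * (3 * u)! * (3 * (m - u))!)) := by ring
      _ = (2 * (3 * m))! := by rw [c1, ← p2, d3]
      _ = (2 * (3 * m)).choose (2 * (3 * u)) * (2 * (3 * u))! * (2 * (3 * (m - u)))! := c2.symm
      _ = (2 * (3 * m)).choose (2 * (3 * u)) * (A * (2 ^ (3 * u) * (3 * u)!)) *
            (B * (2 ^ (3 * (m - u)) * (3 * (m - u))!)) := by rw [d1, d2]
      _ = _ := by ring
  have v1 : m.choose u * (2 * m).choose (2 * u) ≤ (3 * m).choose (3 * u) := by
    have := choose_mul_le m (2 * m) u (2 * u)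
    rwa [show m + 2 * m = 3 * m by ring, show u + 2 * u = 3 * u by ring] at this
  have v2 : (3 * m).choose (3 * u) * (3 * m).choose (3 * u) ≤
      (2 * (3 * m)).choose (2 * (3 * u)) := by
    have := choose_mul_le (3 * m) (3 * m) (3 * u) (3 * u)
    rwa [show 3 * m + 3 * m = 2 * (3 * m) by ring, show 3 * u + 3 * u = 2 * (3 * u) by ring] at this
  have hpos : 0 < (3 * m).choose (3 * u) := Nat.choose_pos (by omega)
  refine Nat.le_of_mul_le_mul_right ?_ hpos
  calc (2 * m).choose (2 * u) * (A * B) * m.choose u * (3 * m).choose (3 * u)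
      = (m.choose u * (2 * m).choose (2 * u)) * (3 * m).choose (3 * u) * (A * B) := by ring
    _ ≤ (3 * m).choose (3 * u) * (3 * m).choose (3 * u) * (A * B) := by gcongr
    _ ≤ (2 * (3 * m)).choose (2 * (3 * u)) * (A * B) := by gcongr
    _ = C * (3 * m).choose (3 * u) := key.symm

/-- points over `S` -/
abbrev Pts {n : ℕ} (S : Finset (Fin n)) : Type := {x : HE n // x.1 ∈ S}

theorem card_Pts {n : ℕ} (S : Finset (Fin n)) : Fintype.card (Pts S) = 3 * S.card := by
  have : (univ.filter fun x : HE n => x.1 ∈ S) = S ×ˢ (univ : Finset (Fin 3)) := by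
    ext x; simp
  rw [Fintype.card_subtype, this, card_product, card_univ, Fintype.card_fin, mul_comm]

open Classical in
/-- matchings preserving the points over `S` -/
noncomputable def pres {n : ℕ} (S : Finset (Fin n)) : Finset (Perm (HE n)) :=
  univ.filter fun M => IsMat M ∧ ∀ x, (M x).1 ∈ S ↔ x.1 ∈ S

theorem card_pres_le (hMatch : Stmt_Match) {n : ℕ} (S : Finset (Fin n)) :
    (pres S).card ≤ pm (3 * S.card) * pm (3 * (n - S.card)) := by
  classical
  have h1 : Fintype.card (Pts Sᶜ) = 3 * (n - S.card) := by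
    rw [card_Pts, card_compl, Fintype.card_fin]
  rw [← card_Pts S, ← h1, ← card_fixMat hMatch, ← card_fixMat hMatch, ← card_product]
  let r : Perm (HE n) → Perm (Pts S) × Perm (Pts Sᶜ) := fun M =>
    if h : ∀ x, (M x).1 ∈ S ↔ x.1 ∈ S then
      (M.subtypePerm (p := fun x => x.1 ∈ S) h,
        M.subtypePerm (p := fun x => x.1 ∈ Sᶜ) (fun x => by
          rw [mem_compl, mem_compl, h x]))
    else (1, 1)
  apply card_le_card_of_injOn r
  · intro M hM
    rw [mem_coe, pres, mem_filter] at hM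
    obtain ⟨-, hmat, hS⟩ := hM
    simp only [r, dif_pos hS]
    rw [mem_coe, mem_product, fixMat, fixMat, mem_filter, mem_filter]
    refine ⟨⟨mem_univ _, ⟨fun x => ?_, fun x h => ?_⟩, by rw [one_mul, mul_one]⟩,
      ⟨mem_univ _, ⟨fun x => ?_, fun x h => ?_⟩, by rw [one_mul, mul_one]⟩⟩
    · apply Subtype.ext; exact hmat.1 x
    · exact hmat.2 x (congrArg Subtype.val h)
    · apply Subtype.ext; exact hmat.1 x
    · exact hmat.2 x (congrArg Subtype.val h)
  · intro M hM M' hM' h
    rw [mem_coe, pres, mem_filter] at hM hM'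
    obtain ⟨-, -, hS⟩ := hM
    obtain ⟨-, -, hS'⟩ := hM'
    simp only [r, dif_pos hS, dif_pos hS', Prod.mk.injEq] at h
    ext1 x
    by_cases hx : x.1 ∈ S
    · exact congrArg (fun σ : Perm (Pts S) => ((σ ⟨x, hx⟩ : Pts S) : HE n)) h.1
    · exact congrArg (fun σ : Perm (Pts Sᶜ) => ((σ ⟨x, mem_compl.2 hx⟩ : Pts Sᶜ) : HE n)) h.2

/-- a disconnected matching preserves the points over a proper nonempty set of vertices -/
theorem exists_pres {n : ℕ} (M : Perm (HE n)) (hM : IsMat M) (hc : ¬ Conn M) :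
    ∃ S : Finset (Fin n), 0 < S.card ∧ S.card < n ∧ M ∈ pres S := by
  classical
  unfold Conn at hc
  push Not at hc
  obtain ⟨u, v, huv⟩ := hc
  set R := fun u v : Fin n => ∃ p : Fin 3, (M (u, p)).1 = v with hR
  set S : Finset (Fin n) := univ.filter (fun w => Relation.ReflTransGen R u w) with hS
  have hu : u ∈ S := by rw [hS, mem_filter]; exact ⟨mem_univ _, Relation.ReflTransGen.refl⟩
  have hv : v ∉ S := by rw [hS, mem_filter]; exact fun h => huv h.2
  refine ⟨S, card_pos.2 ⟨u, hu⟩, ?_, ?_⟩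
  · have h1 : S ⊂ univ := ⟨subset_univ _, fun h => hv (h (mem_univ v))⟩
    have := card_lt_card h1
    rwa [card_univ, Fintype.card_fin] at this
  · have hstep : ∀ x : HE n, x.1 ∈ S → (M x).1 ∈ S := by
      intro x hx
      rw [hS, mem_filter] at hx ⊢
      exact ⟨mem_univ _, hx.2.tail ⟨x.2, rfl⟩⟩
    rw [pres, mem_filter]
    refine ⟨mem_univ _, hM, fun x => ⟨fun h => ?_, hstep x⟩⟩
    have := hstep (M x) h
    rwa [hM.1] at this

theorem choose_two_le (n u : ℕ) (h2 : 2 ≤ u) (hu : u ≤ n / 2) : n.choose 2 ≤ n.choose u := by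
  induction u, h2 using Nat.le_induction with
  | base => exact le_rfl
  | succ k _ ih => exact (ih (by omega)).trans (Nat.choose_le_succ_of_lt_half_left (by omega))

/-- `∑_{u=1}^{m-1} 1 / C(m,u) ≤ 1/2` for `m ≥ 7` (real numbers) -/
theorem sum_inv_le (m : ℕ) (hm : 7 ≤ m) :
    ∑ u ∈ Ico 1 m, (1 : ℝ) / (m.choose u : ℝ) ≤ 1 / 2 := by
  obtain ⟨l, rfl⟩ : ∃ l, m = l + 2 := ⟨m - 2, by omega⟩
  have h1 : ∑ u ∈ Ico 1 (l + 2), (1 : ℝ) / ((l + 2).choose u : ℝ) =
      1 / ((l + 2 : ℕ) : ℝ) + (∑ u ∈ Ico 2 (l + 1), (1 : ℝ) / ((l + 2).choose u : ℝ) +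
        1 / ((l + 2 : ℕ) : ℝ)) := by
    rw [sum_eq_sum_Ico_succ_bot (by omega), Nat.choose_one_right,
      sum_Ico_succ_top (show 1 + 1 ≤ l + 1 by omega)]
    have : (l + 2).choose (l + 1) = l + 2 := by
      rw [Nat.choose_succ_self_right (l + 1)]
    rw [this]
  have h2 : ∀ u ∈ Ico 2 (l + 1), (1 : ℝ) / ((l + 2).choose u : ℝ) ≤
      1 / ((l + 2).choose 2 : ℝ) := by
    intro u hu
    rw [mem_Ico] at hu
    have h3 : (l + 2).choose 2 ≤ (l + 2).choose u := by
      rcases Nat.lt_or_ge (l + 2) (2 * u) with h | h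
      · rw [← Nat.choose_symm (show u ≤ l + 2 by omega)]
        exact choose_two_le _ _ (by omega) (by omega)
      · exact choose_two_le _ _ (by omega) (by omega)
    have h4 : 0 < (l + 2).choose 2 := Nat.choose_pos (by omega)
    have h5 : (0 : ℝ) < ((l + 2).choose 2 : ℝ) := by exact_mod_cast h4
    exact one_div_le_one_div_of_le h5 (by exact_mod_cast h3)
  rw [h1]
  have h6 := sum_le_sum h2
  rw [sum_const, Nat.card_Ico, nsmul_eq_mul] at h6
  have h7 : ((l + 2).choose 2 : ℝ) = ((l : ℝ) + 2) * ((l : ℝ) + 1) / 2 := by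
    rw [Nat.cast_choose_two]; push_cast; ring
  rw [h7] at h6
  have h8 : ((l + 1 - 2 : ℕ) : ℝ) ≤ (l : ℝ) := by
    exact_mod_cast (by omega : l + 1 - 2 ≤ l)
  have hl : (5 : ℝ) ≤ l := by exact_mod_cast (by omega : 5 ≤ l)
  have h8' : ((l + 1 - 2 : ℕ) : ℝ) = (l : ℝ) - 1 := by
    have : l + 1 - 2 = l - 1 := by omega
    rw [this, Nat.cast_sub (by omega)]; simp
  rw [h8'] at h6
  push_cast
  have h9 : 1 / ((l : ℝ) + 2) + (((l : ℝ) - 1) * (1 / (((l : ℝ) + 2) * ((l : ℝ) + 1) / 2)) +
      1 / ((l : ℝ) + 2)) ≤ 1 / 2 := by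
    rw [div_add' _ _ _ (by positivity)]
    field_simp
    nlinarith
  linarith

end ConnAux

open ConnAux

theorem conn_proof (hMatch : Stmt_Match) : Stmt_Conn := by
  classical
  refine ⟨14, fun n hn heven => ?_⟩
  obtain ⟨m, hm⟩ := heven
  have hnm : n = 2 * m := by omega
  subst hnm
  have hm6 : 7 ≤ m := by omega
  set G := (univ : Finset (Perm (HE (2 * m)))).filter (fun M => IsMat M ∧ Conn M) with hG
  set B := (univ : Finset (Perm (HE (2 * m)))).filter (fun M => IsMat M ∧ ¬ Conn M) with hB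
  have htot : (fixMat (1 : Perm (HE (2 * m)))).card = pm (3 * (2 * m)) := by
    rw [card_fixMat hMatch]
    congr 1
    rw [Fintype.card_prod, Fintype.card_fin, Fintype.card_fin, mul_comm]
  have hsplit : (fixMat (1 : Perm (HE (2 * m)))).card = G.card + B.card := by
    have h1 : fixMat (1 : Perm (HE (2 * m))) = G ∪ B := by
      ext M
      simp only [fixMat, hG, hB, mem_filter, mem_union, mem_univ, true_and, one_mul, mul_one,
        and_true]
      tauto
    rw [h1, card_union_of_disjoint]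
    rw [disjoint_filter]
    intro M _ h1 h2
    exact h2.2 h1.2
  -- bound of `B`
  have hBsub : B ⊆ (Ico 1 m).biUnion (fun u =>
      (powersetCard (2 * u) (univ : Finset (Fin (2 * m)))).biUnion (fun S => pres S)) := by
    intro M hM
    rw [hB, mem_filter] at hM
    obtain ⟨S, hS1, hS2, hS3⟩ := exists_pres M hM.2.1 hM.2.2
    have hpos : 0 < pm (3 * S.card) * pm (3 * (2 * m - S.card)) :=
      lt_of_lt_of_le (card_pos.2 ⟨M, hS3⟩) (card_pres_le hMatch S)
    have hev : Even S.card := by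
      by_contra hodd
      have : pm (3 * S.card) = 0 := by
        unfold pm
        rw [if_neg]
        intro h
        rw [Nat.even_mul] at h
        rcases h with h | h
        · exact absurd h (by decide)
        · exact hodd h
      rw [this, zero_mul] at hpos
      exact lt_irrefl _ hpos
    obtain ⟨u, hu⟩ := hev
    rw [mem_biUnion]
    refine ⟨u, mem_Ico.2 ⟨by omega, by omega⟩, ?_⟩
    rw [mem_biUnion]
    exact ⟨S, mem_powersetCard.2 ⟨subset_univ _, by omega⟩, hS3⟩
  have hB1 : B.card ≤ ∑ u ∈ Ico 1 m, (2 * m).choose (2 * u) *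
      (pm (3 * (2 * u)) * pm (3 * (2 * m - 2 * u))) := by
    refine (card_le_card hBsub).trans (card_biUnion_le.trans (sum_le_sum fun u _ => ?_))
    refine card_biUnion_le.trans ?_
    calc ∑ S ∈ powersetCard (2 * u) (univ : Finset (Fin (2 * m))), (pres S).card
        ≤ ∑ S ∈ powersetCard (2 * u) (univ : Finset (Fin (2 * m))),
          (pm (3 * (2 * u)) * pm (3 * (2 * m - 2 * u))) := by
          apply sum_le_sum
          intro S hS
          have := card_pres_le hMatch S
          rwa [(mem_powersetCard.1 hS).2] at this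
      _ = _ := by
          rw [sum_const, card_powersetCard, card_univ, Fintype.card_fin, smul_eq_mul]
  have hB2 : (B.card : ℝ) ≤ (pm (3 * (2 * m)) : ℝ) * (1 / 2) := by
    calc (B.card : ℝ) ≤ ((∑ u ∈ Ico 1 m, (2 * m).choose (2 * u) *
          (pm (3 * (2 * u)) * pm (3 * (2 * m - 2 * u))) : ℕ) : ℝ) := by exact_mod_cast hB1
      _ = ∑ u ∈ Ico 1 m, (((2 * m).choose (2 * u) *
          (pm (3 * (2 * u)) * pm (3 * (2 * m - 2 * u))) : ℕ) : ℝ) := by rw [Nat.cast_sum]
      _ ≤ ∑ u ∈ Ico 1 m, (pm (3 * (2 * m)) : ℝ) * (1 / (m.choose u : ℝ)) := by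
          apply sum_le_sum
          intro u hu
          rw [mem_Ico] at hu
          have h1 := main_ineq m u hu.2.le
          have h2 : (0 : ℝ) < (m.choose u : ℝ) := by
            exact_mod_cast Nat.choose_pos hu.2.le
          rw [mul_one_div, le_div_iff₀ h2]
          exact_mod_cast h1
      _ = (pm (3 * (2 * m)) : ℝ) * ∑ u ∈ Ico 1 m, (1 / (m.choose u : ℝ)) := by rw [mul_sum]
      _ ≤ (pm (3 * (2 * m)) : ℝ) * (1 / 2) :=
          mul_le_mul_of_nonneg_left (sum_inv_le m hm6) (Nat.cast_nonneg _)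
  have hB3 : 2 * B.card ≤ pm (3 * (2 * m)) := by
    have : (2 : ℝ) * B.card ≤ pm (3 * (2 * m)) := by linarith
    exact_mod_cast this
  have : (fixMat (1 : Perm (HE (2 * m)))).card ≤ 2 * G.card := by omega
  exact this

end Pool.Agent.Whitehead
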