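import Pool.Agent.Whitehead.Defs

set_option autoImplicit false

namespace Pool.Agent.Whitehead

open Equiv Finset

open scoped Nat

namespace CycAux

/-- number of points with value `c` -/
def nc {α : Type} [Fintype α] {y : ℕ} (f : α → Fin y) (c : Fin y) : ℕ :=
  (univ.filter fun a => f a = c).card

theorem nc_cons {k y : ℕ} (c0 : Fin y) (f : Fin k → Fin y) (c : Fin y) :
    nc (Fin.cons c0 f : Fin (k + 1) → Fin y) c = nc f c + if c0 = c then 1 else 0 := by
  unfold nc
  rw [card_filter, card_filter, Fin.sum_univ_succ]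
  simp only [Fin.cons_zero, Fin.cons_succ]
  rw [add_comm]

/-- the sum of the products of factorials is a rising factorial -/
theorem sum_prod (y k : ℕ) :
    ∑ f : Fin k → Fin y, ∏ c, (nc f c)! = ∏ i ∈ range k, (y + i) := by
  induction k with
  | zero =>
    have : ∀ f : Fin 0 → Fin y, ∀ c, nc f c = 0 := by
      intro f c; unfold nc; simp
    simp [this]
  | succ k ih =>
    rw [prod_range_succ, ← ih, sum_mul]
    rw [← (Fin.consEquiv (fun _ : Fin (k + 1) => Fin y)).sum_comp]
    rw [Fintype.sum_prod_type, sum_comm]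
    apply sum_congr rfl
    intro f _
    have h1 : ∀ c0 : Fin y, ∏ c, (nc (Fin.cons c0 f : Fin (k + 1) → Fin y) c)! =
        (nc f c0 + 1) * ∏ c, (nc f c)! := by
      intro c0
      rw [← mul_prod_erase univ (fun c => (nc f c)!) (mem_univ c0),
        ← mul_prod_erase univ _ (mem_univ c0)]
      rw [nc_cons, if_pos rfl, Nat.factorial_succ, mul_assoc]
      congr 2
      apply prod_congr rfl
      intro c hc
      rw [nc_cons, if_neg (ne_of_mem_erase hc).symm, add_zero]
    have h2 : ∑ c : Fin y, nc f c = k := by
      unfold nc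
      rw [← card_eq_sum_card_fiberwise (f := f) (s := univ) (t := univ) (fun _ _ => mem_univ _)]
      simp
    calc ∑ x : Fin y, ∏ c, (nc ((Fin.consEquiv fun _ => Fin y) (x, f)) c)!
        = ∑ x : Fin y, (nc f x + 1) * ∏ c, (nc f c)! := sum_congr rfl (fun c0 _ => h1 c0)
      _ = (∑ x : Fin y, (nc f x + 1)) * ∏ c, (nc f c)! := by rw [sum_mul]
      _ = (∏ c, (nc f c)!) * (y + k) := by
          rw [sum_add_distrib, h2, sum_const, card_univ, Fintype.card_fin, smul_eq_mul, mul_one]
          ring

/-- number of pairs (permutation, invariant colouring) -/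
theorem sum_inv (α : Type) [Fintype α] [DecidableEq α] (y : ℕ) :
    ∑ σ : Perm α, Nat.card {f : α → Fin y // f ∘ σ = f} =
      ∏ i ∈ range (Fintype.card α), (y + i) := by
  classical
  simp_rw [Nat.card_eq_fintype_card]
  have h1 : ∑ σ : Perm α, Fintype.card {f : α → Fin y // f ∘ σ = f} =
      ∑ f : α → Fin y, Fintype.card {σ : Perm α // f ∘ σ = f} := by
    simp_rw [Fintype.card_subtype, card_filter]
    exact sum_comm
  rw [h1]
  have h2 : ∀ f : α → Fin y, Fintype.card {σ : Perm α // f ∘ σ = f} = ∏ c, (nc f c)! := by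
    intro f
    rw [DomMulAct.stabilizer_card f]
    apply prod_congr rfl
    intro c _
    rw [Fintype.card_subtype]; rfl
  simp_rw [h2]
  rw [← sum_prod]
  let e := Fintype.equivFin α
  refine Fintype.sum_equiv (e.arrowCongr (Equiv.refl (Fin y))) _ _ ?_
  intro f
  apply prod_congr rfl
  intro c _
  congr 1
  unfold nc
  apply card_bij (fun a _ => e a)
  · intro a ha
    simp only [mem_filter, mem_univ, true_and] at ha ⊢
    simp [Equiv.arrowCongr, ha]
  · intro a _ b _ h; exact e.injective h
  · intro b hb
    simp only [mem_filter, mem_univ, true_and] at hb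
    refine ⟨e.symm b, ?_, by simp⟩
    simpa [Equiv.arrowCongr] using hb

theorem pow_cyc_le {α : Type} [Fintype α] [DecidableEq α] (y : ℕ) (π : Perm α) (P : Finset α)
    (hP : π.support = P) (σ : Perm P) (hσ : ∀ x : P, ((σ x : P) : α) = π x) :
    y ^ cyc π ≤ Nat.card {f : P → Fin y // f ∘ σ = f} := by
  classical
  rw [Nat.card_eq_fintype_card]
  have h1 : y ^ cyc π = Fintype.card (π.cycleFactorsFinset → Fin y) := by
    rw [Fintype.card_fun, Fintype.card_fin, Fintype.card_coe]; rfl
  rw [h1]
  have hm : ∀ x : P, π.cycleOf (x : α) ∈ π.cycleFactorsFinset := fun x =>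
    Perm.cycleOf_mem_cycleFactorsFinset_iff.2 (by rw [hP]; exact x.2)
  let F : (π.cycleFactorsFinset → Fin y) → {f : P → Fin y // f ∘ σ = f} := fun g =>
    ⟨fun x => g ⟨π.cycleOf (x : α), hm x⟩, by
      funext x
      simp only [Function.comp_apply]
      congr 1
      apply Subtype.ext
      show π.cycleOf ((σ x : P) : α) = π.cycleOf (x : α)
      rw [hσ]
      apply Perm.SameCycle.cycleOf_eq
      exact (Perm.SameCycle.refl π (x : α)).apply_left⟩
  apply Fintype.card_le_of_injective F
  intro g g' h
  funext c
  obtain ⟨a, ha⟩ : (c : Perm α).support.Nonempty := by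
    have := (Perm.mem_cycleFactorsFinset_iff.1 c.2).1
    exact this.nonempty_support
  have h2 := Perm.cycle_is_cycleOf ha c.2
  have haP : a ∈ P := by
    rw [← hP]; exact Perm.mem_cycleFactorsFinset_support_le c.2 ha
  have h3 := congrFun (congrArg Subtype.val h) ⟨a, haP⟩
  have h4 : c = ⟨π.cycleOf a, hm ⟨a, haP⟩⟩ := Subtype.ext h2
  rw [h4]
  exact h3

end CycAux

open CycAux

theorem cyc_proof : Stmt_Cyc := by
  classical
  intro n k y
  have hmaps : ∀ π ∈ (univ : Finset (Perm (Fin n))).filter (fun π => π.support.card = k),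
      π.support ∈ powersetCard k (univ : Finset (Fin n)) := by
    intro π hπ
    rw [mem_powersetCard]
    exact ⟨subset_univ _, (mem_filter.1 hπ).2⟩
  rw [← sum_fiberwise_of_maps_to hmaps]
  have hmain : ∀ P ∈ powersetCard k (univ : Finset (Fin n)),
      ∑ π ∈ ((univ : Finset (Perm (Fin n))).filter (fun π => π.support.card = k)).filter
        (fun π => π.support = P), y ^ cyc π ≤ (y + k) ^ k := by
    intro P hP
    have hPk : P.card = k := (mem_powersetCard.1 hP).2
    set s := ((univ : Finset (Perm (Fin n))).filter (fun π => π.support.card = k)).filter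
        (fun π => π.support = P) with hs
    have hsP : ∀ π ∈ s, π.support = P := fun π hπ => (mem_filter.1 hπ).2
    -- restriction
    have hinv : ∀ π : Perm (Fin n), π.support = P → ∀ x, π x ∈ P ↔ x ∈ P := by
      intro π hπ x
      rw [← hπ]; exact Perm.apply_mem_support
    let res : Perm (Fin n) → Perm P := fun π =>
      if h : π.support = P then π.subtypePerm (p := fun x => x ∈ P) (hinv π h) else 1
    have hres : ∀ π, π.support = P → ∀ x : P, ((res π x : P) : Fin n) = π x := by
      intro π h x
      simp only [res, dif_pos h]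
      rfl
    have hinj : Set.InjOn res s := by
      intro π hπ π' hπ' h
      have h1 := hsP π hπ
      have h2 := hsP π' hπ'
      ext x
      by_cases hx : x ∈ P
      · have := congrArg (fun σ : Perm P => ((σ ⟨x, hx⟩ : P) : Fin n)) h
        simp only [hres π h1, hres π' h2] at this
        rw [this]
      · have e1 : π x = x := by rw [← Perm.notMem_support, h1]; exact hx
        have e2 : π' x = x := by rw [← Perm.notMem_support, h2]; exact hx
        rw [e1, e2]
    calc ∑ π ∈ s, y ^ cyc π
        ≤ ∑ π ∈ s, Nat.card {f : P → Fin y // f ∘ (res π) = f} :=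
          sum_le_sum (fun π hπ => pow_cyc_le y π P (hsP π hπ) (res π) (hres π (hsP π hπ)))
      _ = ∑ σ ∈ s.image res, Nat.card {f : P → Fin y // f ∘ σ = f} :=
          (sum_image (f := fun σ : Perm P => Nat.card {f : P → Fin y // f ∘ σ = f}) hinj).symm
      _ ≤ ∑ σ : Perm P, Nat.card {f : P → Fin y // f ∘ σ = f} :=
          sum_le_sum_of_subset (subset_univ _)
      _ = ∏ i ∈ range k, (y + i) := by
          rw [sum_inv, Fintype.card_coe, hPk]
      _ ≤ ∏ i ∈ range k, (y + k) := by
          apply prod_le_prod' 
          intro i hi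
          have := mem_range.1 hi
          omega
      _ = (y + k) ^ k := by rw [prod_const, card_range]
  refine (sum_le_sum hmain).trans ?_
  rw [sum_const, card_powersetCard, card_univ, Fintype.card_fin, smul_eq_mul]

end Pool.Agent.Whitehead
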