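import Pool.Agent.Whitehead.Defs

set_option autoImplicit false

namespace Pool.Agent.Whitehead

open Equiv Finset

namespace DegAux

theorem nxt_injective {n : ℕ} (h : HE n) : Function.Injective (nxt h) := by
  intro i j hij
  have h2 : h.2 + cond i 1 2 = h.2 + cond j 1 2 := congrArg Prod.snd hij
  have h3 := add_left_cancel h2
  revert h3
  cases i <;> cases j <;> simp

theorem nxt_ne {n : ℕ} (h : HE n) (i : Bool) : nxt h i ≠ h := by
  intro hh
  have h2 : h.2 + cond i 1 2 = h.2 := congrArg Prod.snd hh
  have h3 : cond i (1 : Fin 3) 2 = 0 := by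
    have := h2
    rwa [add_eq_left] at this
  revert h3
  cases i <;> simp

@[simp] theorem nxt_fst {n : ℕ} (h : HE n) (i : Bool) : (nxt h i).1 = h.1 := rfl

theorem isMat_conj {α : Type} {M : Perm α} (hM : IsMat M) [DecidableEq α] (f g : α) :
    IsMat (swap f g * M * swap f g) := by
  refine ⟨fun x => ?_, fun x hx => ?_⟩
  · simp only [Perm.mul_apply, swap_apply_self]
    rw [hM.1, swap_apply_self]
  · simp only [Perm.mul_apply] at hx
    have := congrArg (swap f g) hx
    rw [swap_apply_self] at this
    exact hM.2 _ this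

theorem clean_loopless {n : ℕ} {M : Perm (HE n)} (hM : IsMat M) {L : ℕ} {a : HE n}
    (h : Clean M L a) : a.1 ≠ (M a).1 := by
  intro hh
  have := (h true false [] [] (by simp) (by simp) (by
    simp only [blk, walk, cond_true, cond_false]
    rw [hM.1]; exact hh.symm)).1
  simp at this

theorem moveAt_nxt {n : ℕ} {M : Perm (HE n)} (hM : IsMat M) {L : ℕ} {a : HE n}
    (h : Clean M L a) (i j : Bool) : MoveAt M a (nxt a i) (nxt (M a) j) :=
  ⟨clean_loopless hM h, nxt_ne _ _, rfl, nxt_ne _ _, rfl⟩

end DegAux

open DegAux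

theorem Deg_proof (hL : Stmt_Local) (hL0 : Stmt_Local0) (hMC : Stmt_MoveConn) : Stmt_Deg := by
  classical
  intro n K M hgood
  set m := M.1 with hm
  have hmat : IsMat m := M.2.1
  have hconn : Conn m := M.2.2
  set L := 2 * K + 4 with hLdef
  -- the set of clean edge-ends
  set Cl : Finset (HE n) := univ.filter fun a => Clean m L a with hCl
  have hcard : Cl.card + dirty m L = 3 * n := by
    have h1 := Finset.card_filter_add_card_filter_not (s := (univ : Finset (HE n)))
      (p := fun a => Clean m L a)
    have h2 : (univ : Finset (HE n)).card = 3 * n := by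
      simp [HE, mul_comm]
    rw [h2] at h1
    rw [← h1]
    rfl
  have key : ∀ (σ : Perm (HE n)) (a f g a' f' g' : HE n), BP σ → Clean m L a → MoveAt m a f g →
      MoveAt m a' f' g' → (swap f' g' * σ * swap f g) * m = m * (swap f' g' * σ * swap f g) →
      (a' = a ∧ (f' = f ↔ g' = g)) ∨ (a' = m a ∧ (f' = g ↔ g' = f)) := by
    intro σ a f g a' f' g' hσ hcl hmv hmv' hcomm
    have hk : mv σ < K := by
      by_contra hk
      exact hgood f g f' g' σ hσ (not_lt.mp hk) hcomm
    exact hL n m σ a f g a' f' g' L hmat hσ hmv hmv' hcl (by omega) hcomm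
  have key0 : ∀ (σ : Perm (HE n)) (a f g : HE n), BP σ → Clean m L a → MoveAt m a f g →
      (σ * swap f g) * m = m * (σ * swap f g) → False := by
    intro σ a f g hσ hcl hmv hcomm
    have hk : mv σ < K := by
      by_contra hk
      refine hgood f g f f σ hσ (not_lt.mp hk) ?_
      rw [swap_self, show (Equiv.refl (HE n) : Perm (HE n)) = 1 from rfl, one_mul]
      exact hcomm
    exact hL0 n m σ a f g L hmat hσ hmv hcl (by omega) hcomm
  -- the map to classes
  let mk : ∀ (a f g : HE n), MoveAt m a f g → CG n := fun a f g h =>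
    ⟨swap f g * m * swap f g, isMat_conj hmat f g, hMC n m a f g hmat hconn h⟩
  let Φ : HE n × Bool × Bool → VB n := fun x =>
    if h : MoveAt m x.1 (nxt x.1 x.2.1) (nxt (m x.1) x.2.2) then
      Quotient.mk (bSetoid n) (mk _ _ _ h) else Quotient.mk (bSetoid n) M
  set S : Finset (HE n × Bool × Bool) := Cl ×ˢ univ with hS
  have hScard : S.card = 4 * Cl.card := by
    rw [hS, card_product]
    simp [mul_comm]
  have hfib : ∀ X ∈ S.image Φ, (S.filter fun x => Φ x = X).card ≤ 4 := by
    intro X hX
    obtain ⟨⟨a, i, j⟩, hx, rfl⟩ := mem_image.mp hX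
    have hacl : Clean m L a := by
      rw [hS, mem_product] at hx
      simpa [hCl] using hx.1
    have hmv := moveAt_nxt hmat hacl i j
    have hΦ : Φ (a, i, j) = Quotient.mk (bSetoid n) (mk _ _ _ hmv) := by
      simp only [Φ]
      rw [dif_pos hmv]
    have hsub : (S.filter fun x => Φ x = Φ (a, i, j)) ⊆
        {(a, i, j), (a, !i, !j), (m a, j, i), (m a, !j, !i)} := by
      rintro ⟨a', i', j'⟩ hx'
      rw [mem_filter] at hx'
      obtain ⟨hx1, hx2⟩ := hx'
      have hacl' : Clean m L a' := by
        rw [hS, mem_product] at hx1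
        simpa [hCl] using hx1.1
      have hmv' := moveAt_nxt hmat hacl' i' j'
      have hΦ' : Φ (a', i', j') = Quotient.mk (bSetoid n) (mk _ _ _ hmv') := by
        simp only [Φ]
        rw [dif_pos hmv']
      rw [hΦ, hΦ'] at hx2
      have hiso : BIso (mk _ _ _ hmv) (mk _ _ _ hmv') := Quotient.exact hx2.symm
      obtain ⟨σ, hσ, hσ2⟩ := hiso
      have hσ3 : σ * (swap (nxt a i) (nxt (m a) j) * m * swap (nxt a i) (nxt (m a) j)) =
        (swap (nxt a' i') (nxt (m a') j') * m * swap (nxt a' i') (nxt (m a') j')) * σ := hσ2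
      have hcomm : (swap (nxt a' i') (nxt (m a') j') * σ * swap (nxt a i) (nxt (m a) j)) * m =
          m * (swap (nxt a' i') (nxt (m a') j') * σ * swap (nxt a i) (nxt (m a) j)) := by
        have h1 := congrArg (fun z => swap (nxt a' i') (nxt (m a') j') * z *
          swap (nxt a i) (nxt (m a) j)) hσ3
        simp only [mul_assoc] at h1 ⊢
        rw [swap_mul_self, mul_one] at h1
        rw [h1, ← mul_assoc (swap _ _) (swap _ _), swap_mul_self, one_mul]
      rcases key σ a _ _ a' _ _ hσ hacl hmv hmv' hcomm with ⟨h1, h2⟩ | ⟨h1, h2⟩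
      · subst h1
        have h3 : i' = i ↔ j' = j := by
          rw [← (nxt_injective a').eq_iff, ← (nxt_injective (m a')).eq_iff]
          exact h2
        revert h3
        cases i <;> cases i' <;> cases j <;> cases j' <;> simp
      · subst h1
        have h3 : i' = j ↔ j' = i := by
          rw [← (nxt_injective (m a)).eq_iff, ← (nxt_injective a).eq_iff]
          rw [hmat.1] at h2
          exact h2
        revert h3
        cases i <;> cases i' <;> cases j <;> cases j' <;> simp
    refine (card_le_card hsub).trans ?_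
    refine (card_insert_le _ _).trans ?_
    have := (card_insert_le (a, !i, !j) {(m a, j, i), (m a, !j, !i)})
    have h2 := (card_insert_le (m a, j, i) {(m a, !j, !i)})
    have h3 := card_singleton (m a, !j, !i)
    omega
  have h1 := Finset.card_le_mul_card_image S 4 hfib
  have h2 : (S.image Φ : Set (VB n)) ⊆ (GammaB n).neighborSet (Quotient.mk (bSetoid n) M) := by
    intro X hX
    rw [mem_coe, mem_image] at hX
    obtain ⟨⟨a, i, j⟩, hx, rfl⟩ := hX
    have hacl : Clean m L a := by
      rw [hS, mem_product] at hx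
      simpa [hCl] using hx.1
    have hmv := moveAt_nxt hmat hacl i j
    have hΦ : Φ (a, i, j) = Quotient.mk (bSetoid n) (mk _ _ _ hmv) := by
      simp only [Φ]
      rw [dif_pos hmv]
    rw [hΦ, SimpleGraph.mem_neighborSet]
    refine ⟨fun heq => ?_, M, mk _ _ _ hmv, rfl, rfl, Or.inl ⟨a, _, _, hmv, rfl⟩⟩
    have hiso : BIso (mk _ _ _ hmv) M := Quotient.exact heq.symm
    obtain ⟨σ, hσ, hσ2⟩ := hiso
    have hσ3 : σ * (swap (nxt a i) (nxt (m a) j) * m * swap (nxt a i) (nxt (m a) j)) =
        m * σ := hσ2
    refine key0 σ a _ _ hσ hacl hmv ?_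
    have h1 := congrArg (fun z => z * swap (nxt a i) (nxt (m a) j)) hσ3
    simp only [mul_assoc] at h1 ⊢
    rw [swap_mul_self, mul_one] at h1
    exact h1
  have h3 : (S.image Φ).card ≤ ((GammaB n).neighborSet (Quotient.mk (bSetoid n) M)).ncard := by
    rw [← Set.ncard_coe_finset]
    exact Set.ncard_le_ncard h2 (Set.toFinite _)
  omega

end Pool.Agent.Whitehead
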