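import Pool.Agent.Whitehead.Defs

set_option autoImplicit false

namespace Pool.Agent.Whitehead

open Equiv Finset

open scoped Nat

open Classical in
theorem sum_CG {n : ℕ} [Fintype (CG n)] (g : Perm (HE n) → ℝ) :
    ∑ M : CG n, g M.1 =
      ∑ M ∈ (univ : Finset (Perm (HE n))).filter (fun M => IsMat M ∧ Conn M), g M := by
  refine Finset.sum_bij (fun (M : CG n) _ => M.1) ?_ ?_ ?_ ?_
  · intro M _
    rw [mem_filter]
    exact ⟨mem_univ _, M.2⟩
  · intro M _ M' _ h
    exact Subtype.ext h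
  · intro M hM
    rw [mem_filter] at hM
    exact ⟨⟨M, hM.2⟩, mem_univ _, rfl⟩
  · intro M _
    rfl

theorem mem_fixMat {α : Type} [Fintype α] [DecidableEq α] (ρ M : Perm α) :
    M ∈ fixMat ρ ↔ IsMat M ∧ ρ * M = M * ρ := by
  classical
  rw [fixMat, mem_filter]
  simp

theorem FinalB_proof (hT1 : Stmt_T1) (hT2 : Stmt_T2) (hSw : Stmt_Switch) (hDeg : Stmt_Deg)
    (hBad : Stmt_Bad) (hConn : Stmt_Conn) (hMatch : Stmt_Match) (hTp : Stmt_Tp)
    (hOrb : Stmt_Orb) : Stmt_FinalB := by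
  classical
  obtain ⟨C1, n1, h1⟩ := hT1
  obtain ⟨C2, n2, h2⟩ := hT2
  obtain ⟨Cs, hs⟩ := hSw (2 * 64 + 4)
  obtain ⟨n3, h3⟩ := hConn
  refine ⟨2 * (Cs * |C1| + 6 * |C2|), n1 + n2 + n3 + 2, fun n hn hev => ?_⟩
  intro instV
  let instC : Fintype (CG n) := Fintype.ofFinite _
  have hn0 : (0 : ℝ) < n := by
    have : 0 < n := by omega
    exact_mod_cast this
  have hT1 := h1 n (by omega) hev
  have hT2 := h2 n (by omega) hev
  have hC := h3 n (by omega) hev
  set Ω : Finset (Perm (HE n)) := fixMat (1 : Perm (HE n)) with hΩ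
  set Ωc : Finset (Perm (HE n)) := univ.filter (fun M => IsMat M ∧ Conn M) with hΩc
  have hΩpos : 0 < Ω.card := by
    have h4 : Even (Fintype.card (HE n)) := by
      simp [HE, hev]
    rw [hΩ, (hMatch (HE n)).1 h4]
    exact Nat.doubleFactorial_pos _
  have hΩcpos : 0 < Ωc.card := by omega
  have hΩsub : Ωc ⊆ Ω := by
    intro M hM
    rw [hΩc, mem_filter] at hM
    rw [hΩ, mem_fixMat]
    exact ⟨hM.2.1, by simp⟩
  set W : ℝ := ((bpSet n).card : ℝ) with hW
  have hWpos : 0 < W := by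
    have : 0 < (bpSet n).card := card_pos.mpr ⟨1, by rw [bpSet, mem_filter]; exact ⟨mem_univ _, BP.one⟩⟩
    rw [hW]; exact_mod_cast this
  -- #CG ≤ W |V|
  have hVW : (Ωc.card : ℝ) ≤ W * (Fintype.card (VB n) : ℝ) := by
    have h5 := hOrb n (fun _ => 1)
    simp only [mul_one] at h5
    rw [sum_const, nsmul_eq_mul, mul_one, card_univ] at h5
    rw [← h5, sum_CG (fun M => ((stab M).card : ℝ))]
    have h6 : (Ωc.card : ℝ) = ∑ M ∈ Ωc, (1 : ℝ) := by simp
    rw [h6]
    refine sum_le_sum fun M _ => ?_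
    have : 0 < (stab M).card := card_pos.mpr ⟨1, by
      rw [stab, mem_filter, bpSet, mem_filter]
      exact ⟨⟨mem_univ _, BP.one⟩, by simp⟩⟩
    exact_mod_cast this
  have hVpos : 0 < Fintype.card (VB n) := by
    by_contra h0
    have h7 : Fintype.card (VB n) = 0 := by omega
    have : (0 : ℝ) < Ωc.card := by exact_mod_cast hΩcpos
    rw [h7, Nat.cast_zero, mul_zero] at hVW
    linarith
  refine ⟨hVpos, ?_⟩
  -- F
  set F : VB n → ℝ := fun X => 3 * n - (((GammaB n).neighborSet X).ncard : ℝ) with hF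
  have hpt : ∀ M : CG n, F (Quotient.mk (bSetoid n) M) ≤
      (dirty M.1 (2 * 64 + 4) : ℝ) + 3 * n * (if Good 64 M.1 then 0 else 1) := by
    intro M
    rw [hF]
    by_cases hg : Good 64 M.1
    · have h8 := hDeg n 64 M hg
      rw [if_pos hg]
      have h9 : (3 * n : ℝ) ≤ (((GammaB n).neighborSet (Quotient.mk (bSetoid n) M)).ncard : ℝ) +
        (dirty M.1 (2 * 64 + 4) : ℝ) := by exact_mod_cast h8
      simp only
      linarith
    · rw [if_neg hg]
      have h9 : (0 : ℝ) ≤ (((GammaB n).neighborSet (Quotient.mk (bSetoid n) M)).ncard : ℝ) := by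
        positivity
      have h10 : (0 : ℝ) ≤ (dirty M.1 (2 * 64 + 4) : ℝ) := by positivity
      simp only
      linarith
  have hmain : W * ∑ X : VB n, F X ≤
      ∑ M ∈ Ω, ((stab M).card : ℝ) * (dirty M (2 * 64 + 4) : ℝ) +
      3 * n * ∑ M ∈ Ω.filter (fun M => ¬ Good 64 M), ((stab M).card : ℝ) := by
    rw [hW, ← hOrb n F]
    have h11 : ∑ M : CG n, ((stab M.1).card : ℝ) * F (Quotient.mk (bSetoid n) M) ≤
        ∑ M : CG n, (((stab M.1).card : ℝ) * (dirty M.1 (2 * 64 + 4) : ℝ) +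
          3 * n * (if Good 64 M.1 then 0 else ((stab M.1).card : ℝ))) := by
      refine sum_le_sum fun M _ => ?_
      have h12 := mul_le_mul_of_nonneg_left (hpt M) (Nat.cast_nonneg (α := ℝ) (stab M.1).card)
      refine h12.trans (le_of_eq ?_)
      split_ifs <;> ring
    refine h11.trans ?_
    rw [sum_CG (fun M => ((stab M).card : ℝ) * (dirty M (2 * 64 + 4) : ℝ) +
          3 * n * (if Good 64 M then 0 else ((stab M).card : ℝ)))]
    have h13 : ∑ M ∈ Ωc, (((stab M).card : ℝ) * (dirty M (2 * 64 + 4) : ℝ) +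
          3 * n * (if Good 64 M then 0 else ((stab M).card : ℝ))) ≤
        ∑ M ∈ Ω, (((stab M).card : ℝ) * (dirty M (2 * 64 + 4) : ℝ) +
          3 * n * (if Good 64 M then 0 else ((stab M).card : ℝ))) := by
      refine sum_le_sum_of_subset_of_nonneg hΩsub fun M _ _ => ?_
      split_ifs <;> positivity
    refine h13.trans (le_of_eq ?_)
    rw [sum_add_distrib, ← mul_sum]
    congr 2
    rw [sum_filter]
    refine sum_congr rfl fun M _ => ?_
    by_cases hg : Good 64 M <;> simp [hg]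
  -- first sum
  have hfirst : ∑ M ∈ Ω, ((stab M).card : ℝ) * (dirty M (2 * 64 + 4) : ℝ) ≤
      Cs * (|C1| * (Ω.card : ℝ)) := by
    have h14 : ∑ M ∈ Ω, ((stab M).card : ℝ) * (dirty M (2 * 64 + 4) : ℝ) =
        ∑ σ ∈ bpSet n, ∑ M ∈ fixMat σ, (dirty M (2 * 64 + 4) : ℝ) := by
      have h15 : ∀ M ∈ Ω, ((stab M).card : ℝ) * (dirty M (2 * 64 + 4) : ℝ) =
          ∑ σ ∈ bpSet n, if σ * M = M * σ then (dirty M (2 * 64 + 4) : ℝ) else 0 := by
        intro M _
        rw [← sum_filter, sum_const, nsmul_eq_mul]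
        rfl
      rw [sum_congr rfl h15, sum_comm]
      refine sum_congr rfl fun σ _ => ?_
      rw [← sum_filter]
      refine sum_congr ?_ fun _ _ => rfl
      ext M
      rw [mem_filter, hΩ, mem_fixMat, mem_fixMat]
      simp
    rw [h14]
    have h16 : ∀ σ ∈ bpSet n, ∑ M ∈ fixMat σ, (dirty M (2 * 64 + 4) : ℝ) ≤
        Cs * ((1 + (σ.support.card : ℝ)) * ((fixMat σ).card : ℝ)) := by
      intro σ _
      have h17 := hs n σ
      have h18 : ∑ M ∈ fixMat σ, (dirty M (2 * 64 + 4) : ℝ) ≤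
          Cs * (1 + (σ.support.card : ℝ)) * ((fixMat σ).card : ℝ) := by exact_mod_cast h17
      rw [← mul_assoc]
      exact h18
    refine (sum_le_sum h16).trans ?_
    rw [← mul_sum]
    refine mul_le_mul_of_nonneg_left ?_ (Nat.cast_nonneg _)
    rw [(hTp n).2 (fun σ => (1 + (σ.support.card : ℝ)) * ((fixMat σ).card : ℝ))]
    refine hT1.trans ?_
    exact mul_le_mul_of_nonneg_right (le_abs_self C1) (Nat.cast_nonneg _)
  -- second sum
  have hsecond : ∑ M ∈ Ω.filter (fun M => ¬ Good 64 M), ((stab M).card : ℝ) ≤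
      2 * (|C2| / n * (Ω.card : ℝ)) := by
    have h19 := hBad n 32 (Ω.filter (fun M => ¬ Good 64 M)) (by
      intro M hM
      rw [mem_filter, hΩ, mem_fixMat] at hM
      exact ⟨hM.1.1, hM.2⟩)
    have h20 : ∑ M ∈ Ω.filter (fun M => ¬ Good 64 M), ((stab M).card : ℝ) ≤
        2 * ∑ z : (HE n × HE n) × (HE n × HE n),
          ∑ σ ∈ (bpSet n).filter (fun σ => 32 ≤ mv σ),
            ((fixMat (swap z.2.1 z.2.2 * σ * swap z.1.1 z.1.2)).card : ℝ) := by
      exact_mod_cast h19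
    refine h20.trans ?_
    refine mul_le_mul_of_nonneg_left ?_ (by norm_num)
    have h21 : ∀ z : (HE n × HE n) × (HE n × HE n),
        ∑ σ ∈ (bpSet n).filter (fun σ => 32 ≤ mv σ),
            ((fixMat (swap z.2.1 z.2.2 * σ * swap z.1.1 z.1.2)).card : ℝ) =
        ∑ x ∈ (univ : Finset (Perm (Fin n) × (Fin n → Perm (Fin 3)))).filter
          (fun x => 32 ≤ x.1.support.card),
          ((fixMat (swap z.2.1 z.2.2 * tp x.1 x.2 * swap z.1.1 z.1.2)).card : ℝ) := by
      intro z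
      rw [sum_filter, (hTp n).2 (fun σ => if 32 ≤ mv σ then
        ((fixMat (swap z.2.1 z.2.2 * σ * swap z.1.1 z.1.2)).card : ℝ) else 0), sum_filter]
      refine sum_congr rfl fun x _ => ?_
      rw [((hTp n).1 x.1 x.2).2]
    rw [sum_congr rfl fun z _ => h21 z]
    refine hT2.trans ?_
    refine mul_le_mul_of_nonneg_right ?_ (Nat.cast_nonneg _)
    exact div_le_div_of_nonneg_right (le_abs_self C2) hn0.le
  -- combine
  have hΩ2 : (Ω.card : ℝ) ≤ 2 * (W * (Fintype.card (VB n) : ℝ)) := by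
    have : (Ω.card : ℝ) ≤ 2 * (Ωc.card : ℝ) := by exact_mod_cast hC
    linarith
  have hcomb : W * ∑ X : VB n, F X ≤ (Cs * |C1| + 6 * |C2|) * (Ω.card : ℝ) := by
    refine hmain.trans ?_
    have h22 : 3 * (n : ℝ) * ∑ M ∈ Ω.filter (fun M => ¬ Good 64 M), ((stab M).card : ℝ) ≤
        3 * n * (2 * (|C2| / n * (Ω.card : ℝ))) :=
      mul_le_mul_of_nonneg_left hsecond (by positivity)
    have h23 : 3 * (n : ℝ) * (2 * (|C2| / n * (Ω.card : ℝ))) = 6 * |C2| * (Ω.card : ℝ) := by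
      field_simp
      ring
    rw [h23] at h22
    calc _ ≤ Cs * (|C1| * (Ω.card : ℝ)) + 6 * |C2| * (Ω.card : ℝ) := add_le_add hfirst h22
      _ = _ := by ring
  have hcomb2 : W * ∑ X : VB n, F X ≤
      W * (2 * (Cs * |C1| + 6 * |C2|) * (Fintype.card (VB n) : ℝ)) := by
    refine hcomb.trans ?_
    calc (Cs * |C1| + 6 * |C2|) * (Ω.card : ℝ)
        ≤ (Cs * |C1| + 6 * |C2|) * (2 * (W * (Fintype.card (VB n) : ℝ))) :=
          mul_le_mul_of_nonneg_left hΩ2 (by positivity)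
      _ = _ := by ring
  have hcomb3 : ∑ X : VB n, F X ≤
      2 * (Cs * |C1| + 6 * |C2|) * (Fintype.card (VB n) : ℝ) :=
    le_of_mul_le_mul_left hcomb2 hWpos
  have hsumF : ∑ X : VB n, F X = 3 * n * (Fintype.card (VB n) : ℝ) -
      ∑ X : VB n, (((GammaB n).neighborSet X).ncard : ℝ) := by
    rw [hF, sum_sub_distrib, sum_const, nsmul_eq_mul, card_univ]
    ring
  rw [hsumF] at hcomb3
  linarith

end Pool.Agent.Whitehead
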