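import Pool.Agent.Whitehead.Defs

/-!
# Module Fix: number of matchings commuting with a permutation
-/

set_option autoImplicit false

namespace Pool.Agent.Whitehead.Fix

open Equiv Finset

open scoped Nat

variable {α : Type} [Fintype α] [DecidableEq α] {ρ : Perm α}

omit [Fintype α] [DecidableEq α] in
theorem comm_apply {M : Perm α} (h : ρ * M = M * ρ) (i : ℤ) (x : α) :
    (ρ ^ i) (M x) = M ((ρ ^ i) x) := by
  have hc : Commute ρ M := h
  have := (hc.zpow_left i).eq
  rw [← Perm.mul_apply, this, Perm.mul_apply]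

omit [Fintype α] [DecidableEq α] in
theorem sc_map {M : Perm α} (h : ρ * M = M * ρ) {x y : α} (hxy : ρ.SameCycle x y) :
    ρ.SameCycle (M x) (M y) := by
  obtain ⟨i, rfl⟩ := hxy
  exact ⟨i, comm_apply h i x⟩

omit [Fintype α] [DecidableEq α] in
theorem halfturn {x : α} {i j : ℤ} (hi : (ρ ^ i) x ≠ x) (hi2 : (ρ ^ (i + i)) x = x)
    (hj : (ρ ^ j) x ≠ x) (hj2 : (ρ ^ (j + j)) x = x) : (ρ ^ i) x = (ρ ^ j) x := by
  let H : AddSubgroup ℤ :=
    { carrier := {n : ℤ | (ρ ^ n) x = x}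
      zero_mem' := by simp
      add_mem' := by
        intro a b ha hb
        simp only [Set.mem_ofPred_eq] at ha hb ⊢
        rw [zpow_add, Perm.mul_apply, hb, ha]
      neg_mem' := by
        intro a ha
        simp only [Set.mem_ofPred_eq] at ha ⊢
        rw [zpow_neg, Perm.inv_eq_iff_eq, ha] }
  have hH : ∀ n : ℤ, n ∈ H ↔ (ρ ^ n) x = x := fun n => Iff.rfl
  obtain ⟨a, ha⟩ := Int.subgroup_cyclic H
  have hmem : ∀ n : ℤ, n ∈ H ↔ ∃ k : ℤ, k * a = n := by
    intro n
    rw [ha, AddSubgroup.mem_closure_singleton]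
    simp
  have hi2' := (hmem _).1 ((hH _).2 hi2)
  have hj2' := (hmem _).1 ((hH _).2 hj2)
  obtain ⟨n, hn⟩ := hi2'
  obtain ⟨m, hm⟩ := hj2'
  have hnodd : Odd n := by
    rw [← Int.not_even_iff_odd]
    rintro ⟨k, rfl⟩
    exact hi ((hH _).1 ((hmem _).2 ⟨k, by linarith⟩))
  have hmodd : Odd m := by
    rw [← Int.not_even_iff_odd]
    rintro ⟨k, rfl⟩
    exact hj ((hH _).1 ((hmem _).2 ⟨k, by linarith⟩))
  obtain ⟨k, hk⟩ := hnodd
  obtain ⟨l, hl⟩ := hmodd
  have hd : i - j ∈ H := (hmem _).2 ⟨k - l, by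
    subst hk hl
    linarith⟩
  have := (hH _).1 hd
  have h2 : (ρ ^ j) ((ρ ^ (i - j)) x) = (ρ ^ i) x := by
    rw [← Perm.mul_apply, ← zpow_add]
    congr 2
    ring
  rw [← h2, this]

/-- the recorded representatives -/
noncomputable def AM (ρ : Perm α) (R : Finset α) (e : α → ℕ) (M : Perm α) : Finset α := by
  classical
  exact R.filter fun q => ∃ r ∈ R, ρ.SameCycle r (M q) ∧ e q < e r

theorem mem_AM {R : Finset α} {e : α → ℕ} {M : Perm α} {q : α} :
    q ∈ AM ρ R e M ↔ q ∈ R ∧ ∃ r ∈ R, ρ.SameCycle r (M q) ∧ e q < e r := by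
  classical
  unfold AM
  simp

theorem card_AM {R : Finset α} {e : α → ℕ} {M : Perm α}
    (hR2 : ∀ q ∈ R, ∀ q' ∈ R, ρ.SameCycle q q' → q = q')
    (hM : IsMat M) (hc : ρ * M = M * ρ) : (AM ρ R e M).card ≤ R.card / 2 := by
  classical
  have hsub : AM ρ R e M ⊆ R := fun q hq => (mem_AM.1 hq).1
  have key : ∀ q r : α, ρ.SameCycle r (M q) → ρ.SameCycle q (M r) := by
    intro q r h
    have := sc_map hc h
    rw [hM.1] at this
    exact this.symm
  have h1 : (AM ρ R e M).card ≤ (R \ AM ρ R e M).card := by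
    let f : α → α := fun q => if h : ∃ r ∈ R, ρ.SameCycle r (M q) ∧ e q < e r then h.choose else q
    have hf : ∀ q ∈ AM ρ R e M, f q ∈ R ∧ ρ.SameCycle (f q) (M q) ∧ e q < e (f q) := by
      intro q hq
      have h := (mem_AM.1 hq).2
      have : f q = h.choose := by
        simp only [f]
        rw [dif_pos h]
      rw [this]
      exact h.choose_spec
    refine Finset.card_le_card_of_injOn f ?_ ?_
    · intro q hq
      obtain ⟨h1, h2, h3⟩ := hf q hq
      rw [Finset.mem_coe, Finset.mem_sdiff]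
      refine ⟨h1, fun h => ?_⟩
      obtain ⟨-, r', hr', hs, hlt⟩ := mem_AM.1 h
      have h4 := key _ _ h2
      have : q = r' := hR2 q (hsub hq) r' hr' (h4.trans hs.symm)
      subst this
      omega
    · intro q hq q' hq' heq
      obtain ⟨h1, h2, h3⟩ := hf q hq
      obtain ⟨h1', h2', h3'⟩ := hf q' hq'
      have h4 := key _ _ h2
      have h4' := key _ _ h2'
      have heq' : f q = f q' := heq
      rw [heq'] at h4
      exact hR2 q (hsub hq) q' (hsub hq') (h4.trans h4'.symm)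
  rw [Finset.card_sdiff_of_subset hsub] at h1
  have h2 := Finset.card_le_card hsub
  omega

theorem det {R : Finset α} {e : α → ℕ} (he : Function.Injective e) {M M' : Perm α}
    (hR1 : ∀ p, ρ p ≠ p → ∃ q ∈ R, ρ.SameCycle q p)
    (hR3 : ∀ q ∈ R, ρ q ≠ q)
    (hM : IsMat M) (hc : ρ * M = M * ρ) (hM' : IsMat M') (hc' : ρ * M' = M' * ρ)
    (hA : AM ρ R e M = AM ρ R e M') (hAe : ∀ q ∈ AM ρ R e M, M q = M' q)
    (hY : ∀ x, ρ x = x → M x = M' x) : M = M' := by
  have hsupp : ∀ (N : Perm α), ρ * N = N * ρ → ∀ q, ρ q ≠ q → ρ (N q) ≠ N q := by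
    intro N hN q hq h
    have h1 : ρ (N q) = N (ρ q) := by
      rw [← Perm.mul_apply, hN, Perm.mul_apply]
    rw [h1] at h
    exact hq (N.injective h)
  have hself : ∀ (N : Perm α), IsMat N → ρ * N = N * ρ → AM ρ R e N = AM ρ R e M →
      (∀ q ∈ AM ρ R e M, N q = M q) → ∀ q ∈ R, q ∉ AM ρ R e M →
      (¬ ∃ q0 ∈ AM ρ R e M, ρ.SameCycle q (M q0)) → ρ.SameCycle q (N q) := by
    intro N hN hcN hAN hN2 q hq hqA hno
    by_contra hcon
    obtain ⟨q0, hq0, hs0⟩ := hR1 (N q) (hsupp N hcN q (hR3 q hq))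
    have hne : q ≠ q0 := by
      rintro rfl
      exact hcon hs0
    have hs1 : ρ.SameCycle q (N q0) := by
      have := sc_map hcN hs0
      rw [hN.1] at this
      exact this.symm
    rcases lt_trichotomy (e q) (e q0) with hlt | heq | hgt
    · have hqA' : q ∈ AM ρ R e N := mem_AM.2 ⟨hq, q0, hq0, hs0, hlt⟩
      rw [hAN] at hqA'
      exact hqA hqA'
    · exact hne (he heq)
    · have hq0A : q0 ∈ AM ρ R e N := mem_AM.2 ⟨hq0, q, hq, hs1, hgt⟩
      rw [hAN] at hq0A
      exact hno ⟨q0, hq0A, by rw [← hN2 q0 hq0A]; exact hs1⟩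
  have hrep : ∀ q ∈ R, M q = M' q := by
    intro q hq
    by_cases hqA : q ∈ AM ρ R e M
    · exact hAe q hqA
    by_cases hex : ∃ q0 ∈ AM ρ R e M, ρ.SameCycle q (M q0)
    · obtain ⟨q0, hq0, i, hi⟩ := hex
      have h1 : M q = (ρ ^ (-i)) q0 := by
        have : q = (ρ ^ (-i)) (M q0) := by
          rw [← hi, ← Perm.mul_apply, ← zpow_add]
          simp
        conv_lhs => rw [this]
        rw [← comm_apply hc, hM.1]
      have h2 : M' q = (ρ ^ (-i)) q0 := by
        have : q = (ρ ^ (-i)) (M' q0) := by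
          rw [← hAe q0 hq0, ← hi, ← Perm.mul_apply, ← zpow_add]
          simp
        conv_lhs => rw [this]
        rw [← comm_apply hc', hM'.1]
      rw [h1, h2]
    · obtain ⟨i, hi⟩ := hself M hM hc rfl (fun _ _ => rfl) q hq hqA hex
      obtain ⟨j, hj⟩ := hself M' hM' hc' hA.symm (fun q hq => (hAe q hq).symm) q hq hqA hex
      rw [← hi, ← hj]
      refine halfturn ?_ ?_ ?_ ?_
      · rw [hi]; exact hM.2 q
      · rw [zpow_add, Perm.mul_apply, hi, comm_apply hc, hi, hM.1]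
      · rw [hj]; exact hM'.2 q
      · rw [zpow_add, Perm.mul_apply, hj, comm_apply hc', hj, hM'.1]
  ext x
  by_cases hx : ρ x = x
  · exact hY x hx
  · obtain ⟨q, hq, i, rfl⟩ := hR1 x hx
    rw [← comm_apply hc, ← comm_apply hc', hrep q hq]

/-- restriction to the fixed points of `ρ` -/
noncomputable def resY (ρ M : Perm α) : Perm {x // ρ x = x} := by
  classical
  exact if h : ∀ x, ρ (M x) = M x ↔ ρ x = x then M.subtypePerm h else 1

omit [Fintype α] [DecidableEq α] in
theorem resY_hyp {M : Perm α} (hc : ρ * M = M * ρ) : ∀ x, ρ (M x) = M x ↔ ρ x = x := by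
  intro x
  have h1 : ρ (M x) = M (ρ x) := by
    rw [← Perm.mul_apply, hc, Perm.mul_apply]
  rw [h1, M.injective.eq_iff]

theorem resY_apply {M : Perm α} (hc : ρ * M = M * ρ) (x : {x // ρ x = x}) :
    ((resY ρ M x : {x // ρ x = x}) : α) = M x := by
  unfold resY
  rw [dif_pos (resY_hyp hc)]
  rfl

theorem mem_fixMat {β : Type} [Fintype β] [DecidableEq β] {τ M : Perm β} :
    M ∈ fixMat τ ↔ IsMat M ∧ τ * M = M * τ := by
  unfold fixMat
  simp

theorem core (hMatch : Stmt_Match) (ρ : Perm α) (R : Finset α) (e : α → ℕ)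
    (he : Function.Injective e)
    (hR1 : ∀ p, ρ p ≠ p → ∃ q ∈ R, ρ.SameCycle q p)
    (hR2 : ∀ q ∈ R, ∀ q' ∈ R, ρ.SameCycle q q' → q = q')
    (hR3 : ∀ q ∈ R, ρ q ≠ q) :
    (fixMat ρ).card ≤ (ρ.support.card + 1) ^ (R.card / 2) *
      (2 ^ R.card * (Fintype.card α - ρ.support.card - 1)‼) := by
  classical
  let t : Finset (Finset α × Perm {x // ρ x = x}) :=
    R.powerset ×ˢ fixMat (1 : Perm {x // ρ x = x})
  have ht : t.card ≤ 2 ^ R.card * (Fintype.card α - ρ.support.card - 1)‼ := by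
    rw [Finset.card_product, Finset.card_powerset]
    refine Nat.mul_le_mul_left _ ?_
    have hcard : Fintype.card {x // ρ x = x} = Fintype.card α - ρ.support.card := by
      have h1 := Finset.card_filter_add_card_filter_not (s := (univ : Finset α)) (fun x => ρ x = x)
      rw [Fintype.card_subtype]
      have h2 : ρ.support = univ.filter fun x => ¬ ρ x = x := by
        ext x; simp
      rw [h2, ← Finset.card_univ]
      omega
    obtain ⟨h1, h2⟩ := hMatch {x // ρ x = x}
    by_cases hev : Even (Fintype.card {x // ρ x = x})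
    · rw [h1 hev, hcard]
    · rw [h2 hev]; exact Nat.zero_le _
  refine (Finset.card_le_mul_card_image_of_maps_to
    (f := fun M => (AM ρ R e M, resY ρ M)) (t := t) ?_
    ((ρ.support.card + 1) ^ (R.card / 2)) ?_).trans (Nat.mul_le_mul_left _ ht)
  · intro M hM
    obtain ⟨hM1, hM2⟩ := mem_fixMat.1 hM
    rw [Finset.mem_product]
    refine ⟨Finset.mem_powerset.2 fun q hq => (mem_AM.1 hq).1, mem_fixMat.2 ⟨⟨?_, ?_⟩, ?_⟩⟩
    · intro x
      apply Subtype.ext
      rw [resY_apply hM2, resY_apply hM2, hM1.1]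
    · intro x hx
      have := congrArg Subtype.val hx
      rw [resY_apply hM2] at this
      exact hM1.2 _ this
    · rw [one_mul, mul_one]
  · rintro ⟨A, m⟩ -
    by_cases hne : ((fixMat ρ).filter fun M => (AM ρ R e M, resY ρ M) = (A, m)).Nonempty
    swap
    · rw [Finset.not_nonempty_iff_eq_empty] at hne
      rw [hne]
      exact Nat.zero_le _
    obtain ⟨M0, hM0⟩ := hne
    rw [Finset.mem_filter, mem_fixMat, Prod.mk.injEq] at hM0
    obtain ⟨⟨hM0a, hM0b⟩, hM0c, -⟩ := hM0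
    have hAcard : A.card ≤ R.card / 2 := hM0c ▸ card_AM hR2 hM0a hM0b
    have hAR : ∀ q ∈ A, q ∈ R := by
      intro q hq
      rw [← hM0c] at hq
      exact (mem_AM.1 hq).1
    have h1 : ((fixMat ρ).filter fun M => (AM ρ R e M, resY ρ M) = (A, m)).card ≤
        (Fintype.piFinset fun _ : A => ρ.support).card := by
      refine Finset.card_le_card_of_injOn (fun M => fun q : A => M q) ?_ ?_
      · intro M hM
        rw [Finset.mem_coe, Finset.mem_filter, mem_fixMat, Prod.mk.injEq] at hM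
        obtain ⟨⟨hM1, hM2⟩, -, -⟩ := hM
        rw [Finset.mem_coe, Fintype.mem_piFinset]
        intro q
        rw [Perm.mem_support]
        have := resY_hyp hM2 q
        exact fun h => hR3 q (hAR q q.2) (this.1 h)
      · intro M hM M' hM' heq
        rw [Finset.mem_coe, Finset.mem_filter, mem_fixMat, Prod.mk.injEq] at hM hM'
        obtain ⟨⟨hM1, hM2⟩, hM3, hM4⟩ := hM
        obtain ⟨⟨hM1', hM2'⟩, hM3', hM4'⟩ := hM'
        refine det he hR1 hR3 hM1 hM2 hM1' hM2' (hM3.trans hM3'.symm) ?_ ?_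
        · intro q hq
          rw [hM3] at hq
          exact congrFun heq ⟨q, hq⟩
        · intro x hx
          have h := congrArg (fun f : Perm {x // ρ x = x} => ((f ⟨x, hx⟩ : {x // ρ x = x}) : α))
            (hM4.trans hM4'.symm)
          change ((resY ρ M ⟨x, hx⟩ : {x // ρ x = x}) : α) = ((resY ρ M' ⟨x, hx⟩ : {x // ρ x = x}) : α) at h
          rw [resY_apply hM2, resY_apply hM2'] at h
          exact h
    refine h1.trans ?_
    rw [Fintype.card_piFinset, Finset.prod_const, Finset.card_univ, Fintype.card_coe]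
    exact (Nat.pow_le_pow_left (Nat.le_succ _) _).trans
      (Nat.pow_le_pow_right (Nat.succ_pos _) hAcard)

end Pool.Agent.Whitehead.Fix

namespace Pool.Agent.Whitehead

open Equiv Finset

open scoped Nat

theorem fix_proof (hMatch : Stmt_Match) : Stmt_Fix := by
  intro α _ _ ρ R hR
  classical
  let e : α → ℕ := fun x => (Fintype.equivFin α x : ℕ)
  have he : Function.Injective e := fun x y h =>
    (Fintype.equivFin α).injective (Fin.ext h)
  let R' := R.filter fun q => ρ q ≠ q ∧ ∀ q' ∈ R, ρ.SameCycle q q' → e q ≤ e q'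
  have hR' : ∀ q, q ∈ R' ↔ q ∈ R ∧ ρ q ≠ q ∧ ∀ q' ∈ R, ρ.SameCycle q q' → e q ≤ e q' := by
    intro q
    simp only [R', Finset.mem_filter]
  have hsub : R'.card ≤ R.card := Finset.card_le_card (Finset.filter_subset _ _)
  have hR1 : ∀ p, ρ p ≠ p → ∃ q ∈ R', ρ.SameCycle q p := by
    intro p hp
    obtain ⟨q, hq, hqp⟩ := hR p hp
    obtain ⟨r, hr, hmin⟩ := Finset.exists_min_image (R.filter fun q => ρ.SameCycle q p) e
      ⟨q, Finset.mem_filter.2 ⟨hq, hqp⟩⟩
    rw [Finset.mem_filter] at hr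
    refine ⟨r, (hR' r).2 ⟨hr.1, ?_, ?_⟩, hr.2⟩
    · intro h
      exact hp ((hr.2.apply_eq_self_iff).1 h)
    · intro q' hq' hs
      exact hmin q' (Finset.mem_filter.2 ⟨hq', hs.symm.trans hr.2⟩)
  have hR2 : ∀ q ∈ R', ∀ q' ∈ R', ρ.SameCycle q q' → q = q' := by
    intro q hq q' hq' hs
    obtain ⟨h1, -, h2⟩ := (hR' q).1 hq
    obtain ⟨h1', -, h2'⟩ := (hR' q').1 hq'
    exact he (le_antisymm (h2 q' h1' hs) (h2' q h1 hs.symm))
  have hR3 : ∀ q ∈ R', ρ q ≠ q := fun q hq => ((hR' q).1 hq).2.1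
  refine (Fix.core hMatch ρ R' e he hR1 hR2 hR3).trans ?_
  rw [mul_comm (2 ^ R.card), mul_assoc]
  refine Nat.mul_le_mul (Nat.pow_le_pow_right (Nat.succ_pos _) (Nat.div_le_div_right hsub))
    (Nat.mul_le_mul_right _ (Nat.pow_le_pow_right (by norm_num) hsub))

end Pool.Agent.Whitehead
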