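import Pool.Agent.Whitehead.Defs

/-!
# MODULE FixW: weighted bounds for the number of matchings commuting with a permutation
(MP_406c5d_co)
-/

set_option autoImplicit false

namespace Pool.Agent.Whitehead

open Equiv Finset

open scoped Nat

namespace FixWAux

theorem sqrt_pow_even (x : ℝ) (hx : 0 ≤ x) (l : ℕ) : √x ^ (l + l) = x ^ l := by
  rw [← two_mul, pow_mul, Real.sq_sqrt hx]

/-- general bound -/
theorem gen (hFix : Stmt_Fix) (hEven : Stmt_Even) (hMatch : Stmt_Match) (hRatio : Stmt_Ratio)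
    (n : ℕ) (hn : 2 ≤ n) (hne : Even n) (ρ : Perm (HE n)) (R : Finset (HE n))
    (hR : ∀ p, ρ p ≠ p → ∃ q ∈ R, ρ.SameCycle q p) :
    ((fixMat ρ).card : ℝ) ≤ ((fixMat (1 : Perm (HE n))).card : ℝ) *
      (2 ^ R.card * √(ρ.support.card + 1 : ℝ) ^ R.card * √(2 / n : ℝ) ^ ρ.support.card) := by
  classical
  by_cases hemp : (fixMat ρ).Nonempty
  · have h1 := hFix (HE n) ρ R hR
    have hs : Even ρ.support.card := hEven (HE n) ρ hemp
    have hcard : Fintype.card (HE n) = 3 * n := by simp [HE, mul_comm]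
    rw [hcard] at h1
    have hm := (hMatch (HE n)).1 (by rw [hcard]; exact hne.mul_left 3)
    rw [hcard] at hm
    have hle : ρ.support.card ≤ 3 * n := by
      have := Finset.card_le_univ ρ.support
      rwa [hcard] at this
    obtain ⟨l, hl⟩ := hs
    obtain ⟨u, hu⟩ := hne
    have h2 := hRatio (3 * u) l (by omega)
    have e1 : 2 * (3 * u - l) - 1 = 3 * n - ρ.support.card - 1 := by omega
    have e2 : 2 * (3 * u) - 1 = 3 * n - 1 := by omega
    rw [e1, e2] at h2
    have e3 : (((3 * u : ℕ) : ℝ) / 3) = (u : ℝ) := by push_cast; ring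
    rw [e3] at h2
    have hu0 : (0 : ℝ) < u := by
      have : 0 < u := by omega
      exact_mod_cast this
    have e4 : (2 / n : ℝ) = (u : ℝ)⁻¹ := by
      rw [hu]; push_cast; field_simp; ring
    have h3 : ((3 * n - ρ.support.card - 1)‼ : ℝ) ≤
        ((3 * n - 1)‼ : ℝ) * √(2 / n : ℝ) ^ ρ.support.card := by
      rw [e4, hl, sqrt_pow_even _ (by positivity), inv_pow, ← div_eq_mul_inv,
        le_div_iff₀ (by positivity)]
      rw [hl] at h2
      exact h2
    have h4 : ((ρ.support.card + 1 : ℕ) : ℝ) ^ (R.card / 2) ≤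
        √(ρ.support.card + 1 : ℝ) ^ R.card := by
      have h5 : (1 : ℝ) ≤ √(ρ.support.card + 1 : ℝ) := by
        rw [Real.one_le_sqrt]
        have : (0 : ℝ) ≤ (ρ.support.card : ℝ) := by positivity
        linarith
      calc ((ρ.support.card + 1 : ℕ) : ℝ) ^ (R.card / 2)
          = √(ρ.support.card + 1 : ℝ) ^ (R.card / 2 + R.card / 2) := by
            rw [sqrt_pow_even _ (by positivity)]; push_cast; rfl
        _ ≤ √(ρ.support.card + 1 : ℝ) ^ R.card := pow_le_pow_right₀ h5 (by omega)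
    have h1' : ((fixMat ρ).card : ℝ) ≤ 2 ^ R.card * ((ρ.support.card + 1 : ℕ) : ℝ) ^ (R.card / 2) *
        ((3 * n - ρ.support.card - 1)‼ : ℝ) := by
      exact_mod_cast h1
    rw [hm]
    calc ((fixMat ρ).card : ℝ) ≤ 2 ^ R.card * ((ρ.support.card + 1 : ℕ) : ℝ) ^ (R.card / 2) *
        ((3 * n - ρ.support.card - 1)‼ : ℝ) := h1'
      _ ≤ 2 ^ R.card * √(ρ.support.card + 1 : ℝ) ^ R.card *
        (((3 * n - 1)‼ : ℝ) * √(2 / n : ℝ) ^ ρ.support.card) := by gcongr
      _ = _ := by ring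
  · rw [Finset.not_nonempty_iff_eq_empty] at hemp
    rw [hemp]
    simp only [Finset.card_empty, Nat.cast_zero]
    positivity

theorem sqrt_two_div_le_one (n : ℕ) (hn : 2 ≤ n) : √(2 / n : ℝ) ≤ 1 := by
  have : (2 : ℝ) ≤ n := by exact_mod_cast hn
  have h : (2 / n : ℝ) ≤ 1 := by
    rw [div_le_one (by linarith)]
    exact this
  calc √(2 / n : ℝ) ≤ √1 := Real.sqrt_le_sqrt h
    _ = 1 := Real.sqrt_one

theorem pow_le_one_of (x : ℝ) (hx : 0 ≤ x) (hx1 : x ≤ 1) (a b : ℕ) (hab : a ≤ b) :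
    x ^ b ≤ x ^ a := pow_le_pow_of_le_one hx hx1 hab

theorem support_swap_mul {α : Type} [Fintype α] [DecidableEq α] (σ : Perm α) (p q : α) :
    (swap p q * σ).support.card ≤ σ.support.card + 2 ∧
      (σ * swap p q).support.card ≤ σ.support.card + 2 := by
  have hsw : (swap p q).support.card ≤ 2 := by
    by_cases h : p = q
    · subst h; simp
    · rw [Perm.card_support_swap h]
  constructor
  · calc (swap p q * σ).support.card ≤ ((swap p q).support ⊔ σ.support).card :=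
        Finset.card_le_card (Perm.support_mul_le _ _)
      _ ≤ (swap p q).support.card + σ.support.card := Finset.card_union_le _ _
      _ ≤ _ := by omega
  · calc (σ * swap p q).support.card ≤ (σ.support ⊔ (swap p q).support).card :=
        Finset.card_le_card (Perm.support_mul_le _ _)
      _ ≤ σ.support.card + (swap p q).support.card := Finset.card_union_le _ _
      _ ≤ _ := by omega

end FixWAux

open FixWAux

theorem fixW1_proof (hFix : Stmt_Fix) (hEven : Stmt_Even) (hMatch : Stmt_Match)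
    (hRatio : Stmt_Ratio) (hSupp : Stmt_Supp) (hTrans : Stmt_Trans) : Stmt_FixW1 := by
  intro n hn hne π θ
  obtain ⟨R, hRc, hR⟩ := (hTrans n π θ).1
  obtain ⟨s1, s2, -, -⟩ := hSupp n π θ
  refine (gen hFix hEven hMatch hRatio n hn hne (tp π θ) R hR).trans ?_
  refine mul_le_mul_of_nonneg_left ?_ (by positivity)
  have hx : √((tp π θ).support.card + 1 : ℝ) ≤ √(3 * (π.support.card + jj π θ) + 1 : ℝ) := by
    apply Real.sqrt_le_sqrt
    have : ((tp π θ).support.card : ℝ) ≤ 3 * (π.support.card + jj π θ) := by exact_mod_cast s2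
    linarith
  have hx1 : (1 : ℝ) ≤ √(3 * (π.support.card + jj π θ) + 1 : ℝ) := by
    rw [Real.one_le_sqrt]
    have : (0 : ℝ) ≤ 3 * (π.support.card + jj π θ) := by positivity
    linarith
  have hA : (2 : ℝ) ^ R.card ≤ 2 ^ (3 * cyc π + jj π θ) :=
    pow_le_pow_right₀ (by norm_num) hRc
  have hB : √((tp π θ).support.card + 1 : ℝ) ^ R.card ≤
      √(3 * (π.support.card + jj π θ) + 1 : ℝ) ^ (3 * cyc π + jj π θ) :=
    (pow_le_pow_left₀ (Real.sqrt_nonneg _) hx _).trans (pow_le_pow_right₀ hx1 hRc)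
  have hC : √(2 / n : ℝ) ^ (tp π θ).support.card ≤
      √(2 / n : ℝ) ^ (3 * π.support.card + 2 * jj π θ) :=
    pow_le_one_of _ (Real.sqrt_nonneg _) (sqrt_two_div_le_one n hn) _ _ s1
  gcongr

theorem fixW2_proof (hFix : Stmt_Fix) (hEven : Stmt_Even) (hMatch : Stmt_Match)
    (hRatio : Stmt_Ratio) (hSupp : Stmt_Supp) (hTrans : Stmt_Trans) : Stmt_FixW2 := by
  intro n hn hne π θ p₁ q₁ p₂ q₂
  obtain ⟨R, hRc, hR⟩ := (hTrans n π θ).2 p₁ q₁ p₂ q₂
  obtain ⟨s1, s2, -, -⟩ := hSupp n π θ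
  set ρ := swap p₂ q₂ * tp π θ * swap p₁ q₁ with hρ
  have hs1 : ρ.support.card ≤ (tp π θ).support.card + 4 := by
    have h1 := (support_swap_mul (swap p₂ q₂ * tp π θ) p₁ q₁).2
    have h2 := (support_swap_mul (tp π θ) p₂ q₂).1
    rw [← hρ] at h1
    omega
  have hs2 : (tp π θ).support.card ≤ ρ.support.card + 4 := by
    have h1 := (support_swap_mul (swap p₂ q₂ * ρ) p₁ q₁).2
    have h2 := (support_swap_mul ρ p₂ q₂).1
    have h3 : swap p₂ q₂ * ρ * swap p₁ q₁ = tp π θ := by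
      rw [hρ]
      simp [mul_assoc]
    rw [h3] at h1
    omega
  refine (gen hFix hEven hMatch hRatio n hn hne ρ R hR).trans ?_
  refine mul_le_mul_of_nonneg_left ?_ (by positivity)
  have hx : √(ρ.support.card + 1 : ℝ) ≤ √(3 * (π.support.card + jj π θ) + 5 : ℝ) := by
    apply Real.sqrt_le_sqrt
    have : ((tp π θ).support.card : ℝ) ≤ 3 * (π.support.card + jj π θ) := by exact_mod_cast s2
    have h' : (ρ.support.card : ℝ) ≤ ((tp π θ).support.card : ℝ) + 4 := by exact_mod_cast hs1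
    linarith
  have hx1 : (1 : ℝ) ≤ √(3 * (π.support.card + jj π θ) + 5 : ℝ) := by
    rw [Real.one_le_sqrt]
    have : (0 : ℝ) ≤ 3 * (π.support.card + jj π θ) := by positivity
    linarith
  have hA : (2 : ℝ) ^ R.card ≤ 2 ^ (3 * cyc π + jj π θ + 4) :=
    pow_le_pow_right₀ (by norm_num) hRc
  have hB : √(ρ.support.card + 1 : ℝ) ^ R.card ≤
      √(3 * (π.support.card + jj π θ) + 5 : ℝ) ^ (3 * cyc π + jj π θ + 4) :=
    (pow_le_pow_left₀ (Real.sqrt_nonneg _) hx _).trans (pow_le_pow_right₀ hx1 hRc)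
  have hn0 : (0 : ℝ) < n := by
    have : 0 < n := by omega
    exact_mod_cast this
  have hC : √(2 / n : ℝ) ^ ρ.support.card ≤
      √(2 / n : ℝ) ^ (3 * π.support.card + 2 * jj π θ) * (n : ℝ) ^ 2 := by
    have h1 : √(2 / n : ℝ) ^ (ρ.support.card + 4) ≤
        √(2 / n : ℝ) ^ (3 * π.support.card + 2 * jj π θ) :=
      pow_le_one_of _ (Real.sqrt_nonneg _) (sqrt_two_div_le_one n hn) _ _ (by omega)
    have h2 : √(2 / n : ℝ) ^ 4 = (2 / n : ℝ) ^ 2 := sqrt_pow_even _ (by positivity) 2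
    have h3 : √(2 / n : ℝ) ^ ρ.support.card =
        √(2 / n : ℝ) ^ (ρ.support.card + 4) * ((n : ℝ) / 2) ^ 2 := by
      rw [pow_add, h2]
      field_simp
    rw [h3]
    have h4 : ((n : ℝ) / 2) ^ 2 ≤ (n : ℝ) ^ 2 := by
      have : (0 : ℝ) ≤ (n : ℝ) ^ 2 := by positivity
      nlinarith
    gcongr
  calc (2 : ℝ) ^ R.card * √(ρ.support.card + 1 : ℝ) ^ R.card * √(2 / n : ℝ) ^ ρ.support.card
      ≤ 2 ^ (3 * cyc π + jj π θ + 4) *
        √(3 * (π.support.card + jj π θ) + 5 : ℝ) ^ (3 * cyc π + jj π θ + 4) *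
        (√(2 / n : ℝ) ^ (3 * π.support.card + 2 * jj π θ) * (n : ℝ) ^ 2) := by gcongr
    _ = _ := by ring

end Pool.Agent.Whitehead
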