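import Pool.Agent.Whitehead.Defs

set_option autoImplicit false

namespace Pool.Agent.Whitehead

open Equiv Finset

namespace LitAux

/-- a fixed numbering of the points -/
def num (n : ℕ) : HE n ≃ Fin (3 * n) :=
  finProdFinEquiv.trans (finCongr (mul_comm n 3))

/-- the literal cubic graph obtained from a literal cubic graph by renumbering the edge-ends -/
def relabel {n : ℕ} (G : CubicGraph n) (e : Perm (Fin (3 * n))) : CubicGraph n where
  vert h := G.vert (e h)
  inv h := e.symm (G.inv (e h))
  inv_inv h := by simp [G.inv_inv]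
  inv_ne h := by
    intro hh
    have := congrArg e hh
    rw [Equiv.apply_symm_apply] at this
    exact G.inv_ne _ this
  degree v := by
    refine Eq.trans ?_ (G.degree v)
    refine Finset.card_bij (fun h _ => e h) ?_ ?_ ?_
    · intro h hh
      simpa using hh
    · intro h _ h' _ hh
      exact e.injective hh
    · intro h hh
      refine ⟨e.symm h, ?_, by simp⟩
      simpa using hh
  connected u v := by
    refine Relation.ReflTransGen.mono ?_ u v (G.connected u v)
    rintro u v ⟨h, h1, h2⟩
    exact ⟨e.symm h, by simpa using h1, by simpa using h2⟩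

theorem relabel_iso {n : ℕ} (G : CubicGraph n) (e : Perm (Fin (3 * n))) :
    (relabel G e).Iso G :=
  ⟨e, 1, fun _ => rfl, fun h => by simp [relabel]⟩

/-- block model to literal model -/
def toLit {n : ℕ} (M : CG n) : CubicGraph n where
  vert h := ((num n).symm h).1
  inv h := num n (M.1 ((num n).symm h))
  inv_inv h := by simp [M.2.1.1]
  inv_ne h := by
    intro hh
    have := congrArg (num n).symm hh
    rw [Equiv.symm_apply_apply] at this
    exact M.2.1.2 _ this
  degree v := by
    have : (univ.filter fun h : Fin (3 * n) => ((num n).symm h).1 = v).card =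
        (univ : Finset (Fin 3)).card := by
      symm
      refine Finset.card_bij (fun p _ => num n (v, p)) ?_ ?_ ?_
      · intro p _
        simp
      · intro p _ p' _ hh
        have := (num n).injective hh
        exact congrArg Prod.snd this
      · intro h hh
        rw [mem_filter] at hh
        refine ⟨((num n).symm h).2, mem_univ _, ?_⟩
        rw [← hh.2]
        simp
    rw [this]
    simp
  connected u v := by
    refine Relation.ReflTransGen.mono ?_ u v (M.2.2 u v)
    rintro u v ⟨p, hp⟩
    exact ⟨num n (u, p), by simp, by simpa using hp⟩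

/-- literal model to block model, given an adapted numbering -/
def fromLit {n : ℕ} (G : CubicGraph n) (e : HE n ≃ Fin (3 * n)) (he : ∀ x, G.vert (e x) = x.1) :
    CG n :=
  ⟨{ toFun := fun x => e.symm (G.inv (e x))
     invFun := fun x => e.symm (G.inv (e x))
     left_inv := fun x => by simp [G.inv_inv]
     right_inv := fun x => by simp [G.inv_inv] }, by
    refine ⟨⟨fun x => ?_, fun x hx => ?_⟩, fun u v => ?_⟩
    · simp [G.inv_inv]
    · have := congrArg e hx
      simp only [Equiv.coe_fn_mk, Equiv.apply_symm_apply] at this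
      exact G.inv_ne _ this
    · refine Relation.ReflTransGen.mono ?_ u v (G.connected u v)
      rintro u v ⟨h, h1, h2⟩
      have h3 : (e.symm h).1 = u := by
        rw [← he, Equiv.apply_symm_apply, h1]
      refine ⟨(e.symm h).2, ?_⟩
      have h4 : (u, (e.symm h).2) = e.symm h := by rw [← h3]
      rw [h4]
      simp only [Equiv.coe_fn_mk, Equiv.apply_symm_apply]
      rw [← he, Equiv.apply_symm_apply, h2]⟩

theorem fromLit_apply {n : ℕ} (G : CubicGraph n) (e : HE n ≃ Fin (3 * n))
    (he : ∀ x, G.vert (e x) = x.1) (x : HE n) :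
    (fromLit G e he).1 x = e.symm (G.inv (e x)) := rfl

theorem toLit_fromLit {n : ℕ} (G : CubicGraph n) (e : HE n ≃ Fin (3 * n))
    (he : ∀ x, G.vert (e x) = x.1) : (toLit (fromLit G e he)).Iso G := by
  refine ⟨(num n).symm.trans e, 1, fun h => ?_, fun h => ?_⟩
  · simp [toLit, he]
  · simp [toLit, fromLit_apply]

theorem exists_adapted {n : ℕ} (G : CubicGraph n) :
    ∃ e : HE n ≃ Fin (3 * n), ∀ x, G.vert (e x) = x.1 := by
  classical
  have h1 : ∀ v : Fin n, Fintype.card {h // G.vert h = v} = 3 := by
    intro v
    rw [Fintype.card_subtype]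
    exact G.degree v
  let e1 : ∀ v : Fin n, Fin 3 ≃ {h // G.vert h = v} := fun v =>
    (Fintype.equivFinOfCardEq (h1 v)).symm
  refine ⟨(Equiv.sigmaEquivProd (Fin n) (Fin 3)).symm.trans
    ((Equiv.sigmaCongrRight e1).trans (Equiv.sigmaFiberEquiv G.vert)), ?_⟩
  rintro ⟨v, p⟩
  exact (e1 v p).2

theorem iso_of_bIso {n : ℕ} {M M' : CG n} (h : BIso M M') : (toLit M).Iso (toLit M') := by
  obtain ⟨σ, hσ, hσ2⟩ := h
  have hinj : Function.Injective (fun i : Fin n => (σ (i, 0)).1) := by
    intro i j hij
    exact (hσ (i, 0) (j, 0)).mp hij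
  let ψ : Perm (Fin n) := Equiv.ofBijective _ (Finite.injective_iff_bijective.mp hinj)
  refine ⟨(num n).symm.trans (σ.trans (num n)), ψ, fun h => ?_, fun h => ?_⟩
  · simp only [toLit, Equiv.trans_apply, Equiv.symm_apply_apply]
    show _ = (σ (((num n).symm h).1, 0)).1
    rw [hσ]
  · have := congrArg (fun z : Perm (HE n) => z ((num n).symm h)) hσ2
    simp only [Perm.mul_apply] at this
    simp only [toLit, Equiv.trans_apply, Equiv.symm_apply_apply]
    rw [this]

theorem bIso_of_iso {n : ℕ} {M M' : CG n} (h : (toLit M).Iso (toLit M')) : BIso M M' := by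
  obtain ⟨e, ψ, h1, h2⟩ := h
  refine ⟨(num n).trans (e.trans (num n).symm), ?_, ?_⟩
  · intro p q
    have h3 : ∀ p : HE n, ((num n).symm (e (num n p))).1 = ψ p.1 := by
      intro p
      have := h1 (num n p)
      simpa [toLit] using this
    show ((num n).symm (e (num n p))).1 = ((num n).symm (e (num n q))).1 ↔ _
    rw [h3, h3, ψ.apply_eq_iff_eq]
  · ext1 x
    have := h2 (num n x)
    simp only [toLit, Equiv.symm_apply_apply] at this
    show (num n).symm (e (num n (M.1 x))) = M'.1 ((num n).symm (e (num n x)))
    rw [← this, Equiv.symm_apply_apply]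

theorem symm_swap {α β : Type} [DecidableEq α] [DecidableEq β] (e : α ≃ β) (f g h : β) :
    e.symm (swap f g h) = swap (e.symm f) (e.symm g) (e.symm h) := by
  rw [Equiv.swap_apply_def, Equiv.swap_apply_def]
  simp only [EmbeddingLike.apply_eq_iff_eq]
  split_ifs <;> rfl

theorem wMove_of_move {n : ℕ} {G G' : CubicGraph n} (h : G.WhiteheadMove G') :
    ∃ M M' : CG n, (toLit M).Iso G ∧ (toLit M').Iso G' ∧ WMove M M' := by
  obtain ⟨a, f, g, h1, h2, h3, h4, h5, h6, h7, h8, h9⟩ := h
  obtain ⟨e, he⟩ := exists_adapted G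
  have hG' : ∀ x, G'.vert (swap f g x) = G.vert x := by
    intro x
    by_cases hf : x = f
    · rw [hf, swap_apply_left, h8, h3]
    by_cases hg : x = g
    · rw [hg, swap_apply_right, h7, h5]
    rw [swap_apply_of_ne_of_ne hf hg, h9 x hf hg]
  have he' : ∀ x, G'.vert ((e.trans (swap f g)) x) = x.1 := by
    intro x
    rw [Equiv.trans_apply, hG', he]
  refine ⟨fromLit G e he, fromLit G' _ he', toLit_fromLit G e he, toLit_fromLit G' _ he',
    e.symm a, e.symm f, e.symm g, ?_, ?_⟩
  · refine ⟨?_, ?_, ?_, ?_, ?_⟩
    · rw [fromLit_apply, ← he, ← he, Equiv.apply_symm_apply, Equiv.apply_symm_apply]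
      exact h1
    · exact fun h => h2 (e.symm.injective h)
    · rw [← he, ← he, Equiv.apply_symm_apply, Equiv.apply_symm_apply, h3]
    · rw [fromLit_apply, Equiv.apply_symm_apply]
      exact fun h => h4 (e.symm.injective h)
    · rw [fromLit_apply, ← he, ← he, Equiv.apply_symm_apply, Equiv.apply_symm_apply, h5,
        Equiv.apply_symm_apply]
  · ext1 x
    show (fromLit G' _ he').1 x = swap (e.symm f) (e.symm g)
      ((fromLit G e he).1 (swap (e.symm f) (e.symm g) x))
    rw [fromLit_apply, fromLit_apply, h6]
    show e.symm ((swap f g).symm (G.inv (swap f g (e x)))) = _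
    have h10 := symm_swap e f g (e x)
    rw [Equiv.symm_apply_apply] at h10
    rw [Equiv.symm_swap, symm_swap, ← h10, Equiv.apply_symm_apply]

theorem move_of_wMove {n : ℕ} {M M' : CG n} (h : WMove M M') :
    ∃ G G' : CubicGraph n, G.Iso (toLit M) ∧ G'.Iso (toLit M') ∧ G.WhiteheadMove G' := by
  obtain ⟨a, f, g, ⟨h1, h2, h3, h4, h5⟩, h6⟩ := h
  have hsw : ∀ x, (num n).symm (swap (num n f) (num n g) x) = swap f g ((num n).symm x) := by
    intro x
    rw [symm_swap]
    simp
  have hsw' : ∀ x, swap (num n f) (num n g) (num n x) = num n (swap f g x) := by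
    intro x
    apply (num n).symm.injective
    rw [hsw]
    simp
  have hvert : ∀ x, (relabel (toLit M') (swap (num n f) (num n g))).vert x =
      (swap f g ((num n).symm x)).1 := by
    intro x
    show ((num n).symm (swap (num n f) (num n g) x)).1 = _
    rw [hsw]
  refine ⟨toLit M, relabel (toLit M') (swap (num n f) (num n g)),
    (CubicGraph.Iso.equivalence n).refl _, relabel_iso _ _, num n a, num n f, num n g,
    ?_, ?_, ?_, ?_, ?_, ?_, ?_, ?_, ?_⟩
  · simpa [toLit] using h1
  · exact fun h => h2 ((num n).injective h)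
  · simpa [toLit] using h3
  · intro h
    apply h4
    simpa [toLit] using h
  · simpa [toLit] using h5
  · funext x
    show (swap (num n f) (num n g)).symm
      (num n (M'.1 ((num n).symm (swap (num n f) (num n g) x)))) = num n (M.1 ((num n).symm x))
    rw [Equiv.symm_swap, hsw, hsw', h6]
    simp only [Perm.mul_apply, swap_apply_self]
  · rw [hvert, Equiv.symm_apply_apply, swap_apply_left, h5]
    simp [toLit]
  · rw [hvert, Equiv.symm_apply_apply, swap_apply_right, h3]
    simp [toLit]
  · intro x hxf hxg
    rw [hvert, swap_apply_of_ne_of_ne]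
    · rfl
    · intro h; apply hxf; rw [← h]; simp
    · intro h; apply hxg; rw [← h]; simp

/-- the map on classes -/
def cls (n : ℕ) : VB n → Unlabelled n :=
  Quotient.map' (s₁ := bSetoid n) (s₂ := isoSetoid n) toLit fun _ _ h => iso_of_bIso h

theorem cls_mk {n : ℕ} (M : CG n) :
    cls n (Quotient.mk (bSetoid n) M) = Quotient.mk (isoSetoid n) (toLit M) := rfl

theorem cls_bijective (n : ℕ) : Function.Bijective (cls n) := by
  constructor
  · intro X Y
    induction X using Quotient.inductionOn with | h M => ?_
    induction Y using Quotient.inductionOn with | h M' => ?_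
    intro h
    rw [cls_mk, cls_mk] at h
    exact Quotient.sound (s := bSetoid n) (bIso_of_iso (Quotient.exact h))
  · intro Y
    induction Y using Quotient.inductionOn with | h G => ?_
    obtain ⟨e, he⟩ := exists_adapted G
    refine ⟨Quotient.mk (bSetoid n) (fromLit G e he), ?_⟩
    rw [cls_mk]
    exact Quotient.sound (s := isoSetoid n) (toLit_fromLit G e he)

end LitAux

open LitAux in
theorem Lit_proof : Stmt_Lit := by
  intro n
  refine ⟨Equiv.ofBijective (cls n) (cls_bijective n), fun X Y => ?_⟩
  rw [Equiv.ofBijective_apply, Equiv.ofBijective_apply]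
  have hinj := (cls_bijective n).1
  constructor
  · rintro ⟨hne, G, G', hG, hG', h⟩
    refine ⟨fun h => hne (by rw [h]), ?_⟩
    rcases h with h | h
    · obtain ⟨M, M', h1, h2, h3⟩ := wMove_of_move h
      refine ⟨M, M', ?_, ?_, Or.inl h3⟩
      · apply hinj
        rw [cls_mk, ← hG]
        exact Quotient.sound (s := isoSetoid n) h1
      · apply hinj
        rw [cls_mk, ← hG']
        exact Quotient.sound (s := isoSetoid n) h2
    · obtain ⟨M', M, h1, h2, h3⟩ := wMove_of_move h
      refine ⟨M, M', ?_, ?_, Or.inr h3⟩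
      · apply hinj
        rw [cls_mk, ← hG]
        exact Quotient.sound (s := isoSetoid n) h2
      · apply hinj
        rw [cls_mk, ← hG']
        exact Quotient.sound (s := isoSetoid n) h1
  · rintro ⟨hne, M, M', hM, hM', h⟩
    refine ⟨fun h => hne (hinj h), ?_⟩
    rcases h with h | h
    · obtain ⟨G, G', h1, h2, h3⟩ := move_of_wMove h
      refine ⟨G, G', ?_, ?_, Or.inl h3⟩
      · rw [← hM, cls_mk]
        exact Quotient.sound (s := isoSetoid n) h1
      · rw [← hM', cls_mk]
        exact Quotient.sound (s := isoSetoid n) h2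
    · obtain ⟨G', G, h1, h2, h3⟩ := move_of_wMove h
      refine ⟨G, G', ?_, ?_, Or.inr h3⟩
      · rw [← hM, cls_mk]
        exact Quotient.sound (s := isoSetoid n) h2
      · rw [← hM', cls_mk]
        exact Quotient.sound (s := isoSetoid n) h1

end Pool.Agent.Whitehead
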