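import Pool.Agent.Whitehead.Defs

set_option autoImplicit false

namespace Pool.Agent.Whitehead

open Equiv Finset

namespace LocalAux

variable {n : ℕ}

/-- point reached by the index `(s, w)` -/
def W (M : Perm (HE n)) (a : HE n) (s : Bool) (w : List Bool) : HE n := walk M (cond s a (M a)) w

/-- block reached by the index `(s, w)` -/
def B (M : Perm (HE n)) (a : HE n) (s : Bool) (w : List Bool) : Fin n := (M (W M a s w)).1

theorem W_cons (M : Perm (HE n)) (a : HE n) (s c : Bool) (w : List Bool) :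
    W M a s (c :: w) = nxt (M (W M a s w)) c := rfl

theorem W_fst_cons (M : Perm (HE n)) (a : HE n) (s c : Bool) (w : List Bool) :
    (W M a s (c :: w)).1 = B M a s w := rfl

theorem clean_inj {M : Perm (HE n)} {L : ℕ} {a : HE n} (h : Clean M L a) {s s' : Bool}
    {w w' : List Bool} (hw : w.length ≤ L) (hw' : w'.length ≤ L)
    (he : B M a s w = B M a s' w') : s = s' ∧ w = w' := h s s' w w' hw hw' he

theorem nxt_ne (h : HE n) (i : Bool) : nxt h i ≠ h := by
  intro he
  have h2 : h.2 + cond i 1 2 = h.2 := congrArg Prod.snd he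
  clear he
  revert h2
  generalize h.2 = t
  revert t i
  decide

theorem nxt_inj {h : HE n} {i i' : Bool} (he : nxt h i = nxt h i') : i = i' := by
  have h2 : h.2 + cond i 1 2 = h.2 + cond i' 1 2 := congrArg Prod.snd he
  clear he
  revert h2
  generalize h.2 = t
  revert t i i'
  decide

theorem eq_or_nxt {p q : HE n} (h : q.1 = p.1) : q = p ∨ ∃ c, q = nxt p c := by
  obtain ⟨p1, p2⟩ := p
  obtain ⟨q1, q2⟩ := q
  simp only at h
  subst h
  have : q2 = p2 ∨ ∃ c : Bool, q2 = p2 + cond c 1 2 := by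
    revert p2 q2; decide
  rcases this with h | ⟨c, h⟩
  · left; rw [h]
  · right; exact ⟨c, by rw [h]; rfl⟩

theorem eq_nxt_of_ne {p q : HE n} (h : q.1 = p.1) (hne : q ≠ p) : ∃ c, q = nxt p c := by
  rcases eq_or_nxt h with h | h
  · exact absurd h hne
  · exact h

/-- the data of the local lemma -/
structure Ctx (M σ τ' : Perm (HE n)) (a f g : HE n) (L : ℕ) (D : Fin n → Prop) : Prop where
  mat : IsMat M
  bp : BP σ
  mvat : MoveAt M a f g
  cl : Clean M L a
  len : 2 * Whitehead.mv σ + 4 ≤ L
  comm : (τ' * σ * swap f g) * M = M * (τ' * σ * swap f g)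
  inv : ∀ p, τ' (τ' p) = p
  D1 : ∀ p : HE n, ¬ D p.1 → τ' p = p
  D2 : ∀ (s s' i i' : Bool) (w w' : List Bool), w.length ≤ 2 * Whitehead.mv σ + 1 →
    w'.length ≤ 2 * Whitehead.mv σ + 1 →
    D (B M a s (w ++ [i])) → D (B M a s' (w' ++ [i'])) → s = s' ∧ i = i'

variable {M σ τ' : Perm (HE n)} {a f g : HE n} {L : ℕ} {D : Fin n → Prop}

/-- a block is unbroken -/
def Unb (M : Perm (HE n)) (a : HE n) (D : Fin n → Prop) (b : Fin n) : Prop :=
  b ≠ a.1 ∧ b ≠ (M a).1 ∧ ¬ D b

theorem Ctx.rho_apply (C : Ctx M σ τ' a f g L D) {p : HE n} (hp : Unb M a D p.1) :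
    (τ' * σ * swap f g) p = τ' (σ p) := by
  have h1 : p ≠ f := by
    intro h; apply hp.1; rw [h, C.mvat.f_at]
  have h2 : p ≠ g := by
    intro h; apply hp.2.1; rw [h, C.mvat.g_at]
  simp only [Perm.mul_apply]
  rw [swap_apply_of_ne_of_ne h1 h2]

theorem Ctx.rho_fixed_block (C : Ctx M σ τ' a f g L D) {p : HE n} (hp : Unb M a D p.1)
    (hf : (σ p).1 = p.1) : (τ' * σ * swap f g) p = σ p := by
  rw [C.rho_apply hp]
  apply C.D1
  rw [hf]
  exact hp.2.2

/-- (i) -/
theorem Ctx.moved_nxt (C : Ctx M σ τ' a f g L D) {p : HE n} (hp : Unb M a D p.1)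
    (hm : (τ' * σ * swap f g) p ≠ p) : ∃ c, (τ' * σ * swap f g) (nxt p c) ≠ nxt p c := by
  by_contra hcon
  push Not at hcon
  have hpc : ∀ c, Unb M a D (nxt p c).1 := fun c => hp
  by_cases hf : (σ p).1 = p.1
  · have hfc : ∀ c, (σ (nxt p c)).1 = (nxt p c).1 := by
      intro c
      have : (σ (nxt p c)).1 = (σ p).1 := (C.bp _ _).mpr rfl
      rw [this, hf]; rfl
    have h1 : ∀ c, σ (nxt p c) = nxt p c := by
      intro c
      rw [← C.rho_fixed_block (hpc c) (hfc c)]
      exact hcon c
    apply hm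
    rw [C.rho_fixed_block hp hf]
    rcases eq_or_nxt hf with h | ⟨c, h⟩
    · exact h
    · exfalso
      rw [← h1 c] at h
      exact nxt_ne p c (σ.injective h).symm
  · have h1 := hcon true
    rw [C.rho_apply (hpc true)] at h1
    have h2 : τ' (nxt p true) = nxt p true := C.D1 _ (hpc true).2.2
    have h3 : σ (nxt p true) = nxt p true := by
      apply τ'.injective
      rw [h1, h2]
    apply hf
    have h4 : (σ p).1 = (σ (nxt p true)).1 := (C.bp _ _).mpr rfl
    rw [h4, h3]; rfl

theorem Ctx.moved_M (C : Ctx M σ τ' a f g L D) {p : HE n}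
    (hm : (τ' * σ * swap f g) p ≠ p) : (τ' * σ * swap f g) (M p) ≠ M p := by
  intro h
  apply hm
  have h1 := congrArg (fun z : Perm (HE n) => z p) C.comm
  have h2 : (τ' * σ * swap f g) (M p) = M ((τ' * σ * swap f g) p) := h1
  rw [h] at h2
  exact (M.injective h2).symm

theorem Ctx.unb (C : Ctx M σ τ' a f g L D) {s : Bool} {w : List Bool} (hw : w ≠ [])
    (hlen : w.length ≤ L) (hD : ¬ D (B M a s w)) : Unb M a D (B M a s w) := by
  refine ⟨fun h => ?_, fun h => ?_, hD⟩
  · have h1 : B M a s w = B M a false [] := by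
      rw [h]
      show a.1 = (M (M a)).1
      rw [C.mat.1]
    exact hw (clean_inj C.cl hlen (by simp) h1).2
  · have h1 : B M a s w = B M a true [] := h
    exact hw (clean_inj C.cl hlen (by simp) h1).2

/-- (ii) -/
theorem Ctx.not_both_fixed (C : Ctx M σ τ' a f g L D) {s c : Bool} {u : List Bool}
    (hlen : (c :: u).length ≤ L) (h1 : Unb M a D (B M a s u)) (h2 : Unb M a D (B M a s (c :: u)))
    (hu : u ≠ [])
    (hm : (τ' * σ * swap f g) (W M a s (c :: u)) ≠ W M a s (c :: u))
    (hf1 : (σ (B M a s u, 0)).1 = B M a s u)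
    (hf2 : (σ (B M a s (c :: u), 0)).1 = B M a s (c :: u)) : False := by
  set q := W M a s (c :: u) with hq
  have hq1 : q.1 = B M a s u := rfl
  have hMq1 : (M q).1 = B M a s (c :: u) := rfl
  have e1 : (τ' * σ * swap f g) q = σ q := by
    apply C.rho_fixed_block
    · rw [hq1]; exact h1
    · have : (σ q).1 = (σ (B M a s u, 0)).1 := (C.bp _ _).mpr hq1
      rw [this, hf1, hq1]
  have e2 : (τ' * σ * swap f g) (M q) = σ (M q) := by
    apply C.rho_fixed_block
    · rw [hMq1]; exact h2
    · have : (σ (M q)).1 = (σ (B M a s (c :: u), 0)).1 := (C.bp _ _).mpr hMq1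
      rw [this, hf2, hMq1]
  have h3 := congrArg (fun z : Perm (HE n) => z q) C.comm
  have h4 : (τ' * σ * swap f g) (M q) = M ((τ' * σ * swap f g) q) := h3
  rw [e1, e2] at h4
  rw [e1] at hm
  have h5 : (σ q).1 = B M a s u := by
    have : (σ q).1 = (σ (B M a s u, 0)).1 := (C.bp _ _).mpr hq1
    rw [this, hf1]
  have h6 : (M (σ q)).1 = B M a s (c :: u) := by
    rw [← h4]
    have : (σ (M q)).1 = (σ (B M a s (c :: u), 0)).1 := (C.bp _ _).mpr hMq1
    rw [this, hf2]
  have h7 : (σ q).1 = (M (W M a s u)).1 := h5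
  rcases eq_or_nxt h7 with h | ⟨d, h⟩
  · rw [h, C.mat.1] at h6
    cases u with
    | nil => exact hu rfl
    | cons c' u' =>
      rw [W_fst_cons] at h6
      have h8 := (clean_inj C.cl (by simp at hlen ⊢; omega) hlen h6).2
      have h9 := congrArg List.length h8
      simp only [List.length_cons] at h9
      omega
  · rw [h] at h6
    have h8 : B M a s (d :: u) = B M a s (c :: u) := h6
    have h9 := (clean_inj C.cl (by simpa using hlen) hlen h8).2
    have h10 : d = c := (List.cons.inj h9).1
    apply hm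
    rw [h, h10]
    rfl

/-- moved walks -/
theorem Ctx.moved_walk (C : Ctx M σ τ' a f g L D) {s i : Bool}
    (hun : ∀ w : List Bool, w.length ≤ 2 * Whitehead.mv σ + 1 → ¬ D (B M a s (w ++ [i])))
    (hm : (τ' * σ * swap f g) (W M a s [i]) ≠ W M a s [i]) (m : ℕ)
    (hmle : m ≤ 2 * Whitehead.mv σ + 2) :
    ∃ w : List Bool, w.length = m ∧ ∀ u, u <:+ w →
      (τ' * σ * swap f g) (W M a s (u ++ [i])) ≠ W M a s (u ++ [i]) := by
  induction m with
  | zero =>
    refine ⟨[], rfl, fun u hu => ?_⟩
    rw [List.suffix_nil] at hu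
    subst hu
    exact hm
  | succ m ih =>
    obtain ⟨w, hw, hall⟩ := ih (by omega)
    have h1 := hall w (List.suffix_refl _)
    have h2 := C.moved_M h1
    have hlen := C.len
    have h3 : Unb M a D (M (W M a s (w ++ [i]))).1 := by
      apply C.unb (w := w ++ [i]) (s := s)
      · simp
      · simp; omega
      · exact hun w (by omega)
    obtain ⟨c, hc⟩ := C.moved_nxt h3 h2
    refine ⟨c :: w, by simp [hw], fun u hu => ?_⟩
    rcases List.suffix_cons_iff.mp hu with h | h
    · subst h
      exact hc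
    · exact hall u h

/-- (iii) -/
theorem Ctx.fixed_of_unc (C : Ctx M σ τ' a f g L D) {s i : Bool}
    (hun : ∀ w : List Bool, w.length ≤ 2 * Whitehead.mv σ + 1 → ¬ D (B M a s (w ++ [i]))) :
    (τ' * σ * swap f g) (W M a s [i]) = W M a s [i] := by
  by_contra hm
  set k := Whitehead.mv σ with hk
  obtain ⟨w, hw, hall⟩ := C.moved_walk hun hm (2 * k + 1) (by omega)
  have hlen := C.len
  -- the suffix of length m
  let u : ℕ → List Bool := fun m => w.drop (2 * k + 1 - m)
  have hu : ∀ m, m ≤ 2 * k + 1 → (u m).length = m := by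
    intro m hm
    simp only [u, List.length_drop]
    omega
  have hsuf : ∀ m, u m <:+ w := fun m => List.drop_suffix _ _
  have hcons : ∀ m, m + 1 ≤ 2 * k + 1 → ∃ c, u (m + 1) = c :: u m := by
    intro m hm
    simp only [u]
    have h1 : 2 * k + 1 - m = (2 * k + 1 - (m + 1)) + 1 := by omega
    rw [h1]
    have h2 : 2 * k + 1 - (m + 1) < w.length := by omega
    exact ⟨_, List.drop_eq_getElem_cons h2⟩
  have hunb : ∀ m, m ≤ 2 * k + 1 → Unb M a D (B M a s (u m ++ [i])) := by
    intro m hm
    apply C.unb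
    · simp
    · rw [List.length_append, hu m hm]; simp; omega
    · exact hun _ (by rw [hu m hm]; omega)
  -- one of two consecutive blocks is moved
  have hmoved : ∀ l, l ≤ k → ∃ m, (m = 2 * l ∨ m = 2 * l + 1) ∧
      (σ (B M a s (u m ++ [i]), 0)).1 ≠ B M a s (u m ++ [i]) := by
    intro l hl
    by_contra hcon
    push Not at hcon
    obtain ⟨c, hc⟩ := hcons (2 * l) (by omega)
    have hf1 := hcon (2 * l) (Or.inl rfl)
    have hf2 := hcon (2 * l + 1) (Or.inr rfl)
    have hu2 := hunb (2 * l + 1) (by omega)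
    have hm2 := hall (u (2 * l + 1)) (hsuf _)
    rw [hc] at hf2 hu2 hm2
    refine C.not_both_fixed (s := s) (c := c) (u := u (2 * l) ++ [i]) ?_ (hunb _ (by omega))
      hu2 (by simp) hm2 hf1 hf2
    rw [List.length_cons, List.length_append, hu _ (by omega)]
    simp
    omega
  choose! φ hφ1 hφ2 using hmoved
  have hcard : (range (k + 1)).card ≤
      (univ.filter fun b : Fin n => (σ (b, 0)).1 ≠ b).card := by
    refine card_le_card_of_injOn (fun l => B M a s (u (φ l) ++ [i])) ?_ ?_
    · intro l hl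
      rw [mem_coe, mem_range] at hl
      rw [mem_coe, mem_filter]
      exact ⟨mem_univ _, hφ2 l (by omega)⟩
    · intro l hl l' hl' he
      rw [mem_coe, mem_range] at hl hl'
      have e1 := hφ1 l (by omega)
      have e2 := hφ1 l' (by omega)
      have h1 := (clean_inj C.cl (by
        rw [List.length_append, hu _ (by omega)]; simp; omega) (by
        rw [List.length_append, hu _ (by omega)]; simp; omega) he).2
      have h2 := congrArg List.length h1
      rw [List.length_append, List.length_append, hu _ (by omega), hu _ (by omega)] at h2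
      omega
  rw [card_range] at hcard
  have : (univ.filter fun b : Fin n => (σ (b, 0)).1 ≠ b).card = k := rfl
  omega

/-- (vi) -/
theorem Ctx.two_fixed (C : Ctx M σ τ' a f g L D) {i j : Bool} (hf : f = nxt a i)
    (hg : g = nxt (M a) j) :
    ((τ' * σ * swap f g) g = g ∧ (τ' * σ * swap f g) (nxt a (!i)) = nxt a (!i)) ∨
    ((τ' * σ * swap f g) f = f ∧ (τ' * σ * swap f g) (nxt (M a) (!j)) = nxt (M a) (!j)) := by
  have hWf : ∀ c, W M a false [c] = nxt a c := by
    intro c
    show nxt (M (M a)) c = _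
    rw [C.mat.1]
  have hWt : ∀ c, W M a true [c] = nxt (M a) c := fun c => rfl
  by_cases hcon : (∃ w : List Bool, w.length ≤ 2 * Whitehead.mv σ + 1 ∧
      D (B M a true (w ++ [j]))) ∨ (∃ w : List Bool, w.length ≤ 2 * Whitehead.mv σ + 1 ∧
      D (B M a false (w ++ [!i])))
  · right
    have h1 : ∀ w : List Bool, w.length ≤ 2 * Whitehead.mv σ + 1 →
        ¬ D (B M a false (w ++ [i])) := by
      intro w hw hD
      rcases hcon with ⟨w', hw', hD'⟩ | ⟨w', hw', hD'⟩
      · have := (C.D2 _ _ _ _ _ _ hw hw' hD hD').1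
        simp at this
      · have := (C.D2 _ _ _ _ _ _ hw hw' hD hD').2
        simp at this
    have h2 : ∀ w : List Bool, w.length ≤ 2 * Whitehead.mv σ + 1 →
        ¬ D (B M a true (w ++ [!j])) := by
      intro w hw hD
      rcases hcon with ⟨w', hw', hD'⟩ | ⟨w', hw', hD'⟩
      · have := (C.D2 _ _ _ _ _ _ hw hw' hD hD').2
        simp at this
      · have := (C.D2 _ _ _ _ _ _ hw hw' hD hD').1
        simp at this
    have e1 := C.fixed_of_unc h1
    have e2 := C.fixed_of_unc h2
    rw [hWf] at e1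
    rw [hWt] at e2
    rw [← hf] at e1
    exact ⟨e1, e2⟩
  · left
    push Not at hcon
    have e1 := C.fixed_of_unc (s := true) (i := j) (fun w hw => hcon.1 w hw)
    have e2 := C.fixed_of_unc (s := false) (i := !i) (fun w hw => hcon.2 w hw)
    rw [hWt, ← hg] at e1
    rw [hWf] at e2
    exact ⟨e1, e2⟩

theorem Ctx.blocks_eq (C : Ctx M σ τ' a f g L D) {i j : Bool} (hf : f = nxt a i)
    (hg : g = nxt (M a) j) :
    (τ' g).1 = (τ' (nxt a (!i))).1 ∨ (τ' f).1 = (τ' (nxt (M a) (!j))).1 := by
  have hxy := C.mvat.loopless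
  have key : ∀ p, (τ' * σ * swap f g) p = p → τ' p = σ (swap f g p) := by
    intro p hp
    have : τ' ((τ' * σ * swap f g) p) = σ (swap f g p) := by
      simp only [Perm.mul_apply]
      rw [C.inv]
    rwa [hp] at this
  rcases C.two_fixed hf hg with ⟨h1, h2⟩ | ⟨h1, h2⟩
  · left
    rw [key _ h1, key _ h2, swap_apply_right, swap_apply_of_ne_of_ne]
    · exact (C.bp _ _).mpr (by rw [hf]; rfl)
    · rw [hf]; intro h; have := nxt_inj h; simp at this
    · intro h
      apply hxy
      rw [← C.mvat.g_at, ← h]; rfl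
  · right
    rw [key _ h1, key _ h2, swap_apply_left, swap_apply_of_ne_of_ne]
    · exact (C.bp _ _).mpr (by rw [hg]; rfl)
    · intro h
      apply hxy
      rw [← C.mvat.f_at, ← h]; rfl
    · rw [hg]; intro h; have := nxt_inj h; simp at this

/-- the only edge between the two blocks -/
theorem edge_unique {M : Perm (HE n)} (hM : IsMat M) {L : ℕ} {a : HE n} (hL : 1 ≤ L)
    (h : Clean M L a) {e : HE n} (h1 : e.1 = a.1) (h2 : (M e).1 = (M a).1) : e = a := by
  rcases eq_or_nxt h1 with h3 | ⟨c, h3⟩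
  · exact h3
  · exfalso
    have h4 : B M a false [c] = B M a true [] := by
      show (M (nxt (M (M a)) c)).1 = (M a).1
      rw [hM.1, ← h3, h2]
    have := (clean_inj h (by simpa using hL) (by simp) h4).1
    simp at this

end LocalAux

open LocalAux

theorem local0_proof : Stmt_Local0 := by
  intro n M σ a f g L hM hσ hmv hcl hlen hcomm
  obtain ⟨i, hi⟩ := eq_nxt_of_ne hmv.f_at hmv.f_ne
  obtain ⟨j, hj⟩ := eq_nxt_of_ne hmv.g_at hmv.g_ne
  have C : Ctx M σ 1 a f g L (fun _ => False) :=
    ⟨hM, hσ, hmv, hcl, hlen, by rw [one_mul]; exact hcomm, fun _ => rfl, fun _ _ => rfl,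
      fun _ _ _ _ _ _ _ _ h => h.elim⟩
  rcases C.blocks_eq hi hj with h | h
  · apply hmv.loopless
    rw [hj] at h
    exact h.symm
  · apply hmv.loopless
    rw [hi] at h
    exact h

theorem local_proof : Stmt_Local := by
  intro n M σ a f g a' f' g' L hM hσ hmv hmv' hcl hlen hcomm
  obtain ⟨i, hi⟩ := eq_nxt_of_ne hmv.f_at hmv.f_ne
  obtain ⟨j, hj⟩ := eq_nxt_of_ne hmv.g_at hmv.g_ne
  have hadj : ∀ (e : HE n) (s s' i i' : Bool) (w w' : List Bool), w.length ≤ 2 * mv σ + 1 →
      w'.length ≤ 2 * mv σ + 1 → B M a s (w ++ [i]) = e.1 → B M a s' (w' ++ [i']) = (M e).1 →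
      s = s' ∧ i = i' := by
    intro e s s' i i' w w' hw hw' h1 h2
    have h3 : e.1 = (M (W M a s (w ++ [i]))).1 := h1.symm
    rcases eq_or_nxt h3 with h | ⟨c, h⟩
    · rw [h, hM.1] at h2
      cases w with
      | nil =>
        exfalso
        have h4 : B M a s' (w' ++ [i']) = B M a s [] := by
          rw [h2]
          rfl
        have := (clean_inj hcl (by simp; omega) (by simp) h4).2
        simp at this
      | cons c w0 =>
        have h4 : B M a s' (w' ++ [i']) = B M a s (w0 ++ [i]) := by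
          rw [h2]
          rfl
        have h5 := clean_inj hcl (by simp; omega) (by simp at hw ⊢; omega) h4
        refine ⟨h5.1.symm, ?_⟩
        have := (List.append_inj' h5.2 rfl).2
        simpa using this.symm
    · rw [h] at h2
      have h4 : B M a s' (w' ++ [i']) = B M a s ((c :: w) ++ [i]) := h2
      have h5 := clean_inj hcl (by simp; omega) (by simp; omega) h4
      refine ⟨h5.1.symm, ?_⟩
      have := (List.append_inj' h5.2 rfl).2
      simpa using this.symm
  have C : Ctx M σ (swap f' g') a f g L (fun b => b = a'.1 ∨ b = (M a').1) := by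
    refine ⟨hM, hσ, hmv, hcl, hlen, hcomm, fun p => swap_apply_self _ _ _, ?_, ?_⟩
    · intro p hp
      push Not at hp
      apply swap_apply_of_ne_of_ne
      · intro h; apply hp.1; rw [h, hmv'.f_at]
      · intro h; apply hp.2; rw [h, hmv'.g_at]
    · intro s s' i i' w w' hw hw' h1 h2
      have same : B M a s (w ++ [i]) = B M a s' (w' ++ [i']) → s = s' ∧ i = i' := by
        intro he
        have h5 := clean_inj hcl (by simp; omega) (by simp; omega) he
        refine ⟨h5.1, ?_⟩
        have := (List.append_inj' h5.2 rfl).2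
        simpa using this
      rcases h1 with h1 | h1 <;> rcases h2 with h2 | h2
      · exact same (h1.trans h2.symm)
      · exact hadj a' _ _ _ _ _ _ hw hw' h1 h2
      · exact hadj (M a') _ _ _ _ _ _ hw hw' h1 (by rw [hM.1]; exact h2)
      · exact same (h1.trans h2.symm)
  have hL : 1 ≤ L := by omega
  have hxy := hmv.loopless
  have hxy' := hmv'.loopless
  -- identification of the edge
  have eqa : a'.1 = a.1 → (M a').1 = (M a).1 → a' = a := fun h1 h2 =>
    edge_unique hM hL hcl h1 h2
  have eqMa : a'.1 = (M a).1 → (M a').1 = a.1 → a' = M a := by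
    intro h1 h2
    have : M a' = a := edge_unique hM hL hcl h2 (by rw [hM.1]; exact h1)
    rw [← this, hM.1]
  have f1 : f.1 = a.1 := hmv.f_at
  have g1 : g.1 = (M a).1 := hmv.g_at
  have f'1 : f'.1 = a'.1 := hmv'.f_at
  have g'1 : g'.1 = (M a').1 := hmv'.g_at
  -- third points
  have third_x : ∀ e : HE n, e.1 = a.1 → e ≠ a → e ≠ nxt a (!i) → e = f := by
    intro e h1 h2 h3
    obtain ⟨c, hc⟩ := eq_nxt_of_ne h1 h2
    rw [hc] at h3 ⊢
    rw [hi]
    congr 1
    by_contra h4
    apply h3
    congr 1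
    revert h4; cases c <;> cases i <;> simp
  have third_y : ∀ e : HE n, e.1 = (M a).1 → e ≠ M a → e ≠ nxt (M a) (!j) → e = g := by
    intro e h1 h2 h3
    obtain ⟨c, hc⟩ := eq_nxt_of_ne h1 h2
    rw [hc] at h3 ⊢
    rw [hj]
    congr 1
    by_contra h4
    apply h3
    congr 1
    revert h4; cases c <;> cases j <;> simp
  have hfhat : nxt a (!i) ≠ f := by
    rw [hi]; intro h; have := nxt_inj h; simp at this
  have hghat : nxt (M a) (!j) ≠ g := by
    rw [hj]; intro h; have := nxt_inj h; simp at this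
  have fh1 : (nxt a (!i)).1 = a.1 := rfl
  have gh1 : (nxt (M a) (!j)).1 = (M a).1 := rfl
  have hfg' : f' ≠ g' := by
    intro h; apply hxy'; rw [← f'1, ← g'1, h]
  rcases C.blocks_eq hi hj with h | h
  · set fh := nxt a (!i) with hfh
    by_cases hg1 : g = f'
    · rw [hg1, swap_apply_left] at h
      by_cases hf2 : fh = g'
      · rw [hf2, swap_apply_right] at h
        exact absurd (by rw [← f'1, ← g'1, h]) hxy'
      · have hf3 : fh ≠ f' := by
          intro h3; rw [← hg1] at h3; apply hxy; rw [← g1, ← h3, fh1]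
        rw [swap_apply_of_ne_of_ne hf3 hf2] at h
        have ha' : a' = M a := eqMa (by rw [← f'1, ← hg1, g1]) (by rw [← g'1, h, fh1])
        right
        refine ⟨ha', ⟨fun _ => ?_, fun _ => hg1.symm⟩⟩
        apply third_x
        · exact h
        · intro h4; apply hmv'.g_ne; rw [ha', hM.1]; exact h4
        · exact fun h4 => hf2 h4.symm
    by_cases hg2 : g = g'
    · rw [hg2, swap_apply_right] at h
      by_cases hf2 : fh = f'
      · rw [hf2, swap_apply_left] at h
        exact absurd (by rw [← f'1, ← g'1, h]) hxy'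
      · have hf3 : fh ≠ g' := by
          intro h3; rw [← hg2] at h3; apply hxy; rw [← g1, ← h3, fh1]
        rw [swap_apply_of_ne_of_ne hf2 hf3] at h
        have ha' : a' = a := eqa (by rw [← f'1, h, fh1]) (by rw [← g'1, ← hg2, g1])
        left
        refine ⟨ha', ⟨fun _ => hg2.symm, fun _ => ?_⟩⟩
        apply third_x
        · exact h
        · intro h4; apply hmv'.f_ne; rw [ha']; exact h4
        · exact fun h4 => hf2 h4.symm
    rw [swap_apply_of_ne_of_ne hg1 hg2] at h
    by_cases hf2 : fh = f'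
    · rw [hf2, swap_apply_left] at h
      have ha' : a' = a := eqa (by rw [← f'1, ← hf2, fh1]) (by rw [← g'1, ← h, g1])
      left
      refine ⟨ha', ⟨fun h4 => absurd (hf2.trans h4) hfhat, fun h4 => absurd h4.symm hg2⟩⟩
    by_cases hf3 : fh = g'
    · rw [hf3, swap_apply_right] at h
      have ha' : a' = M a := eqMa (by rw [← f'1, ← h, g1]) (by rw [← g'1, ← hf3, fh1])
      right
      refine ⟨ha', ⟨fun h4 => absurd h4.symm hg1, fun h4 => absurd (hf3.trans h4) hfhat⟩⟩
    rw [swap_apply_of_ne_of_ne hf2 hf3] at h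
    exact absurd (by rw [← g1, h, fh1]) hxy
  · set gh := nxt (M a) (!j) with hgh
    by_cases hf1 : f = f'
    · rw [hf1, swap_apply_left] at h
      by_cases hg2 : gh = g'
      · rw [hg2, swap_apply_right] at h
        exact absurd (by rw [← f'1, ← g'1, h]) hxy'
      · have hg3 : gh ≠ f' := by
          intro h3; rw [← hf1] at h3; apply hxy; rw [← f1, ← h3, gh1]
        rw [swap_apply_of_ne_of_ne hg3 hg2] at h
        have ha' : a' = a := eqa (by rw [← f'1, ← hf1, f1]) (by rw [← g'1, h, gh1])
        left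
        refine ⟨ha', ⟨fun _ => ?_, fun _ => hf1.symm⟩⟩
        apply third_y
        · exact h
        · intro h4; apply hmv'.g_ne; rw [ha']; exact h4
        · exact fun h4 => hg2 h4.symm
    by_cases hf2 : f = g'
    · rw [hf2, swap_apply_right] at h
      by_cases hg2 : gh = f'
      · rw [hg2, swap_apply_left] at h
        exact absurd (by rw [← f'1, ← g'1, h]) hxy'
      · have hg3 : gh ≠ g' := by
          intro h3; rw [← hf2] at h3; apply hxy; rw [← f1, ← h3, gh1]
        rw [swap_apply_of_ne_of_ne hg2 hg3] at h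
        have ha' : a' = M a := eqMa (by rw [← f'1, h, gh1]) (by rw [← g'1, ← hf2, f1])
        right
        refine ⟨ha', ⟨fun _ => hf2.symm, fun _ => ?_⟩⟩
        apply third_y
        · exact h
        · intro h4; apply hmv'.f_ne; rw [ha']; exact h4
        · exact fun h4 => hg2 h4.symm
    rw [swap_apply_of_ne_of_ne hf1 hf2] at h
    by_cases hg2 : gh = f'
    · rw [hg2, swap_apply_left] at h
      have ha' : a' = M a := eqMa (by rw [← f'1, ← hg2, gh1]) (by rw [← g'1, ← h, f1])
      right
      refine ⟨ha', ⟨fun h4 => absurd (hg2.trans h4) hghat, fun h4 => absurd h4.symm hf2⟩⟩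
    by_cases hg3 : gh = g'
    · rw [hg3, swap_apply_right] at h
      have ha' : a' = a := eqa (by rw [← f'1, ← h, f1]) (by rw [← g'1, ← hg3, gh1])
      left
      refine ⟨ha', ⟨fun h4 => absurd h4.symm hf1, fun h4 => absurd (hg3.trans h4) hghat⟩⟩
    rw [swap_apply_of_ne_of_ne hg2 hg3] at h
    exact absurd (by rw [← f1, h, gh1]) hxy

end Pool.Agent.Whitehead
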