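import Pool.Agent.Whitehead.Defs

/-!
# Module Master
-/

set_option autoImplicit false

namespace Pool.Agent.Whitehead.Master

open Equiv Finset

open scoped Nat

theorem theta_count {n : ℕ} (π : Perm (Fin n)) (j : ℕ) :
    ((univ : Finset (Fin n → Perm (Fin 3))).filter fun θ => jj π θ = j).card ≤
      n.choose j * 6 ^ (π.support.card + j) := by
  classical
  let J : (Fin n → Perm (Fin 3)) → Finset (Fin n) :=
    fun θ => univ.filter fun i => π i = i ∧ θ i ≠ 1
  have h := Finset.card_le_mul_card_image_of_maps_to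
    (s := ((univ : Finset (Fin n → Perm (Fin 3))).filter fun θ => jj π θ = j)) (f := J)
    (t := (univ : Finset (Fin n)).powersetCard j) ?_ (6 ^ (π.support.card + j)) ?_
  · rw [Finset.card_powersetCard, Finset.card_univ, Fintype.card_fin, mul_comm] at h
    exact h
  · intro θ hθ
    rw [Finset.mem_filter] at hθ
    rw [Finset.mem_powersetCard]
    exact ⟨Finset.subset_univ _, hθ.2⟩
  · intro I hI
    rw [Finset.mem_powersetCard] at hI
    have h1 : (((univ : Finset (Fin n → Perm (Fin 3))).filter fun θ => jj π θ = j).filter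
        fun θ => J θ = I).card ≤
        (univ : Finset ((π.support ∪ I : Finset (Fin n)) → Perm (Fin 3))).card := by
      refine Finset.card_le_card_of_injOn (fun θ => fun i => θ i)
        (fun _ _ => Finset.mem_coe.2 (Finset.mem_univ _)) ?_
      intro θ hθ θ' hθ' heq
      rw [mem_coe, mem_filter] at hθ hθ'
      funext i
      by_cases hi : i ∈ π.support ∪ I
      · exact congrFun heq ⟨i, hi⟩
      · rw [mem_union, not_or, Perm.mem_support, not_not] at hi
        have a1 : θ i = 1 := by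
          by_contra hne
          exact hi.2 (hθ.2 ▸ (mem_filter.2 ⟨mem_univ _, hi.1, hne⟩))
        have a2 : θ' i = 1 := by
          by_contra hne
          exact hi.2 (hθ'.2 ▸ (mem_filter.2 ⟨mem_univ _, hi.1, hne⟩))
        rw [a1, a2]
    refine h1.trans ?_
    rw [Finset.card_univ, Fintype.card_fun, Fintype.card_perm, Fintype.card_fin, Fintype.card_coe]
    have h6 : (3)! = 6 := rfl
    rw [h6]
    refine Nat.pow_le_pow_right (by norm_num) ?_
    refine (Finset.card_union_le _ _).trans ?_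
    rw [hI.2]

/-- one permutation -/
theorem one_perm {k j t c : ℕ} (ht : t = k + j) (hc : 2 * c ≤ k) :
    √(t : ℝ) ^ (3 * c + j) ≤ (t : ℝ) ^ c * (√√(t : ℝ) ^ k * √(t : ℝ) ^ j) := by
  rcases Nat.eq_zero_or_pos t with h0 | hpos
  · have hk : k = 0 := by omega
    have hj : j = 0 := by omega
    have hc' : c = 0 := by omega
    subst hk hj hc'
    simp
  · have h1 : (1 : ℝ) ≤ t := by exact_mod_cast hpos
    have h2 : (1 : ℝ) ≤ √√(t : ℝ) := by
      rw [Real.one_le_sqrt, Real.one_le_sqrt]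
      exact h1
    have e1 : √(t : ℝ) ^ 2 = t := Real.sq_sqrt (by linarith)
    have e2 : √√(t : ℝ) ^ 2 = √(t : ℝ) := Real.sq_sqrt (Real.sqrt_nonneg _)
    have e3 : √(t : ℝ) ^ (3 * c + j) = (t : ℝ) ^ c * (√√(t : ℝ) ^ (2 * c) * √(t : ℝ) ^ j) := by
      have : 3 * c + j = 2 * c + c + j := by ring
      rw [this, pow_add, pow_add, pow_mul, e1, pow_mul √√(t : ℝ), e2]
      ring
    rw [e3]
    have h3 : √√(t : ℝ) ^ (2 * c) ≤ √√(t : ℝ) ^ k := pow_le_pow_right₀ h2 hc
    gcongr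

/-- sum over the permutations with support of size `k` -/
theorem sum_perm (hCyc : Stmt_Cyc) {n k j t : ℕ} (ht : t = k + j)
    (hc : ∀ π : Perm (Fin n), 2 * cyc π ≤ π.support.card) :
    ∑ π ∈ (univ : Finset (Perm (Fin n))).filter (fun π => π.support.card = k),
      √(t : ℝ) ^ (3 * cyc π + j) ≤
      (n.choose k : ℝ) * (2 * t) ^ k * (√√(t : ℝ) ^ k * √(t : ℝ) ^ j) := by
  have h1 : ∑ π ∈ (univ : Finset (Perm (Fin n))).filter (fun π => π.support.card = k),
      √(t : ℝ) ^ (3 * cyc π + j) ≤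
      ∑ π ∈ (univ : Finset (Perm (Fin n))).filter (fun π => π.support.card = k),
        (t : ℝ) ^ cyc π * (√√(t : ℝ) ^ k * √(t : ℝ) ^ j) := by
    refine Finset.sum_le_sum fun π hπ => ?_
    rw [Finset.mem_filter] at hπ
    exact one_perm ht (hπ.2 ▸ hc π)
  refine h1.trans ?_
  rw [← Finset.sum_mul]
  have h2 : (∑ π ∈ (univ : Finset (Perm (Fin n))).filter (fun π => π.support.card = k),
      (t : ℝ) ^ cyc π) ≤ (n.choose k : ℝ) * (t + k) ^ k := by
    have := hCyc n k t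
    exact_mod_cast this
  have h3 : ((t : ℝ) + k) ^ k ≤ (2 * t) ^ k := by
    have : (k : ℝ) ≤ t := by
      rw [ht]; push_cast
      have : (0 : ℝ) ≤ j := Nat.cast_nonneg _
      linarith
    have h0 : (0 : ℝ) ≤ k := Nat.cast_nonneg _
    exact pow_le_pow_left₀ (by linarith) (by linarith) _
  gcongr
  exact h2.trans (by gcongr)

/-- numerical estimate -/
theorem numeric {n k j t : ℕ} (ht : t = k + j) (htn : t ≤ n) (hn : 1 ≤ n) {A : ℝ} (hA : 1 ≤ A) :
    A ^ t * ((n.choose j : ℝ) * 6 ^ t) *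
      ((n.choose k : ℝ) * (2 * t) ^ k * (√√(t : ℝ) ^ k * √(t : ℝ) ^ j)) /
      √(n : ℝ) ^ (3 * k + 2 * j) ≤
    (12 * A * (Real.exp 1) ^ 2 / √√(n : ℝ)) ^ k *
      ((12 * A * (Real.exp 1) ^ 2) ^ j / √(j ! : ℝ)) := by
  have hn' : (0 : ℝ) < n := by exact_mod_cast hn
  have ha : 0 < √(n : ℝ) := Real.sqrt_pos.2 hn'
  have hb : 0 < √√(n : ℝ) := Real.sqrt_pos.2 ha
  set a := √(n : ℝ) with ha_def
  set b := √a with hb_def
  have ha2 : a ^ 2 = n := Real.sq_sqrt hn'.le
  have hb2 : b ^ 2 = a := Real.sq_sqrt ha.le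
  have ht0 : (0 : ℝ) ≤ t := Nat.cast_nonneg _
  have hden : a ^ (3 * k + 2 * j) = (n : ℝ) ^ k * (n : ℝ) ^ j * (b ^ k * b ^ k) := by
    have : 3 * k + 2 * j = 2 * k + 2 * j + k := by ring
    rw [this, pow_add, pow_add, pow_mul, ha2, pow_mul, ha2, ← mul_pow, ← sq, hb2]
  have hfk : (0 : ℝ) < (k ! : ℝ) := by exact_mod_cast Nat.factorial_pos k
  have hfj : (0 : ℝ) < (j ! : ℝ) := by exact_mod_cast Nat.factorial_pos j
  set r := √(j ! : ℝ) with hr_def
  have hr : 0 < r := Real.sqrt_pos.2 hfj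
  have hr2 : r ^ 2 = (j ! : ℝ) := Real.sq_sqrt hfj.le
  -- choose bounds
  have h1 : (n.choose j : ℝ) ≤ (n : ℝ) ^ j / (j ! : ℝ) := Nat.choose_le_pow_div j n
  have h2 : (n.choose k : ℝ) ≤ (n : ℝ) ^ k / (k ! : ℝ) := Nat.choose_le_pow_div k n
  -- t^k / k!
  have h3 : (t : ℝ) ^ k / (k ! : ℝ) ≤ Real.exp t := Real.pow_div_factorial_le_exp t ht0 k
  -- sqrt t ^ j / j!
  have h4 : √(t : ℝ) ^ j / (j ! : ℝ) ≤ Real.exp t / r := by
    have h5 : (√(t : ℝ) ^ j / r) ^ 2 ≤ (Real.exp t) ^ 2 := by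
      rw [div_pow, ← pow_mul, mul_comm j 2, pow_mul, Real.sq_sqrt ht0, hr2]
      refine (Real.pow_div_factorial_le_exp t ht0 j).trans ?_
      have : 1 ≤ Real.exp t := Real.one_le_exp ht0
      nlinarith
    have h6 : √(t : ℝ) ^ j / r ≤ Real.exp t :=
      (pow_le_pow_iff_left₀ (by positivity) (Real.exp_pos _).le (by norm_num)).1 h5
    rw [← hr2, sq, ← div_div]
    gcongr
  have h7 : √√(t : ℝ) ≤ b := by
    rw [hb_def, ha_def]
    exact Real.sqrt_le_sqrt (Real.sqrt_le_sqrt (by exact_mod_cast htn))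
  have hexp : Real.exp t = Real.exp 1 ^ k * Real.exp 1 ^ j := by
    rw [← pow_add, ← ht, ← Real.exp_nat_mul, mul_one]
  rw [hden]
  have hA0 : 0 < A := by linarith
  calc A ^ t * ((n.choose j : ℝ) * 6 ^ t) *
      ((n.choose k : ℝ) * (2 * t) ^ k * (√√(t : ℝ) ^ k * √(t : ℝ) ^ j)) /
      ((n : ℝ) ^ k * (n : ℝ) ^ j * (b ^ k * b ^ k))
      ≤ A ^ t * (((n : ℝ) ^ j / (j ! : ℝ)) * 6 ^ t) *
      (((n : ℝ) ^ k / (k ! : ℝ)) * (2 * t) ^ k * (b ^ k * √(t : ℝ) ^ j)) /
      ((n : ℝ) ^ k * (n : ℝ) ^ j * (b ^ k * b ^ k)) := by gcongr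
    _ = (6 * A) ^ t * 2 ^ k * ((t : ℝ) ^ k / (k ! : ℝ)) * (√(t : ℝ) ^ j / (j ! : ℝ)) / b ^ k := by
        have hnk : (n : ℝ) ^ k ≠ 0 := by positivity
        have hnj : (n : ℝ) ^ j ≠ 0 := by positivity
        have hbk : b ^ k ≠ 0 := by positivity
        rw [mul_pow, mul_pow]
        field_simp
    _ ≤ (6 * A) ^ t * 2 ^ k * Real.exp t * (Real.exp t / r) / b ^ k := by gcongr
    _ = (12 * A * (Real.exp 1) ^ 2 / b) ^ k * ((6 * A * (Real.exp 1) ^ 2) ^ j / r) := by
        rw [hexp, ht, pow_add]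
        have e12 : (12 : ℝ) = 6 * 2 := by norm_num
        rw [e12]
        simp only [mul_pow, div_pow]
        field_simp
        ring
    _ ≤ _ := by
        gcongr
        norm_num

theorem half_pow (D : ℝ) (hD : 0 ≤ D) (j : ℕ) :
    D ^ j / √(j ! : ℝ) ≤ Real.exp (2 * D ^ 2) * (1 / 2) ^ j := by
  have hfj : (0 : ℝ) < (j ! : ℝ) := by exact_mod_cast Nat.factorial_pos j
  have hr : 0 < √(j ! : ℝ) := Real.sqrt_pos.2 hfj
  have h1 : ((2 * D) ^ j / √(j ! : ℝ)) ^ 2 ≤ (Real.exp (2 * D ^ 2)) ^ 2 := by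
    rw [div_pow, ← pow_mul, mul_comm j 2, pow_mul, Real.sq_sqrt hfj.le, ← Real.exp_nat_mul]
    refine (Real.pow_div_factorial_le_exp _ (by positivity) j).trans (le_of_eq ?_)
    congr 1
    push_cast
    ring
  have h2 : (2 * D) ^ j / √(j ! : ℝ) ≤ Real.exp (2 * D ^ 2) :=
    (pow_le_pow_iff_left₀ (by positivity) (Real.exp_pos _).le (by norm_num)).1 h1
  have h3 : D ^ j / √(j ! : ℝ) = (2 * D) ^ j / √(j ! : ℝ) * (1 / 2) ^ j := by
    rw [mul_pow, one_div, inv_pow]
    field_simp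
  rw [h3]
  gcongr

/-- the part of the sum with given `(k, j)` -/
theorem part (hCyc : Stmt_Cyc) (hSupp : Stmt_Supp) {n : ℕ} (hn : 1 ≤ n) {A : ℝ} (hA : 1 ≤ A)
    (k j : ℕ) :
    ∑ x ∈ (univ : Finset (Perm (Fin n) × (Fin n → Perm (Fin 3)))).filter
      (fun x => x.1.support.card = k ∧ jj x.1 x.2 = j),
    A ^ (x.1.support.card + jj x.1 x.2) *
      √(x.1.support.card + jj x.1 x.2 : ℝ) ^ (3 * cyc x.1 + jj x.1 x.2) /
      √(n : ℝ) ^ (3 * x.1.support.card + 2 * jj x.1 x.2) ≤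
    (12 * A * (Real.exp 1) ^ 2 / √√(n : ℝ)) ^ k *
      (Real.exp (2 * (12 * A * (Real.exp 1) ^ 2) ^ 2) * (1 / 2) ^ j) := by
  classical
  have hA0 : 0 < A := by linarith
  have hn' : (0 : ℝ) < n := by exact_mod_cast hn
  have ha : 0 < √(n : ℝ) := Real.sqrt_pos.2 hn'
  have hb : 0 < √√(n : ℝ) := Real.sqrt_pos.2 ha
  have hD : 0 ≤ 12 * A * (Real.exp 1) ^ 2 := by positivity
  by_cases hkj : k + j ≤ n
  swap
  · -- empty sum
    have hempty : (univ : Finset (Perm (Fin n) × (Fin n → Perm (Fin 3)))).filter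
        (fun x => x.1.support.card = k ∧ jj x.1 x.2 = j) = ∅ := by
      rw [Finset.filter_eq_empty_iff]
      rintro ⟨π, θ⟩ - ⟨h1, h2⟩
      have := (hSupp n π θ).2.2.1
      simp only at h1 h2
      omega
    rw [hempty, Finset.sum_empty]
    positivity
  set t := k + j with ht
  have hstep : ∑ x ∈ (univ : Finset (Perm (Fin n) × (Fin n → Perm (Fin 3)))).filter
      (fun x => x.1.support.card = k ∧ jj x.1 x.2 = j),
    A ^ (x.1.support.card + jj x.1 x.2) *
      √(x.1.support.card + jj x.1 x.2 : ℝ) ^ (3 * cyc x.1 + jj x.1 x.2) /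
      √(n : ℝ) ^ (3 * x.1.support.card + 2 * jj x.1 x.2) ≤
      ∑ π ∈ (univ : Finset (Perm (Fin n))).filter (fun π => π.support.card = k),
        A ^ t * ((n.choose j : ℝ) * 6 ^ t) * √(t : ℝ) ^ (3 * cyc π + j) /
          √(n : ℝ) ^ (3 * k + 2 * j) := by
    have e1 : ∑ x ∈ (univ : Finset (Perm (Fin n) × (Fin n → Perm (Fin 3)))).filter
        (fun x => x.1.support.card = k ∧ jj x.1 x.2 = j),
      A ^ (x.1.support.card + jj x.1 x.2) *
        √(x.1.support.card + jj x.1 x.2 : ℝ) ^ (3 * cyc x.1 + jj x.1 x.2) /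
        √(n : ℝ) ^ (3 * x.1.support.card + 2 * jj x.1 x.2) =
        ∑ π ∈ (univ : Finset (Perm (Fin n))).filter (fun π => π.support.card = k),
          ∑ θ ∈ (univ : Finset (Fin n → Perm (Fin 3))).filter (fun θ => jj π θ = j),
            A ^ t * √(t : ℝ) ^ (3 * cyc π + j) / √(n : ℝ) ^ (3 * k + 2 * j) := by
      rw [Finset.sum_sigma']
      refine Finset.sum_bij' (fun x _ => ⟨x.1, x.2⟩) (fun y _ => (y.1, y.2)) ?_ ?_ ?_ ?_ ?_
      · intro x hx
        simp only [Finset.mem_filter, Finset.mem_univ, true_and] at hx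
        simp only [Finset.mem_sigma, Finset.mem_filter, Finset.mem_univ, true_and]
        exact hx
      · intro y hy
        simp only [Finset.mem_sigma, Finset.mem_filter, Finset.mem_univ, true_and] at hy
        simp only [Finset.mem_filter, Finset.mem_univ, true_and]
        exact hy
      · intro x _; rfl
      · intro y _; rfl
      · intro x hx
        simp only [Finset.mem_filter, Finset.mem_univ, true_and] at hx
        rw [hx.1, hx.2, ht]
        push_cast
        rfl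
    rw [e1]
    refine Finset.sum_le_sum fun π hπ => ?_
    rw [Finset.mem_filter] at hπ
    rw [Finset.sum_const, nsmul_eq_mul]
    have h1 : ((((univ : Finset (Fin n → Perm (Fin 3))).filter (fun θ => jj π θ = j)).card : ℕ) : ℝ)
        ≤ (n.choose j : ℝ) * 6 ^ t := by
      have := theta_count π j
      rw [hπ.2, ← ht] at this
      exact_mod_cast this
    have h2 : 0 ≤ A ^ t * √(t : ℝ) ^ (3 * cyc π + j) / √(n : ℝ) ^ (3 * k + 2 * j) := by positivity
    refine (mul_le_mul_of_nonneg_right h1 h2).trans (le_of_eq ?_)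
    ring
  refine hstep.trans ?_
  have hc : ∀ π : Perm (Fin n), 2 * cyc π ≤ π.support.card := fun π => (hSupp n π 1).2.2.2
  have h3 := sum_perm hCyc ht hc
  rw [← Finset.sum_div, ← Finset.mul_sum]
  have h4 : A ^ t * ((n.choose j : ℝ) * 6 ^ t) *
      ∑ π ∈ (univ : Finset (Perm (Fin n))).filter (fun π => π.support.card = k),
        √(t : ℝ) ^ (3 * cyc π + j) ≤ A ^ t * ((n.choose j : ℝ) * 6 ^ t) *
      ((n.choose k : ℝ) * (2 * t) ^ k * (√√(t : ℝ) ^ k * √(t : ℝ) ^ j)) := by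
    gcongr
  refine (div_le_div_of_nonneg_right h4 (by positivity)).trans ?_
  refine (numeric ht hkj hn hA).trans ?_
  have h5 := half_pow _ hD j
  gcongr

theorem geo (q : ℝ) (hq0 : 0 ≤ q) (hq : q ≤ 1 / 2) (m : ℕ) :
    ∑ i ∈ range m, q ^ i ≤ 2 := by
  refine le_trans (Finset.sum_le_sum fun i _ => pow_le_pow_left₀ hq0 hq i) ?_
  exact sum_geometric_two_le m

end Pool.Agent.Whitehead.Master

namespace Pool.Agent.Whitehead

open Equiv Finset

open scoped Nat

theorem master_proof (hCyc : Stmt_Cyc) (hSupp : Stmt_Supp) : Stmt_Master := by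
  intro A hA
  classical
  set D : ℝ := 12 * A * (Real.exp 1) ^ 2 with hD_def
  set E : ℝ := Real.exp (2 * D ^ 2) with hE_def
  have hD : 0 < D := by positivity
  have hE : 0 < E := Real.exp_pos _
  obtain ⟨n₀, hn₀⟩ := exists_nat_ge ((2 * D) ^ 4 + 1)
  refine ⟨4 * E + D, n₀, by positivity, ?_⟩
  intro n hn k₀
  have hnR : (2 * D) ^ 4 + 1 ≤ (n : ℝ) := hn₀.trans (by exact_mod_cast hn)
  have hn1 : 1 ≤ n := by
    have : (1 : ℝ) ≤ n := by
      have : 0 ≤ (2 * D) ^ 4 := by positivity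
      linarith
    exact_mod_cast this
  have hn' : (0 : ℝ) < n := by exact_mod_cast hn1
  have ha : 0 < √(n : ℝ) := Real.sqrt_pos.2 hn'
  have hb : 0 < √√(n : ℝ) := Real.sqrt_pos.2 ha
  have hb2 : 2 * D ≤ √√(n : ℝ) := by
    apply Real.le_sqrt_of_sq_le
    apply Real.le_sqrt_of_sq_le
    rw [← pow_mul]
    norm_num
    linarith
  set b := √√(n : ℝ) with hb_def
  have hq : D / b ≤ 1 / 2 := by
    rw [div_le_div_iff₀ hb (by norm_num)]
    linarith
  have hq0 : 0 ≤ D / b := by positivity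
  set F : Perm (Fin n) × (Fin n → Perm (Fin 3)) → ℝ := fun x =>
    A ^ (x.1.support.card + jj x.1 x.2) *
      √(x.1.support.card + jj x.1 x.2 : ℝ) ^ (3 * cyc x.1 + jj x.1 x.2) /
      √(n : ℝ) ^ (3 * x.1.support.card + 2 * jj x.1 x.2) with hF
  have hfib : ∑ x ∈ (univ : Finset (Perm (Fin n) × (Fin n → Perm (Fin 3)))).filter
      (fun x => k₀ ≤ x.1.support.card), F x =
      ∑ z ∈ range (n + 1) ×ˢ range (n + 1),
        ∑ x ∈ ((univ : Finset (Perm (Fin n) × (Fin n → Perm (Fin 3)))).filter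
          (fun x => k₀ ≤ x.1.support.card)).filter
            (fun x => (x.1.support.card - k₀, jj x.1 x.2) = z), F x := by
    rw [Finset.sum_fiberwise_of_maps_to]
    rintro ⟨π, θ⟩ -
    have := (hSupp n π θ).2.2.1
    rw [Finset.mem_product, Finset.mem_range, Finset.mem_range]
    constructor <;> simp only <;> omega
  rw [hfib]
  have hbound : ∀ z ∈ range (n + 1) ×ˢ range (n + 1),
      ∑ x ∈ ((univ : Finset (Perm (Fin n) × (Fin n → Perm (Fin 3)))).filter
          (fun x => k₀ ≤ x.1.support.card)).filter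
            (fun x => (x.1.support.card - k₀, jj x.1 x.2) = z), F x ≤
      ((D / b) ^ k₀ * E) * ((D / b) ^ z.1 * (1 / 2) ^ z.2) := by
    rintro ⟨i, j⟩ -
    have h1 : ((univ : Finset (Perm (Fin n) × (Fin n → Perm (Fin 3)))).filter
          (fun x => k₀ ≤ x.1.support.card)).filter
            (fun x => (x.1.support.card - k₀, jj x.1 x.2) = (i, j)) =
        (univ : Finset (Perm (Fin n) × (Fin n → Perm (Fin 3)))).filter
          (fun x => x.1.support.card = k₀ + i ∧ jj x.1 x.2 = j) := by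
      rw [Finset.filter_filter]
      apply Finset.filter_congr
      rintro ⟨π, θ⟩ -
      rw [Prod.mk.injEq]
      constructor
      · rintro ⟨h1, h2, h3⟩
        exact ⟨by omega, h3⟩
      · rintro ⟨h1, h2⟩
        exact ⟨by omega, by omega, h2⟩
    rw [h1]
    refine (Master.part hCyc hSupp hn1 hA (k₀ + i) j).trans (le_of_eq ?_)
    rw [pow_add]
    ring
  refine (Finset.sum_le_sum hbound).trans ?_
  rw [← Finset.mul_sum, Finset.sum_product]
  have h1 : ∑ i ∈ range (n + 1), ∑ j ∈ range (n + 1), (D / b) ^ (i, j).1 * (1 / 2 : ℝ) ^ (i, j).2 =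
      (∑ i ∈ range (n + 1), (D / b) ^ i) * ∑ j ∈ range (n + 1), (1 / 2 : ℝ) ^ j := by
    rw [Finset.sum_mul_sum]
  rw [h1]
  have h2 := Master.geo (D / b) hq0 hq (n + 1)
  have h3 := Master.geo (1 / 2) (by norm_num) le_rfl (n + 1)
  have h4 : 0 ≤ ∑ j ∈ range (n + 1), (1 / 2 : ℝ) ^ j :=
    Finset.sum_nonneg (fun _ _ => by positivity)
  calc (D / b) ^ k₀ * E * ((∑ i ∈ range (n + 1), (D / b) ^ i) * ∑ j ∈ range (n + 1), (1 / 2 : ℝ) ^ j)
      ≤ (D / b) ^ k₀ * E * (2 * 2) := by gcongr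
    _ = (4 * E) * (D / b) ^ k₀ := by ring
    _ ≤ (4 * E + D) * ((4 * E + D) / b) ^ k₀ := by
        have h5 : 4 * E ≤ 4 * E + D := by linarith
        have h6 : D ≤ 4 * E + D := by linarith
        gcongr

end Pool.Agent.Whitehead
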