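import Pool.Agent.Whitehead.Defs

set_option autoImplicit false

namespace Pool.Agent.Whitehead

open Equiv Finset

open scoped Nat

theorem isMat_iff_cycleType {α : Type} [Fintype α] [DecidableEq α] (M : Perm α) :
    IsMat M ↔ (2 * M.cycleType.card = Fintype.card α ∧
      M.cycleType = Multiset.replicate M.cycleType.card 2) := by
  constructor
  · rintro ⟨h1, h2⟩
    have hp : M ^ 2 = 1 := by
      ext x
      rw [pow_two, Perm.mul_apply, h1]; rfl
    have h3 : ∀ c ∈ M.cycleType, c = 2 := (Perm.pow_prime_eq_one_iff (hp := ⟨Nat.prime_two⟩)).mp hp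
    have h4 : M.cycleType = Multiset.replicate M.cycleType.card 2 :=
      Multiset.eq_replicate_card.mpr h3
    refine ⟨?_, h4⟩
    have h5 : M.support = univ := by
      ext x; simp [h2]
    have h6 := M.sum_cycleType
    rw [h5, h4, Multiset.sum_replicate, smul_eq_mul, card_univ] at h6
    omega
  · rintro ⟨h1, h2⟩
    have h3 : ∀ c ∈ M.cycleType, c = 2 := Multiset.eq_replicate_card.mp h2
    have hp : M ^ 2 = 1 := (Perm.pow_prime_eq_one_iff (hp := ⟨Nat.prime_two⟩)).mpr h3
    refine ⟨fun x => ?_, fun x => ?_⟩
    · have := congrArg (fun z : Perm α => z x) hp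
      simpa [pow_two] using this
    · have h6 := M.sum_cycleType
      rw [h2, Multiset.sum_replicate, smul_eq_mul] at h6
      have h7 : M.support = univ := by
        rw [← card_eq_iff_eq_univ]
        omega
      have : x ∈ M.support := by rw [h7]; exact mem_univ x
      exact Perm.mem_support.mp this

theorem Match_proof : Stmt_Match := by
  classical
  intro α _ _
  constructor
  · intro hev
    obtain ⟨m, hm⟩ := hev
    have hset : fixMat (1 : Perm α) =
        univ.filter (fun M : Perm α => M.cycleType = Multiset.replicate m 2) := by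
      ext M
      rw [fixMat, mem_filter, mem_filter]
      simp only [mem_univ, true_and, one_mul, mul_one, and_true]
      rw [isMat_iff_cycleType]
      constructor
      · rintro ⟨h1, h2⟩
        have : M.cycleType.card = m := by omega
        rwa [this] at h2
      · intro h
        rw [h, Multiset.card_replicate]
        exact ⟨by omega, rfl⟩
    rw [hset, Perm.card_of_cycleType]
    have h1 : (Multiset.replicate m 2).sum ≤ Fintype.card α ∧
        ∀ a ∈ Multiset.replicate m 2, 2 ≤ a := by
      refine ⟨?_, fun a ha => ?_⟩
      · rw [Multiset.sum_replicate, smul_eq_mul]; omega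
      · rw [Multiset.eq_of_mem_replicate ha]
    rw [if_pos h1, Multiset.sum_replicate, smul_eq_mul, Multiset.prod_replicate]
    have h2 : Fintype.card α - m * 2 = 0 := by omega
    rw [h2, Nat.factorial_zero, one_mul]
    have h3 : ∏ n ∈ (Multiset.replicate m 2).toFinset,
        ((Multiset.replicate m 2).count n)! = m ! := by
      rcases Nat.eq_zero_or_pos m with h0 | h0
      · subst h0; simp
      · rw [Multiset.toFinset_replicate, if_neg h0.ne', prod_singleton,
          Multiset.count_replicate_self]
    rw [h3]
    rcases Nat.eq_zero_or_pos m with h0 | h0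
    · subst h0
      have : Fintype.card α = 0 := by omega
      rw [this]; simp
    · have h4 : Fintype.card α = (2 * (m - 1) + 1) + 1 := by omega
      have h5 : Fintype.card α - 1 = 2 * (m - 1) + 1 := by omega
      rw [h5]
      have h6 : (Fintype.card α)! = 2 ^ m * m ! * (2 * (m - 1) + 1)‼ := by
        rw [h4, Nat.factorial_eq_mul_doubleFactorial]
        congr 1
        have h7 : 2 * (m - 1) + 1 + 1 = 2 * m := by omega
        rw [h7, Nat.doubleFactorial_two_mul]
      rw [h6]
      exact Nat.mul_div_cancel_left _ (by positivity)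
  · intro hodd
    rw [card_eq_zero, eq_empty_iff_forall_notMem]
    intro M hM
    rw [fixMat, mem_filter, isMat_iff_cycleType] at hM
    exact hodd ⟨M.cycleType.card, by omega⟩

theorem Even_proof : Stmt_Even := by
  classical
  intro α _ _ ρ hne
  obtain ⟨M, hM⟩ := hne
  rw [fixMat, mem_filter] at hM
  obtain ⟨_, ⟨h1, h2⟩, h3⟩ := hM
  have hclosed : ∀ x, ρ x ≠ x ↔ ρ (M x) ≠ M x := by
    intro x
    have e : ρ (M x) = M (ρ x) := by
      have := congrArg (fun z : Perm α => z x) h3
      simpa using this
    rw [e, not_iff_not]
    exact M.apply_eq_iff_eq.symm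
  -- restrict M to the support
  let M' : Perm {x // ρ x ≠ x} := M.subtypePerm (fun x => (hclosed x).symm)
  have hM' : IsMat M' := by
    refine ⟨fun x => ?_, fun x hx => ?_⟩
    · apply Subtype.ext
      exact h1 _
    · exact h2 x.1 (congrArg Subtype.val hx)
  have := (isMat_iff_cycleType M').mp hM'
  have h4 : Fintype.card {x // ρ x ≠ x} = ρ.support.card := by
    rw [Fintype.card_subtype]
    rfl
  rw [← h4, ← this.1]
  exact even_two_mul _

end Pool.Agent.Whitehead
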