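import Pool.Agent.Whitehead.Defs

set_option autoImplicit false

namespace Pool.Agent.Whitehead

open Equiv Finset

theorem MoveConn_proof : Stmt_MoveConn := by
  intro n M a f g hM hc hmv
  obtain ⟨h1, h2, h3, h4, h5⟩ := hmv
  set τ : Perm (HE n) := swap f g with hτ
  have haf : a ≠ f := h2.symm
  have hag : a ≠ g := by
    intro h; rw [← h] at h5; exact h1 h5
  have hMaf : M a ≠ f := by
    intro h; rw [← h] at h3; exact h1 h3.symm
  have hMag : M a ≠ g := h4.symm
  have hτa : τ a = a := swap_apply_of_ne_of_ne haf hag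
  have hτMa : τ (M a) = M a := swap_apply_of_ne_of_ne hMaf hMag
  have hxy : Relation.ReflTransGen (fun u v => ∃ p : Fin 3, ((τ * M * τ) (u, p)).1 = v)
      a.1 (M a).1 := by
    refine Relation.ReflTransGen.single ⟨a.2, ?_⟩
    show (τ (M (τ a))).1 = _
    rw [hτa, hτMa]
  have hyx : Relation.ReflTransGen (fun u v => ∃ p : Fin 3, ((τ * M * τ) (u, p)).1 = v)
      (M a).1 a.1 := by
    refine Relation.ReflTransGen.single ⟨(M a).2, ?_⟩
    show (τ (M (τ (M a)))).1 = _
    rw [hτMa, hM.1, hτa]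
  have hE : ∀ h : HE n, Relation.ReflTransGen
      (fun u v => ∃ p : Fin 3, ((τ * M * τ) (u, p)).1 = v) h.1 (τ h).1 := by
    intro h
    by_cases hf : h = f
    · rw [hf, hτ, swap_apply_left, h3, h5]; exact hxy
    by_cases hg : h = g
    · rw [hg, hτ, swap_apply_right, h3, h5]; exact hyx
    rw [hτ, swap_apply_of_ne_of_ne hf hg]
  intro u v
  refine Relation.reflTransGen_closed ?_ u v (hc u v)
  rintro u v ⟨p, hp⟩
  have e1 := hE (u, p)
  have e2 : Relation.ReflTransGen (fun u v => ∃ p : Fin 3, ((τ * M * τ) (u, p)).1 = v)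
      (τ (u, p)).1 (τ (M (u, p))).1 := by
    refine Relation.ReflTransGen.single ⟨(τ (u, p)).2, ?_⟩
    show (τ (M (τ (τ (u, p))))).1 = _
    rw [hτ, swap_apply_self]
  have e3 : Relation.ReflTransGen (fun u v => ∃ p : Fin 3, ((τ * M * τ) (u, p)).1 = v)
      (τ (M (u, p))).1 (M (u, p)).1 := by
    have := hE (τ (M (u, p)))
    rwa [hτ, swap_apply_self] at this
  rw [← hp]
  exact (e1.trans e2).trans e3

end Pool.Agent.Whitehead
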