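import Pool.Agent.Whitehead.Defs

set_option autoImplicit false

namespace Pool.Agent.Whitehead

open Equiv Finset

theorem IsMat.conj {α : Type} {M : Perm α} (hM : IsMat M) (σ : Perm α) :
    IsMat (σ * M * σ⁻¹) := by
  constructor
  · intro x
    simp [Perm.mul_apply, hM.1]
  · intro x h
    simp only [Perm.mul_apply] at h
    have h2 : M (σ⁻¹ x) = σ⁻¹ x := by
      apply σ.injective
      rw [h]
      simp
    exact hM.2 _ h2

theorem Conn.conj {n : ℕ} {M σ : Perm (HE n)} (hM : Conn M) (hσ : BP σ) :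
    Conn (σ * M * σ⁻¹) := by
  set b : Fin n → Fin n := fun u => (σ (u, 0)).1 with hb
  have hb1 : ∀ x : HE n, (σ x).1 = b x.1 := fun x => (hσ x (x.1, 0)).2 rfl
  have hb2 : ∀ v, ∃ u, b u = v := by
    intro v
    refine ⟨(σ⁻¹ (v, 0)).1, ?_⟩
    rw [← hb1]
    simp
  intro u v
  obtain ⟨u, rfl⟩ := hb2 u
  obtain ⟨v, rfl⟩ := hb2 v
  refine Relation.ReflTransGen.lift b (?_) u v (hM u v)
  rintro x y ⟨p, hp⟩
  refine ⟨(σ (x, p)).2, ?_⟩
  have h : (b x, (σ (x, p)).2) = σ (x, p) := Prod.ext (hb1 (x, p)).symm rfl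
  rw [h]
  rw [Perm.mul_apply, Perm.mul_apply]
  have h2 : σ⁻¹ (σ (x, p)) = (x, p) := by simp
  rw [h2, hb1, hp]

/-- conjugation of a cubic graph by a block preserving permutation -/
def cgConj {n : ℕ} (σ : Perm (HE n)) (hσ : BP σ) (M : CG n) : CG n :=
  ⟨σ * M.1 * σ⁻¹, M.2.1.conj σ, M.2.2.conj hσ⟩

theorem orb_proof : Stmt_Orb := by
  classical
  intro n F _ _
  have key : ∀ X : VB n, ∑ M ∈ univ.filter (fun M : CG n => Quotient.mk (bSetoid n) M = X),
      (stab M.1).card = (bpSet n).card := by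
    intro X
    obtain ⟨M₀, hM₀⟩ := Quotient.exists_rep X
    subst hM₀
    rw [Finset.card_eq_sum_card_fiberwise (s := bpSet n)
      (t := univ.filter (fun M : CG n => Quotient.mk (bSetoid n) M = Quotient.mk (bSetoid n) M₀))
      (f := fun σ => if h : BP σ then cgConj σ h M₀ else M₀)]
    · apply Finset.sum_congr rfl
      intro M hM
      have hM1 : (bSetoid n).r M₀ M := Quotient.exact (mem_filter.1 hM).2.symm
      obtain ⟨τ, hτ, h⟩ := hM1
      -- `τ M₀ = M τ`
      refine Finset.card_nbij' (fun s => s * τ) (fun s => s * τ⁻¹) ?_ ?_ ?_ ?_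
      · intro s hs
        simp only [stab, bpSet, coe_filter, mem_filter, mem_univ, true_and, Set.mem_ofPred_eq]
          at hs ⊢
        refine ⟨hs.1.mul hτ, ?_⟩
        rw [dif_pos (hs.1.mul hτ)]
        apply Subtype.ext
        show s * τ * M₀.1 * (s * τ)⁻¹ = M.1
        rw [mul_inv_eq_iff_eq_mul]
        calc s * τ * M₀.1 = s * (τ * M₀.1) := mul_assoc _ _ _
          _ = s * (M.1 * τ) := by rw [h]
          _ = (s * M.1) * τ := (mul_assoc _ _ _).symm
          _ = (M.1 * s) * τ := by rw [hs.2]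
          _ = M.1 * (s * τ) := mul_assoc _ _ _
      · intro s hs
        simp only [stab, bpSet, coe_filter, mem_filter, mem_univ, true_and, Set.mem_ofPred_eq]
          at hs ⊢
        obtain ⟨h1, h2⟩ := hs
        rw [dif_pos h1] at h2
        have h3 : s * M₀.1 * s⁻¹ = M.1 := congrArg Subtype.val h2
        refine ⟨h1.mul hτ.inv, ?_⟩
        have h4 : τ⁻¹ * M.1 = M₀.1 * τ⁻¹ := by
          rw [inv_mul_eq_iff_eq_mul, ← mul_assoc, h, mul_assoc, mul_inv_cancel, mul_one]
        rw [mul_assoc, h4, ← h3]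
        group
      · intro s _
        simp
      · intro s _
        simp
    · intro σ hσ
      simp only [bpSet, coe_filter, mem_univ, true_and, Set.mem_ofPred_eq] at hσ
      simp only [coe_filter, mem_univ, true_and, Set.mem_ofPred_eq]
      rw [dif_pos hσ]
      apply Quotient.sound
      show BIso _ _
      apply (BIso.equivalence n).symm
      refine ⟨σ, hσ, ?_⟩
      show σ * M₀.1 = (σ * M₀.1 * σ⁻¹) * σ
      group
  rw [← Finset.sum_fiberwise univ (fun M : CG n => Quotient.mk (bSetoid n) M), Finset.mul_sum]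
  apply Finset.sum_congr rfl
  intro X _
  rw [← key X]
  push_cast
  rw [Finset.sum_mul]
  apply Finset.sum_congr rfl
  intro M hM
  rw [(mem_filter.1 hM).2]

end Pool.Agent.Whitehead
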