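import Pool.Agent.Whitehead.Defs

set_option autoImplicit false

namespace Pool.Agent.Whitehead

open Equiv Finset

open scoped Nat

theorem succ_pow_le_three (m l : ℕ) (h : l ≤ m) : ((m : ℝ) + 1) ^ l ≤ 3 * (m : ℝ) ^ l := by
  rcases Nat.eq_zero_or_pos m with h0 | h0
  · subst h0
    have : l = 0 := by omega
    subst this; norm_num
  have hm : (0 : ℝ) < m := by exact_mod_cast h0
  have h1 : ((m : ℝ) + 1) = m * (1 / m + 1) := by field_simp; ring
  rw [h1, mul_pow, mul_comm]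
  refine mul_le_mul_of_nonneg_right ?_ (by positivity)
  have h2 : (1 / (m : ℝ) + 1) ≤ Real.exp (1 / m) := Real.add_one_le_exp _
  have h3 : (1 / (m : ℝ) + 1) ^ l ≤ Real.exp (1 / m) ^ l :=
    pow_le_pow_left₀ (by positivity) h2 l
  have h4 : Real.exp (1 / (m : ℝ)) ^ l = Real.exp (l * (1 / m)) := by
    rw [Real.exp_nat_mul]
  have h5 : (l : ℝ) * (1 / m) ≤ 1 := by
    rw [mul_one_div, div_le_one hm]
    exact_mod_cast h
  have h6 : Real.exp (l * (1 / m)) ≤ Real.exp 1 := Real.exp_le_exp.mpr h5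
  have h7 := Real.exp_one_lt_d9
  rw [h4] at h3
  linarith

theorem Ratio_proof : Stmt_Ratio := by
  intro m l
  induction l generalizing m with
  | zero => intro _; simp
  | succ l ih =>
    intro hl
    obtain ⟨k, rfl⟩ : ∃ k, m = k + 1 := ⟨m - 1, by omega⟩
    have hk : l ≤ k := by omega
    have e1 : k + 1 - (l + 1) = k - l := by omega
    rw [e1]
    have h1 := ih k hk
    have h2 := succ_pow_le_three k l hk
    have e2 : 2 * (k + 1) - 1 = 2 * k + 1 := by omega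
    rw [e2]
    have h3 : ((2 * k + 1)‼ : ℝ) = (2 * k + 1) * ((2 * k - 1)‼ : ℝ) := by
      have : (2 * k + 1)‼ = (2 * k + 1) * (2 * k - 1)‼ := by
        rcases Nat.eq_zero_or_pos k with h0 | h0
        · subst h0; rfl
        · have e3 : 2 * k + 1 = (2 * k - 1) + 2 := by omega
          conv_lhs => rw [e3, Nat.doubleFactorial_add_two]
          rw [← e3]
      rw [this]; push_cast; ring
    rw [h3]
    have h4 : (0 : ℝ) ≤ ((2 * (k - l) - 1)‼ : ℝ) := by positivity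
    have h5 : (0 : ℝ) ≤ ((2 * k - 1)‼ : ℝ) := by positivity
    push_cast
    have h6 : (((k : ℝ) + 1) / 3) ^ (l + 1) ≤ ((k : ℝ) / 3) ^ l * (k + 1) := by
      rw [pow_succ, div_pow, div_pow]
      have : ((k : ℝ) + 1) ^ l / 3 ^ l * ((k + 1) / 3) =
        (((k : ℝ) + 1) ^ l / 3) * (k + 1) / 3 ^ l := by ring
      rw [this]
      have h7 : ((k : ℝ) + 1) ^ l / 3 ≤ (k : ℝ) ^ l := by linarith
      calc (((k : ℝ) + 1) ^ l / 3) * (k + 1) / 3 ^ l ≤ ((k : ℝ) ^ l) * (k + 1) / 3 ^ l := by gcongr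
        _ = _ := by ring
    calc ((2 * (k - l) - 1)‼ : ℝ) * (((k : ℝ) + 1) / 3) ^ (l + 1)
        ≤ ((2 * (k - l) - 1)‼ : ℝ) * (((k : ℝ) / 3) ^ l * (k + 1)) := by gcongr
      _ = (((2 * (k - l) - 1)‼ : ℝ) * ((k : ℝ) / 3) ^ l) * (k + 1) := by ring
      _ ≤ ((2 * k - 1)‼ : ℝ) * (k + 1) := by gcongr
      _ ≤ (2 * k + 1) * ((2 * k - 1)‼ : ℝ) := by
        have : (0 : ℝ) ≤ k := by positivity
        nlinarith

end Pool.Agent.Whitehead
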