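import Pool.Agent.Whitehead.Defs

set_option autoImplicit false

namespace Pool.Agent.Whitehead

open Equiv Finset

theorem card_filter_HE {n : ℕ} (P : HE n → Prop) [DecidablePred P] :
    (univ.filter P).card = ∑ i : Fin n, (univ.filter fun p : Fin 3 => P (i, p)).card := by
  classical
  simp only [Finset.card_filter]
  rw [Fintype.sum_prod_type]

theorem two_mul_cyc_le {n : ℕ} (π : Perm (Fin n)) : 2 * cyc π ≤ π.support.card := by
  rw [← Perm.sum_cycleType]
  have h1 : Multiset.card π.cycleType = cyc π := by
    rw [Perm.cycleType_def, Multiset.card_map]; rfl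
  have h2 := Multiset.card_nsmul_le_sum (s := π.cycleType) (a := 2)
    (fun x hx => Perm.two_le_of_mem_cycleType hx)
  rw [h1, smul_eq_mul] at h2
  omega

theorem supp_proof : Stmt_Supp := by
  classical
  intro n π θ
  have hS : (tp π θ).support.card =
      ∑ i : Fin n, (univ.filter fun p : Fin 3 => tp π θ (i, p) ≠ (i, p)).card := by
    rw [← card_filter_HE (fun x => tp π θ x ≠ x)]
    congr 1
  have hk : π.support.card = ∑ i : Fin n, if π i ≠ i then 1 else 0 := by
    rw [← Finset.card_filter]
    congr 1
  have hj : jj π θ = ∑ i : Fin n, if π i = i ∧ θ i ≠ 1 then 1 else 0 := by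
    rw [jj, ← Finset.card_filter]
  have hc : ∀ i : Fin n,
      3 * (if π i ≠ i then 1 else 0) + 2 * (if π i = i ∧ θ i ≠ 1 then 1 else 0) ≤
        (univ.filter fun p : Fin 3 => tp π θ (i, p) ≠ (i, p)).card ∧
      (univ.filter fun p : Fin 3 => tp π θ (i, p) ≠ (i, p)).card ≤
        3 * ((if π i ≠ i then 1 else 0) + (if π i = i ∧ θ i ≠ 1 then 1 else 0)) := by
    intro i
    have hle : (univ.filter fun p : Fin 3 => tp π θ (i, p) ≠ (i, p)).card ≤ 3 := by
      refine (Finset.card_le_univ _).trans ?_
      simp
    by_cases h1 : π i = i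
    · by_cases h2 : θ i = 1
      · have : (univ.filter fun p : Fin 3 => tp π θ (i, p) ≠ (i, p)) = ∅ := by
          apply Finset.filter_eq_empty_iff.2
          intro p _
          simp [tp, h1, h2]
        rw [this]
        simp [h1, h2]
      · have h3 : (univ.filter fun p : Fin 3 => tp π θ (i, p) ≠ (i, p)) = (θ i).support := by
          ext p
          simp [tp, h1]
        rw [h3] at hle ⊢
        have h4 := Perm.two_le_card_support_of_ne_one h2
        simp [h1, h2]
        exact ⟨h4, hle⟩
    · have : (univ.filter fun p : Fin 3 => tp π θ (i, p) ≠ (i, p)) = univ := by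
        apply Finset.filter_true_of_mem
        intro p _
        simp [tp, h1]
      rw [this]
      simp [h1]
  refine ⟨?_, ?_, ?_, two_mul_cyc_le π⟩
  · rw [hS, hk, hj, Finset.mul_sum, Finset.mul_sum, ← Finset.sum_add_distrib]
    exact Finset.sum_le_sum fun i _ => (hc i).1
  · rw [hS, hk, hj, ← Finset.sum_add_distrib, Finset.mul_sum]
    exact Finset.sum_le_sum fun i _ => (hc i).2
  · rw [hk, hj, ← Finset.sum_add_distrib]
    calc _ ≤ ∑ i : Fin n, 1 := by
          apply Finset.sum_le_sum
          intro i _
          by_cases h1 : π i = i <;> by_cases h2 : θ i = 1 <;> simp [h1, h2]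
      _ = n := by simp

end Pool.Agent.Whitehead
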