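import Pool.Agent.Whitehead.Defs

set_option autoImplicit false

namespace Pool.Agent.Whitehead

open Equiv Finset

open scoped Nat

namespace SwitchAux

variable {n : ℕ}

abbrev Idx : Type := Bool × List Bool

/-- the edge-end reached by the index `j` -/
def W (M : Perm (HE n)) (a : HE n) (j : Idx) : HE n := walk M (cond j.1 a (M a)) j.2

/-- the block reached by the index `j` -/
def Bk (M : Perm (HE n)) (a : HE n) (j : Idx) : Fin n := (M (W M a j)).1

theorem nxt_ne (h : HE n) (i : Bool) : nxt h i ≠ h := by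
  intro he
  have h2 : h.2 + cond i 1 2 = h.2 := congrArg Prod.snd he
  clear he
  revert h2
  generalize h.2 = t
  revert t i
  decide

theorem nxt_inj_right (h : HE n) {i i' : Bool} (he : nxt h i = nxt h i') : i = i' := by
  have h2 : h.2 + cond i 1 2 = h.2 + cond i' 1 2 := congrArg Prod.snd he
  clear he
  revert h2
  generalize h.2 = t
  revert t i i'
  decide

theorem nxt_injective (i : Bool) : Function.Injective (fun h : HE n => nxt h i) := by
  intro h h' he
  simp only [nxt, Prod.mk.injEq] at he
  exact Prod.ext he.1 (add_right_cancel he.2)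

theorem W_cons (M : Perm (HE n)) (a : HE n) (s c : Bool) (w : List Bool) :
    W M a (s, c :: w) = nxt (M (W M a (s, w))) c := rfl

theorem W_fst_nil (M : Perm (HE n)) (hM : IsMat M) (a : HE n) (s : Bool) :
    (W M a (s, [])).1 = Bk M a (!s, []) := by
  cases s
  · rfl
  · show a.1 = (M (M a)).1
    rw [hM.1]

theorem W_fst_cons (M : Perm (HE n)) (a : HE n) (s c : Bool) (w : List Bool) :
    (W M a (s, c :: w)).1 = Bk M a (s, w) := rfl

theorem M_W_nil (M : Perm (HE n)) (hM : IsMat M) (a : HE n) (s : Bool) :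
    M (W M a (s, [])) = W M a (!s, []) := by
  cases s
  · show M (M a) = a
    exact hM.1 a
  · rfl

theorem W_injective (M : Perm (HE n)) (j : Idx) : Function.Injective (fun a => W M a j) := by
  obtain ⟨s, w⟩ := j
  induction w with
  | nil =>
    cases s
    · exact M.injective
    · exact Function.injective_id
  | cons c w ih =>
    intro a a' h
    exact ih (M.injective (nxt_injective c h))

/-- `(j, i)` is a minimal collision at `a` -/
structure Col (M : Perm (HE n)) (a : HE n) (j i : Idx) : Prop where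
  ne : j ≠ i
  le : i.2.length ≤ j.2.length
  eq : Bk M a j = Bk M a i
  P1 : ∀ l l' : Idx, l.2.length < j.2.length → l'.2.length < j.2.length →
    Bk M a l = Bk M a l' → l = l'
  P2 : ∀ l : Idx, l.2.length < i.2.length → Bk M a l ≠ Bk M a j
  loop : j.2 = [] → j = (true, []) ∧ i = (false, [])

theorem exists_col (M : Perm (HE n)) (L : ℕ) (a : HE n) (h : ¬ Clean M L a) :
    ∃ j i : Idx, j.2.length ≤ L ∧ i.2.length ≤ L ∧ Col M a j i := by
  classical
  have hP : ∃ m k, ∃ j i : Idx, j ≠ i ∧ Bk M a j = Bk M a i ∧ i.2.length = k ∧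
      j.2.length = m ∧ k ≤ m ∧ m ≤ L := by
    unfold Clean at h
    push Not at h
    obtain ⟨s, s', w, w', hw, hw', he, hne⟩ := h
    have hne' : ((s, w) : Idx) ≠ (s', w') := by
      intro h2
      rw [Prod.mk.injEq] at h2
      exact hne h2.1 h2.2
    rcases le_total w'.length w.length with h3 | h3
    · exact ⟨_, _, (s, w), (s', w'), hne', he, rfl, rfl, h3, hw⟩
    · exact ⟨_, _, (s', w'), (s, w), hne'.symm, he.symm, rfl, rfl, h3, hw'⟩
  obtain ⟨m, hm, hmin⟩ : ∃ m, (∃ k, ∃ j i : Idx, j ≠ i ∧ Bk M a j = Bk M a i ∧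
      i.2.length = k ∧ j.2.length = m ∧ k ≤ m ∧ m ≤ L) ∧ ∀ m' < m, ¬ (∃ k, ∃ j i : Idx, j ≠ i ∧
      Bk M a j = Bk M a i ∧ i.2.length = k ∧ j.2.length = m' ∧ k ≤ m' ∧ m' ≤ L) :=
    ⟨Nat.find hP, Nat.find_spec hP, fun m' hm' => Nat.find_min hP hm'⟩
  obtain ⟨k, ⟨j, i, hne, he, hik, hjm, hkm, hmL⟩, hmink⟩ : ∃ k, (∃ j i : Idx, j ≠ i ∧
      Bk M a j = Bk M a i ∧ i.2.length = k ∧ j.2.length = m ∧ k ≤ m ∧ m ≤ L) ∧
      ∀ k' < k, ¬ (∃ j i : Idx, j ≠ i ∧ Bk M a j = Bk M a i ∧ i.2.length = k' ∧
        j.2.length = m ∧ k' ≤ m ∧ m ≤ L) :=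
    ⟨Nat.find hm, Nat.find_spec hm, fun k' hk' => Nat.find_min hm hk'⟩
  have hP1 : ∀ l l' : Idx, l.2.length < m → l'.2.length < m → Bk M a l = Bk M a l' → l = l' := by
    intro l l' hl hl' hll
    by_contra hc
    rcases le_total l'.2.length l.2.length with h3 | h3
    · exact hmin _ hl ⟨_, l, l', hc, hll, rfl, rfl, h3, by omega⟩
    · exact hmin _ hl' ⟨_, l', l, fun h => hc h.symm, hll.symm, rfl, rfl, h3, by omega⟩
  rcases Nat.eq_zero_or_pos m with hm0 | hm0
  · -- the loop case
    have hj0 : j.2 = [] := List.length_eq_zero_iff.1 (by omega)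
    have hi0 : i.2 = [] := List.length_eq_zero_iff.1 (by omega)
    have hs : j.1 ≠ i.1 := fun h1 => hne (Prod.ext h1 (by rw [hj0, hi0]))
    have hBk : Bk M a (true, []) = Bk M a (false, []) := by
      obtain ⟨sj, wj⟩ := j
      obtain ⟨si, wi⟩ := i
      simp only at hj0 hi0 hs
      subst hj0 hi0
      cases sj <;> cases si
      · exact absurd rfl hs
      · exact he.symm
      · exact he
      · exact absurd rfl hs
    refine ⟨(true, []), (false, []), Nat.zero_le _, Nat.zero_le _, ?_⟩
    exact ⟨by simp, le_rfl, hBk, fun l l' hl => absurd hl (Nat.not_lt_zero _),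
      fun l hl => absurd hl (Nat.not_lt_zero _), fun _ => ⟨rfl, rfl⟩⟩
  · refine ⟨j, i, by omega, by omega, ?_⟩
    refine ⟨hne, by omega, he, by rw [hjm]; exact hP1, ?_, ?_⟩
    · intro l hl hl'
      refine hmink l.2.length (by omega) ⟨j, l, ?_, hl'.symm, rfl, hjm, by omega, hmL⟩
      intro h2
      rw [h2] at hjm
      omega
    · intro h0
      rw [h0] at hjm
      simp at hjm
      omega

theorem claim {M : Perm (HE n)} (hM : IsMat M) {a : HE n} {j i : Idx} (hc : Col M a j i)
    (hj : j.2 ≠ []) (l : Idx) (hl : l.2.length < j.2.length ∨ l = i) :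
    W M a l ≠ W M a j ∧ W M a l ≠ M (W M a j) := by
  obtain ⟨s, w⟩ := j
  cases w with
  | nil => exact absurd rfl hj
  | cons c w =>
    have hlen : ((s, c :: w) : Idx).2.length = w.length + 1 := rfl
    constructor
    · intro he
      have hfst : (W M a l).1 = Bk M a (s, w) := by rw [he]; rfl
      obtain ⟨sl, wl⟩ := l
      cases wl with
      | nil =>
        rw [W_fst_nil M hM] at hfst
        have h1 := hc.P1 (!sl, []) (s, w) (by rw [hlen]; simp) (by rw [hlen]; simp) hfst
        rw [Prod.mk.injEq] at h1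
        obtain ⟨h1, h2⟩ := h1
        rw [W_cons, ← h2, ← h1, M_W_nil M hM, Bool.not_not] at he
        exact nxt_ne _ _ he.symm
      | cons cl wl =>
        have hfst' : Bk M a (sl, wl) = Bk M a (s, w) := hfst
        have hlenl : ((sl, cl :: wl) : Idx).2.length = wl.length + 1 := rfl
        have hle : ((sl, cl :: wl) : Idx).2.length ≤ ((s, c :: w) : Idx).2.length := by
          rcases hl with hl | hl
          · exact hl.le
          · rw [hl]; exact hc.le
        have h1 := hc.P1 (sl, wl) (s, w) (by simp only [hlen, hlenl] at hle ⊢; omega)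
          (by rw [hlen]; simp) hfst'
        rw [Prod.mk.injEq] at h1
        obtain ⟨h1, h2⟩ := h1
        subst h1 h2
        rw [W_cons, W_cons] at he
        have h3 := nxt_inj_right _ he
        subst h3
        rcases hl with hl | hl
        · exact lt_irrefl _ hl
        · exact hc.ne hl
    · intro he
      have he' : M (W M a l) = W M a (s, c :: w) := by rw [he, hM.1]
      have hb : Bk M a l = Bk M a (s, w) := by
        show (M (W M a l)).1 = _
        rw [he']; rfl
      have hlt : l.2.length < ((s, c :: w) : Idx).2.length → False := by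
        intro hl
        have h1 := hc.P1 l (s, w) hl (by rw [hlen]; simp) hb
        subst h1
        rw [W_cons] at he'
        exact nxt_ne _ _ he'.symm
      rcases hl with hl | hl
      · exact hlt hl
      · subst hl
        rcases hc.le.lt_or_eq with h2 | h2
        · exact hlt h2
        · refine hc.P2 (s, w) ?_ (by rw [← hb]; exact hc.eq.symm)
          rw [h2, hlen]; simp

theorem W_stable {M M' : Perm (HE n)} {a : HE n} {m : ℕ} (hm : 0 < m)
    (h : ∀ l : Idx, l.2.length < m → M' (W M a l) = M (W M a l)) (j : Idx)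
    (hj : j.2.length ≤ m) : W M' a j = W M a j := by
  have ha : M' a = M a := h (true, []) hm
  obtain ⟨s, w⟩ := j
  induction w with
  | nil =>
    show cond s a (M' a) = cond s a (M a)
    rw [ha]
  | cons c w ih =>
    have hw : w.length < m := by simpa using hj
    rw [W_cons, W_cons, ih hw.le, h (s, w) hw]

/-- the switched matching -/
def sw (M : Perm (HE n)) (p u : HE n) : Perm (HE n) := swap p u * M * swap p u

theorem sw_apply_of_ne {M : Perm (HE n)} (hM : IsMat M) {h u x : HE n}
    (h1 : x ≠ h) (h2 : x ≠ M h) (h3 : x ≠ u) (h4 : x ≠ M u) : sw M (M h) u x = M x := by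
  unfold sw
  rw [Perm.mul_apply, Perm.mul_apply, swap_apply_of_ne_of_ne h2 h3]
  apply swap_apply_of_ne_of_ne
  · intro he
    exact h1 (M.injective he)
  · intro he
    apply h4
    rw [← he, hM.1]

theorem sw_apply_h {M : Perm (HE n)} (hM : IsMat M) {h u : HE n} (hu : h ≠ u) :
    sw M (M h) u h = u := by
  unfold sw
  rw [Perm.mul_apply, Perm.mul_apply, swap_apply_of_ne_of_ne (hM.2 h).symm hu, swap_apply_left]

theorem sw_sw (M : Perm (HE n)) (p u : HE n) : swap p u * sw M p u * swap p u = M := by
  unfold sw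
  rw [← mul_assoc, ← mul_assoc, swap_mul_self, one_mul, mul_assoc, swap_mul_self, mul_one]

theorem isMat_sw {M : Perm (HE n)} (hM : IsMat M) (p u : HE n) : IsMat (sw M p u) := by
  constructor
  · intro x
    unfold sw
    simp only [Perm.mul_apply, swap_apply_self, hM.1]
  · intro x hx
    unfold sw at hx
    simp only [Perm.mul_apply] at hx
    have h2 := congrArg (swap p u) hx
    rw [swap_apply_self] at h2
    exact hM.2 _ h2

theorem sw_comm {M ρ : Perm (HE n)} (hM : ρ * M = M * ρ) {p u : HE n} (hp : ρ p = p)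
    (hu : ρ u = u) : ρ * sw M p u = sw M p u * ρ := by
  have h1 : ρ * swap p u = swap p u * ρ := by
    have := Equiv.mul_swap_eq_swap_mul ρ p u
    rw [hp, hu] at this
    exact this
  unfold sw
  calc ρ * (swap p u * M * swap p u) = (ρ * swap p u) * M * swap p u := by
        simp only [mul_assoc]
    _ = swap p u * (ρ * M) * swap p u := by rw [h1]; simp only [mul_assoc]
    _ = swap p u * M * (ρ * swap p u) := by rw [hM]; simp only [mul_assoc]
    _ = _ := by rw [h1]; simp only [mul_assoc]

/-- all indices of length at most `L` -/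
noncomputable def ids (L : ℕ) : Finset Idx :=
  (univ : Finset Bool) ×ˢ (List.finite_length_le Bool L).toFinset

theorem mem_ids {L : ℕ} {j : Idx} : j ∈ ids L ↔ j.2.length ≤ L := by
  unfold ids
  rw [mem_product, Set.Finite.mem_toFinset]
  simp

open Classical in
/-- the forbidden points -/
noncomputable def EE (M : Perm (HE n)) (L : ℕ) (a : HE n) : Finset (HE n) :=
  (ids L).image (W M a) ∪ (ids L).image (fun l => M (W M a l))

theorem card_EE_le (M : Perm (HE n)) (L : ℕ) (a : HE n) : (EE M L a).card ≤ 2 * (ids L).card := by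
  classical
  unfold EE
  refine (card_union_le _ _).trans ?_
  have h1 := card_image_le (s := ids L) (f := W M a)
  have h2 := card_image_le (s := ids L) (f := fun l => M (W M a l))
  omega

open Classical in
/-- matchings with the minimal collision `(j, i)` at `a`, the walk `j` ending at a fixed point of
`ρ` -/
noncomputable def MM (ρ : Perm (HE n)) (a : HE n) (j i : Idx) : Finset (Perm (HE n)) :=
  (fixMat ρ).filter fun M => Col M a j i ∧ W M a j ∉ ρ.support

theorem mem_fixMat {ρ M : Perm (HE n)} : M ∈ fixMat ρ ↔ IsMat M ∧ ρ * M = M * ρ := by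
  classical
  unfold fixMat
  rw [mem_filter]
  simp

/-- the switching count -/
theorem card_MM (ρ : Perm (HE n)) (L : ℕ) (a : HE n) (j i : Idx) (hj : j.2.length ≤ L)
    (hi : i.2.length ≤ L) :
    (MM ρ a j i).card * (3 * n - ρ.support.card - 2 * (ids L).card) ≤ 3 * (fixMat ρ).card := by
  classical
  let U : Perm (HE n) → Finset (HE n) := fun M => univ \ (ρ.support ∪ EE M L a)
  have hU : ∀ M, 3 * n - ρ.support.card - 2 * (ids L).card ≤ (U M).card := by
    intro M
    have h1 : (U M).card = 3 * n - (ρ.support ∪ EE M L a).card := by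
      simp only [U]
      rw [card_sdiff_of_subset (subset_univ _), card_univ, Fintype.card_prod, Fintype.card_fin,
        Fintype.card_fin, mul_comm]
    have h2 := card_union_le ρ.support (EE M L a)
    have h3 := card_EE_le M L a
    omega
  have h1 : (MM ρ a j i).card * (3 * n - ρ.support.card - 2 * (ids L).card) ≤
      ((MM ρ a j i).sigma U).card := by
    rw [card_sigma, ← smul_eq_mul]
    exact card_nsmul_le_sum _ _ _ (fun M _ => hU M)
  refine h1.trans ?_
  have h2 : 3 * (fixMat ρ).card = (fixMat ρ ×ˢ (univ : Finset (Fin 3))).card := by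
    rw [card_product, card_univ, Fintype.card_fin, mul_comm]
  rw [h2]
  -- facts about one pair
  have facts : ∀ M u, M ∈ MM ρ a j i → u ∈ U M →
      sw M (M (W M a j)) u ∈ fixMat ρ ∧
      W (sw M (M (W M a j)) u) a j = W M a j ∧
      sw M (M (W M a j)) u (W M a j) = u ∧
      (M (W M a j)).1 = (if j.2 = [] then a.1 else Bk (sw M (M (W M a j)) u) a i) := by
    intro M u hM hu
    rw [MM, mem_filter, mem_fixMat] at hM
    obtain ⟨⟨hmat, hcomm⟩, hcol, hfix⟩ := hM
    simp only [U, mem_sdiff, mem_univ, true_and, mem_union, not_or] at hu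
    obtain ⟨hu1, hu2⟩ := hu
    have huW : ∀ l : Idx, l.2.length ≤ L → W M a l ≠ u ∧ W M a l ≠ M u := by
      intro l hl
      constructor
      · intro h
        apply hu2
        unfold EE
        rw [mem_union, mem_image]
        exact Or.inl ⟨l, mem_ids.2 hl, h⟩
      · intro h
        apply hu2
        unfold EE
        rw [mem_union, mem_image, mem_image]
        exact Or.inr ⟨l, mem_ids.2 hl, by rw [h, hmat.1]⟩
    have hρh : ρ (W M a j) = W M a j := Perm.notMem_support.1 hfix
    have hρp : ρ (M (W M a j)) = M (W M a j) := by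
      have := congrArg (fun σ : Perm (HE n) => σ (W M a j)) hcomm
      simp only [Perm.mul_apply, hρh] at this
      exact this
    have hρu : ρ u = u := Perm.notMem_support.1 hu1
    refine ⟨mem_fixMat.2 ⟨isMat_sw hmat _ _, sw_comm hcomm hρp hρu⟩, ?_, sw_apply_h hmat (huW j hj).1, ?_⟩
    · by_cases hj0 : j.2 = []
      · obtain ⟨rfl, -⟩ := hcol.loop hj0
        rfl
      · refine W_stable (m := j.2.length) (by
          rw [List.length_pos_iff]; exact hj0) ?_ j le_rfl
        intro l hl
        obtain ⟨c1, c2⟩ := claim hmat hcol hj0 l (Or.inl hl)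
        obtain ⟨c3, c4⟩ := huW l (by omega)
        exact sw_apply_of_ne hmat c1 c2 c3 c4
    · by_cases hj0 : j.2 = []
      · rw [if_pos hj0]
        obtain ⟨rfl, rfl⟩ := hcol.loop hj0
        have h3 := hcol.eq
        have h4 : Bk M a (false, []) = a.1 := by
          show (M (M a)).1 = a.1
          rw [hmat.1]
        rw [h4] at h3
        exact h3
      · rw [if_neg hj0]
        have hst : W (sw M (M (W M a j)) u) a i = W M a i := by
          refine W_stable (m := j.2.length) (by
            rw [List.length_pos_iff]; exact hj0) ?_ i hcol.le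
          intro l hl
          obtain ⟨c1, c2⟩ := claim hmat hcol hj0 l (Or.inl hl)
          obtain ⟨c3, c4⟩ := huW l (by omega)
          exact sw_apply_of_ne hmat c1 c2 c3 c4
        obtain ⟨c1, c2⟩ := claim hmat hcol hj0 i (Or.inr rfl)
        obtain ⟨c3, c4⟩ := huW i hi
        show Bk M a j = _
        rw [hcol.eq]
        unfold Bk
        rw [hst, sw_apply_of_ne hmat c1 c2 c3 c4]
  apply card_le_card_of_injOn (fun z => (sw z.1 (z.1 (W z.1 a j)) z.2, (z.1 (W z.1 a j)).2))
  · rintro ⟨M, u⟩ hz
    rw [mem_coe, mem_sigma] at hz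
    rw [mem_coe, mem_product]
    exact ⟨(facts M u hz.1 hz.2).1, mem_univ _⟩
  · rintro ⟨M₁, u₁⟩ hz₁ ⟨M₂, u₂⟩ hz₂ h
    rw [mem_coe, mem_sigma] at hz₁ hz₂
    obtain ⟨-, a1, b1, c1⟩ := facts M₁ u₁ hz₁.1 hz₁.2
    obtain ⟨-, a2, b2, c2⟩ := facts M₂ u₂ hz₂.1 hz₂.2
    simp only [Prod.mk.injEq] at h
    obtain ⟨hM, hp2⟩ := h
    have hh : W M₁ a j = W M₂ a j := by rw [← a1, ← a2, hM]
    have hu : u₁ = u₂ := by rw [← b1, ← b2, hM, hh]
    have hp : M₁ (W M₁ a j) = M₂ (W M₂ a j) := by
      apply Prod.ext
      · rw [c1, c2, hM]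
      · exact hp2
    have hMM : M₁ = M₂ := by
      rw [← sw_sw M₁ (M₁ (W M₁ a j)) u₁, ← sw_sw M₂ (M₂ (W M₂ a j)) u₂, hM, hp, hu]
    subst hMM hu
    rfl

end SwitchAux

open SwitchAux

theorem switch_proof : Stmt_Switch := by
  classical
  intro L
  set c := (ids L).card with hc
  refine ⟨6 * (c * c) + 2 * (1 + 2 * c), ?_⟩
  intro n ρ
  set s := ρ.support.card with hs
  set F := (fixMat ρ).card with hF
  rcases Nat.lt_or_ge (3 * n) (2 * (s + 2 * c)) with hN | hN
  · -- trivial bound
    have h1 : ∑ M ∈ fixMat ρ, dirty M L ≤ F * (3 * n) := by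
      rw [hF, ← smul_eq_mul]
      apply sum_le_card_nsmul
      intro M _
      unfold dirty
      refine (card_le_univ _).trans ?_
      rw [Fintype.card_prod, Fintype.card_fin, Fintype.card_fin, mul_comm]
    refine h1.trans ?_
    have h2 : 3 * n ≤ (6 * (c * c) + 2 * (1 + 2 * c)) * (1 + s) := by nlinarith [Nat.zero_le (c * c * s), Nat.zero_le (c * s), Nat.zero_le (c*c)]
    calc F * (3 * n) ≤ F * ((6 * (c * c) + 2 * (1 + 2 * c)) * (1 + s)) := Nat.mul_le_mul_left _ h2
      _ = _ := by ring
  · -- switching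
    have hMM : ∀ j ∈ ids L, ∀ i ∈ ids L, ∀ a : HE n, (MM ρ a j i).card * (3 * n) ≤ 6 * F := by
      intro j hj i hi a
      have h1 := card_MM ρ L a j i (mem_ids.1 hj) (mem_ids.1 hi)
      rw [← hc, ← hs, ← hF] at h1
      have h2 : 3 * n ≤ 2 * (3 * n - s - 2 * c) := by omega
      calc (MM ρ a j i).card * (3 * n) ≤ (MM ρ a j i).card * (2 * (3 * n - s - 2 * c)) :=
            Nat.mul_le_mul_left _ h2
        _ = 2 * ((MM ρ a j i).card * (3 * n - s - 2 * c)) := by ring
        _ ≤ 2 * (3 * F) := Nat.mul_le_mul_left _ h1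
        _ = 6 * F := by ring
    have hMMs : ∀ j ∈ ids L, ∀ i ∈ ids L, ∑ a : HE n, (MM ρ a j i).card ≤ 6 * F := by
      intro j hj i hi
      rcases Nat.eq_zero_or_pos n with hn0 | hn0
      · subst hn0
        simp
      · have h1 : (∑ a : HE n, (MM ρ a j i).card) * (3 * n) ≤ (6 * F) * (3 * n) := by
          rw [sum_mul]
          refine (sum_le_card_nsmul _ _ _ (fun a _ => hMM j hj i hi a)).trans ?_
          rw [card_univ, Fintype.card_prod, Fintype.card_fin, Fintype.card_fin, smul_eq_mul]
          apply le_of_eq; ring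
        exact Nat.le_of_mul_le_mul_right h1 (by omega)
    -- main bound
    have hmain : ∀ M ∈ fixMat ρ, dirty M L ≤ ∑ j ∈ ids L, ∑ i ∈ ids L,
        (s + ∑ a : HE n, if M ∈ MM ρ a j i then 1 else 0) := by
      intro M hM
      have hsub : (univ.filter fun a : HE n => ¬ Clean M L a) ⊆
          (ids L).biUnion (fun j => (ids L).biUnion (fun i =>
            (univ.filter fun a : HE n => W M a j ∈ ρ.support) ∪
              (univ.filter fun a : HE n => M ∈ MM ρ a j i))) := by
        intro a ha
        rw [mem_filter] at ha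
        obtain ⟨j, i, hj, hi, hcol⟩ := exists_col M L a ha.2
        rw [mem_biUnion]
        refine ⟨j, mem_ids.2 hj, ?_⟩
        rw [mem_biUnion]
        refine ⟨i, mem_ids.2 hi, ?_⟩
        rw [mem_union, mem_filter, mem_filter]
        by_cases hw : W M a j ∈ ρ.support
        · exact Or.inl ⟨mem_univ _, hw⟩
        · refine Or.inr ⟨mem_univ _, ?_⟩
          rw [MM, mem_filter]
          exact ⟨hM, hcol, hw⟩
      unfold dirty
      refine (card_le_card hsub).trans (card_biUnion_le.trans (sum_le_sum fun j _ => ?_))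
      refine card_biUnion_le.trans (sum_le_sum fun i _ => ?_)
      refine (card_union_le _ _).trans ?_
      apply Nat.add_le_add
      · rw [hs]
        apply card_le_card_of_injOn (fun a => W M a j)
        · intro a ha
          rw [mem_coe, mem_filter] at ha
          exact ha.2
        · intro a _ a' _ h
          exact W_injective M j h
      · rw [card_filter]
    have hcount : ∀ j i : Idx, ∑ M ∈ fixMat ρ, ∑ a : HE n, (if M ∈ MM ρ a j i then 1 else 0) =
        ∑ a : HE n, (MM ρ a j i).card := by
      intro j i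
      rw [sum_comm]
      apply sum_congr rfl
      intro a _
      rw [← card_filter]
      congr 1
      ext M
      rw [mem_filter]
      constructor
      · exact fun h => h.2
      · intro h
        refine ⟨?_, h⟩
        rw [MM, mem_filter] at h
        exact h.1
    calc ∑ M ∈ fixMat ρ, dirty M L
        ≤ ∑ M ∈ fixMat ρ, ∑ j ∈ ids L, ∑ i ∈ ids L,
          (s + ∑ a : HE n, if M ∈ MM ρ a j i then 1 else 0) := sum_le_sum hmain
      _ = ∑ j ∈ ids L, ∑ i ∈ ids L, (F * s + ∑ a : HE n, (MM ρ a j i).card) := by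
          rw [sum_comm]
          apply sum_congr rfl
          intro j _
          rw [sum_comm]
          apply sum_congr rfl
          intro i _
          rw [sum_add_distrib, sum_const, smul_eq_mul, hcount]
      _ ≤ ∑ j ∈ ids L, ∑ i ∈ ids L, (F * s + 6 * F) := by
          apply sum_le_sum
          intro j hj
          apply sum_le_sum
          intro i hi
          exact Nat.add_le_add_left (hMMs j hj i hi) _
      _ = c * c * (F * s + 6 * F) := by
          rw [sum_const, sum_const, smul_eq_mul, smul_eq_mul, ← hc]; ring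
      _ ≤ (6 * (c * c) + 2 * (1 + 2 * c)) * (1 + s) * F := by
          have h1 : c * c * (F * s + 6 * F) ≤ 6 * (c * c) * (1 + s) * F := by
            nlinarith [Nat.zero_le (c * c * (F * s))]
          refine h1.trans ?_
          gcongr
          omega

end Pool.Agent.Whitehead
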