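import Pool.Agent.Whitehead.Defs

set_option autoImplicit false

namespace Pool.Agent.Whitehead

open Equiv Finset

theorem tp_apply {n : ℕ} (π : Perm (Fin n)) (θ : Fin n → Perm (Fin 3)) (x : HE n) :
    tp π θ x = (π x.1, θ x.1 x.2) := rfl

theorem tp_BP {n : ℕ} (π : Perm (Fin n)) (θ : Fin n → Perm (Fin 3)) : BP (tp π θ) := by
  intro p q
  simp [tp_apply]

theorem tp_mv {n : ℕ} (π : Perm (Fin n)) (θ : Fin n → Perm (Fin 3)) :
    mv (tp π θ) = π.support.card := by
  unfold mv
  congr 1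

theorem tp_inj {n : ℕ} {π π' : Perm (Fin n)} {θ θ' : Fin n → Perm (Fin 3)}
    (h : tp π θ = tp π' θ') : π = π' ∧ θ = θ' := by
  have h1 : ∀ x : HE n, (π x.1, θ x.1 x.2) = (π' x.1, θ' x.1 x.2) := by
    intro x
    have := congrArg (fun σ : Perm (HE n) => σ x) h
    simpa [tp_apply] using this
  constructor
  · ext i
    have := h1 (i, 0)
    simp only [Prod.mk.injEq] at this
    rw [this.1]
  · funext i
    ext p
    have := h1 (i, p)
    simp only [Prod.mk.injEq] at this
    rw [this.2]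

theorem tp_surj {n : ℕ} {σ : Perm (HE n)} (hσ : BP σ) : ∃ π θ, tp π θ = σ := by
  have h1 : Function.Injective (fun i : Fin n => (σ (i, 0)).1) := by
    intro i j hij
    exact (hσ (i, 0) (j, 0)).1 hij
  have h2 : ∀ i : Fin n, Function.Injective (fun p : Fin 3 => (σ (i, p)).2) := by
    intro i p q hpq
    have h3 : (σ (i, p)).1 = (σ (i, q)).1 := (hσ _ _).2 rfl
    have h4 : σ (i, p) = σ (i, q) := Prod.ext h3 hpq
    have h5 := σ.injective h4
    exact (Prod.mk.inj h5).2
  refine ⟨Equiv.ofBijective _ (Finite.injective_iff_bijective.1 h1),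
    fun i => Equiv.ofBijective _ (Finite.injective_iff_bijective.1 (h2 i)), ?_⟩
  apply Equiv.ext
  rintro ⟨i, p⟩
  rw [tp_apply]
  apply Prod.ext
  · simp only [Equiv.ofBijective_apply]
    exact (hσ _ _).2 rfl
  · simp only [Equiv.ofBijective_apply]

theorem tp_proof : Stmt_Tp := by
  classical
  intro n
  refine ⟨fun π θ => ⟨tp_BP π θ, tp_mv π θ⟩, ?_⟩
  intro F
  have h : bpSet n = (univ : Finset (Perm (Fin n) × (Fin n → Perm (Fin 3)))).image
      (fun x => tp x.1 x.2) := by
    ext σ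
    simp only [bpSet, mem_filter, mem_univ, true_and, mem_image]
    constructor
    · intro hσ
      obtain ⟨π, θ, h⟩ := tp_surj hσ
      exact ⟨(π, θ), h⟩
    · rintro ⟨x, rfl⟩
      exact tp_BP _ _
  rw [h, Finset.sum_image]
  intro x _ y _ hxy
  obtain ⟨h1, h2⟩ := tp_inj hxy
  exact Prod.ext h1 h2

end Pool.Agent.Whitehead
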