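import Pool.Agent.Whitehead.Defs

set_option autoImplicit false

namespace Pool.Agent.Whitehead

open Equiv Finset

theorem tp_pow_fst {n : ℕ} (π : Perm (Fin n)) (θ : Fin n → Perm (Fin 3)) (m : ℕ) (x : HE n) :
    ((tp π θ ^ m) x).1 = (π ^ m) x.1 := by
  induction m generalizing x with
  | zero => rfl
  | succ m ih =>
    rw [pow_succ, pow_succ, Perm.mul_apply, Perm.mul_apply, ih]
    rfl

theorem tp_pow_fixed {n : ℕ} (π : Perm (Fin n)) (θ : Fin n → Perm (Fin 3)) (m : ℕ) {i : Fin n}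
    (hi : π i = i) (a : Fin 3) : (tp π θ ^ m) (i, a) = (i, (θ i ^ m) a) := by
  induction m generalizing a with
  | zero => rfl
  | succ m ih =>
    rw [pow_succ, pow_succ, Perm.mul_apply, Perm.mul_apply]
    have h : tp π θ (i, a) = (i, θ i a) := by
      show (π i, θ i a) = _
      rw [hi]
    rw [h, ih]

theorem s3_same : ∀ (θ : Perm (Fin 3)) (a b : Fin 3), θ a ≠ a → θ b ≠ b →
    ∃ m : Fin 3, (θ ^ (m : ℕ)) a = b := by decide

theorem trans_first {n : ℕ} (π : Perm (Fin n)) (θ : Fin n → Perm (Fin 3)) :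
    ∃ R : Finset (HE n), R.card ≤ 3 * cyc π + jj π θ ∧
      ∀ p, tp π θ p ≠ p → ∃ q ∈ R, (tp π θ).SameCycle q p := by
  classical
  have h1 : ∀ c : Perm (Fin n), ∃ x : Fin n ⊕ Unit, c ∈ π.cycleFactorsFinset →
      ∃ y, x = Sum.inl y ∧ y ∈ c.support := by
    intro c
    by_cases hc : c ∈ π.cycleFactorsFinset
    · have h2 : c.IsCycle := (Perm.mem_cycleFactorsFinset_iff.1 hc).1
      obtain ⟨y, hy⟩ := h2.nonempty_support
      exact ⟨Sum.inl y, fun _ => ⟨y, rfl, hy⟩⟩
    · exact ⟨Sum.inr (), fun h => absurd h hc⟩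
  choose rep hrep using h1
  have h3 : ∀ i : Fin n, ∃ a : Fin 3, θ i ≠ 1 → θ i a ≠ a := by
    intro i
    by_cases h : θ i = 1
    · exact ⟨0, fun h' => absurd h h'⟩
    · have : ∃ a, θ i a ≠ a := by
        by_contra hcon
        push Not at hcon
        exact h (Equiv.ext hcon)
      obtain ⟨a, ha⟩ := this
      exact ⟨a, fun _ => ha⟩
  choose pt hpt using h3
  set R1 : Finset (HE n) := (π.cycleFactorsFinset ×ˢ (univ : Finset (Fin 3))).biUnion
    (fun x => match rep x.1 with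
      | Sum.inl y => {(y, x.2)}
      | Sum.inr _ => ∅) with hR1
  set R2 : Finset (HE n) := (univ.filter fun i : Fin n => π i = i ∧ θ i ≠ 1).image
    (fun i => (i, pt i)) with hR2
  refine ⟨R1 ∪ R2, ?_, ?_⟩
  · refine (Finset.card_union_le _ _).trans (Nat.add_le_add ?_ ?_)
    · rw [hR1]
      refine (Finset.card_biUnion_le_card_mul _ _ 1 ?_).trans ?_
      · intro x _
        rcases rep x.1 with y | y <;> simp
      · rw [Finset.card_product, cyc]
        simp [mul_comm]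
    · exact Finset.card_image_le
  · rintro ⟨i, r⟩ hp
    by_cases hi : π i = i
    · have h4 : θ i r ≠ r := by
        intro h
        apply hp
        show (π i, θ i r) = _
        rw [hi, h]
      have h5 : θ i ≠ 1 := by
        intro h
        apply h4
        rw [h]
        rfl
      refine ⟨(i, pt i), mem_union_right _ ?_, ?_⟩
      · rw [hR2, mem_image]
        exact ⟨i, by simp [hi, h5], rfl⟩
      · obtain ⟨m, hm⟩ := s3_same (θ i) (pt i) r (hpt i h5) h4
        refine ⟨(m : ℕ), ?_⟩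
        rw [zpow_natCast, tp_pow_fixed π θ m hi, hm]
    · have h4 : π.cycleOf i ∈ π.cycleFactorsFinset := by
        rw [Perm.cycleOf_mem_cycleFactorsFinset_iff]
        simpa using hi
      obtain ⟨y, hy, hy2⟩ := hrep _ h4
      have h5 : π.SameCycle i y := (Perm.mem_support_cycleOf_iff.1 hy2).1
      obtain ⟨m, hm⟩ := h5.exists_nat_pow_eq
      refine ⟨(tp π θ ^ m) (i, r), mem_union_left _ ?_, ?_⟩
      · rw [hR1, mem_biUnion]
        refine ⟨(π.cycleOf i, ((tp π θ ^ m) (i, r)).2), by simp [h4], ?_⟩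
        simp only [hy, mem_singleton]
        apply Prod.ext
        · rw [tp_pow_fst, hm]
        · rfl
      · exact Perm.SameCycle.symm ⟨(m : ℤ), by rw [zpow_natCast]⟩

theorem trans_step {α : Type} [Finite α] [DecidableEq α] (σ : Perm α) (R : Finset α)
    (hR : ∀ p, σ p ≠ p → ∃ q ∈ R, σ.SameCycle q p) (p₁ q₁ p₂ q₂ : α) :
    ∃ R' : Finset α, R'.card ≤ R.card + 4 ∧
      ∀ p, (swap p₂ q₂ * σ * swap p₁ q₁) p ≠ p →
        ∃ q ∈ R', (swap p₂ q₂ * σ * swap p₁ q₁).SameCycle q p := by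
  set ρ := swap p₂ q₂ * σ * swap p₁ q₁ with hρ
  refine ⟨R ∪ {p₁, q₁, p₂, q₂}, ?_, ?_⟩
  · refine (Finset.card_union_le _ _).trans (Nat.add_le_add_left ?_ _)
    exact Finset.card_le_four
  · intro p hp
    by_cases h : ∃ q ∈ ({p₁, q₁, p₂, q₂} : Finset α), ρ.SameCycle q p
    · obtain ⟨q, hq, h2⟩ := h
      exact ⟨q, mem_union_right _ hq, h2⟩
    · push Not at h
      have h1 : ∀ m : ℕ, (ρ ^ m) p ≠ p₁ ∧ (ρ ^ m) p ≠ q₁ ∧ (ρ ^ m) p ≠ p₂ ∧ (ρ ^ m) p ≠ q₂ := by
        intro m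
        have hs : ρ.SameCycle ((ρ ^ m) p) p := Perm.SameCycle.symm ⟨(m : ℤ), by rw [zpow_natCast]⟩
        refine ⟨?_, ?_, ?_, ?_⟩ <;> intro he <;> refine h _ ?_ hs <;> simp [he]
      have h2 : ∀ m : ℕ, (σ ^ m) p = (ρ ^ m) p := by
        intro m
        induction m with
        | zero => rfl
        | succ m ih =>
          rw [pow_succ', pow_succ', Perm.mul_apply, Perm.mul_apply, ih]
          obtain ⟨a1, a2, a3, a4⟩ := h1 m
          obtain ⟨b1, b2, b3, b4⟩ := h1 (m + 1)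
          rw [pow_succ', Perm.mul_apply] at b1 b2 b3 b4
          have h3 : ρ ((ρ ^ m) p) = swap p₂ q₂ (σ ((ρ ^ m) p)) := by
            conv_lhs => rw [hρ]
            rw [Perm.mul_apply, Perm.mul_apply, swap_apply_of_ne_of_ne a1 a2]
          have h4 : swap p₂ q₂ (ρ ((ρ ^ m) p)) = σ ((ρ ^ m) p) := by
            rw [h3, Equiv.swap_apply_self]
          rw [← h4, swap_apply_of_ne_of_ne b3 b4]
      have h5 : σ p ≠ p := by
        have := h2 1
        rw [pow_one, pow_one] at this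
        rw [this]
        exact hp
      obtain ⟨q, hq, h6⟩ := hR p h5
      obtain ⟨m, hm⟩ := h6.symm.exists_nat_pow_eq
      refine ⟨q, mem_union_left _ hq, Perm.SameCycle.symm ⟨(m : ℤ), ?_⟩⟩
      rw [zpow_natCast, ← h2, hm]

theorem trans_proof : Stmt_Trans := by
  intro n π θ
  refine ⟨trans_first π θ, ?_⟩
  intro p₁ q₁ p₂ q₂
  obtain ⟨R, hR, hR2⟩ := trans_first π θ
  obtain ⟨R', hR', hR'2⟩ := trans_step (tp π θ) R hR2 p₁ q₁ p₂ q₂
  exact ⟨R', hR'.trans (by omega), hR'2⟩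

end Pool.Agent.Whitehead
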