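import Pool.Agent.Whitehead.Defs

set_option autoImplicit false

namespace Pool.Agent.Whitehead

open Equiv Finset

/-- the average degree of the unlabelled Whitehead-move graph `Γ^u_n`:
`(∑_v deg v) / #vertices` -/
noncomputable def averageDegree (n : ℕ) : ℝ :=
  (∑ᶠ X : Unlabelled n, (((Gamma n).neighborSet X).ncard : ℝ)) / (Nat.card (Unlabelled n) : ℝ)

theorem avg_of (hL : Stmt_Lit) (hF : Stmt_FinalB) :
    ∃ (C : ℝ) (n₀ : ℕ), ∀ n : ℕ, n₀ ≤ n → Even n → 3 * (n : ℝ) - C ≤ averageDegree n := by
  classical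
  obtain ⟨C, n₀, h⟩ := hF
  refine ⟨C, n₀, fun n hn hev => ?_⟩
  obtain ⟨e, he⟩ := hL n
  have : Finite (Unlabelled n) := Finite.of_equiv _ e
  let i1 : Fintype (VB n) := Fintype.ofFinite _
  let i2 : Fintype (Unlabelled n) := Fintype.ofFinite _
  obtain ⟨h1, h2⟩ := h n hn hev
  have hcard : Fintype.card (Unlabelled n) = Fintype.card (VB n) := (Fintype.card_congr e).symm
  have hdeg : ∀ X : VB n, ((Gamma n).neighborSet (e X)).ncard =
      ((GammaB n).neighborSet X).ncard := by
    intro X
    have hset : (Gamma n).neighborSet (e X) = e '' ((GammaB n).neighborSet X) := by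
      ext Y
      rw [SimpleGraph.mem_neighborSet, Set.mem_image]
      constructor
      · intro hY
        refine ⟨e.symm Y, ?_, by simp⟩
        rw [SimpleGraph.mem_neighborSet, ← he]
        simpa using hY
      · rintro ⟨Z, hZ, rfl⟩
        rw [he]
        exact hZ
    rw [hset, Set.ncard_image_of_injective _ e.injective]
  unfold averageDegree
  rw [finsum_eq_sum_of_fintype, Nat.card_eq_fintype_card, hcard,
    ← Equiv.sum_comp e (fun X : Unlabelled n => (((Gamma n).neighborSet X).ncard : ℝ))]
  rw [sum_congr rfl fun X _ => by rw [hdeg X]]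
  rw [le_div_iff₀ (by exact_mod_cast h1)]
  exact h2

end Pool.Agent.Whitehead
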