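import Mathlib

/-!
# The unlabelled Whitehead-move graph (MP_406c5d_co): definitions and module statements

Block model: the edge-ends (points) of a cubic multigraph on `Fin n` are `HE n = Fin n × Fin 3`,
`(i, p)` being the `p`-th edge-end at vertex `i`; a cubic multigraph is a fixed-point-free
involution `M` of `HE n`; isomorphisms are the block preserving permutations conjugating `M`.
Paper proof: /team-store/MP_406c5d_PROOF.md.
-/

set_option autoImplicit false

namespace Pool.Agent.Whitehead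

open Equiv Finset

open scoped Nat

/-- the edge-ends of a cubic multigraph on the vertex set `Fin n` -/
abbrev HE (n : ℕ) : Type := Fin n × Fin 3

/-- `M` is a perfect matching, i.e. a fixed-point-free involution -/
def IsMat {α : Type} (M : Perm α) : Prop := (∀ x, M (M x) = x) ∧ ∀ x, M x ≠ x

open Classical in
/-- the perfect matchings commuting with `ρ` (so `fixMat 1` is the set of all matchings) -/
noncomputable def fixMat {α : Type} [Fintype α] [DecidableEq α] (ρ : Perm α) : Finset (Perm α) :=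
  univ.filter fun M => IsMat M ∧ ρ * M = M * ρ

/-- block preserving permutations -/
def BP {n : ℕ} (σ : Perm (HE n)) : Prop := ∀ p q : HE n, (σ p).1 = (σ q).1 ↔ p.1 = q.1

open Classical in
/-- the finset of block preserving permutations, the group `S_3 wr S_n` -/
noncomputable def bpSet (n : ℕ) : Finset (Perm (HE n)) := univ.filter fun σ => BP σ

/-- number of blocks moved by a block preserving permutation -/
def mv {n : ℕ} (σ : Perm (HE n)) : ℕ := (univ.filter fun i : Fin n => (σ (i, 0)).1 ≠ i).card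

/-- the block preserving permutation given by `π` on blocks and `θ i` inside block `i` -/
def tp {n : ℕ} (π : Perm (Fin n)) (θ : Fin n → Perm (Fin 3)) : Perm (HE n) where
  toFun x := (π x.1, θ x.1 x.2)
  invFun y := (π.symm y.1, (θ (π.symm y.1)).symm y.2)
  left_inv x := by simp
  right_inv y := by simp

/-- number of nontrivial cycles -/
def cyc {α : Type} [Fintype α] [DecidableEq α] (π : Perm α) : ℕ := π.cycleFactorsFinset.card

/-- number of fixed blocks on which the local permutation is nontrivial -/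
def jj {n : ℕ} (π : Perm (Fin n)) (θ : Fin n → Perm (Fin 3)) : ℕ :=
  (univ.filter fun i : Fin n => π i = i ∧ θ i ≠ 1).card

/-- the two other edge-ends at the vertex of `h` -/
def nxt {n : ℕ} (h : HE n) (i : Bool) : HE n := (h.1, h.2 + cond i 1 2)

/-- non-backtracking walk: the head of the word is the LAST step.  From `h` cross its edge to
`M h` and leave through `nxt (M h) i`. -/
def walk {n : ℕ} (M : Perm (HE n)) (h : HE n) : List Bool → HE n
  | [] => h
  | i :: w => nxt (M (walk M h w)) i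

/-- the block reached after following `w` and crossing the edge -/
def blk {n : ℕ} (M : Perm (HE n)) (h : HE n) (w : List Bool) : Fin n := (M (walk M h w)).1

/-- the edge-end `a` is clean to radius `L`: the exploration of its surroundings (from `a`,
`s = true`, and from `M a`, `s = false`) by words of length at most `L` meets pairwise distinct
blocks.  (`blk M a [] = v(M a)`, `blk M (M a) [] = v(a)`.) -/
def Clean {n : ℕ} (M : Perm (HE n)) (L : ℕ) (a : HE n) : Prop :=
  ∀ (s s' : Bool) (w w' : List Bool), w.length ≤ L → w'.length ≤ L →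
    blk M (cond s a (M a)) w = blk M (cond s' a (M a)) w' → s = s' ∧ w = w'

open Classical in
/-- number of edge-ends which are not clean -/
noncomputable def dirty {n : ℕ} (M : Perm (HE n)) (L : ℕ) : ℕ :=
  (univ.filter fun a => ¬ Clean M L a).card

/-- data of a Whitehead move on the edge `{a, M a}` (which is not a loop): an edge-end `f ≠ a` at
the vertex of `a` and an edge-end `g ≠ M a` at the vertex of `M a`.  The result of the move is
`swap f g * M * swap f g`. -/
structure MoveAt {n : ℕ} (M : Perm (HE n)) (a f g : HE n) : Prop where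
  loopless : a.1 ≠ (M a).1
  f_ne : f ≠ a
  f_at : f.1 = a.1
  g_ne : g ≠ M a
  g_at : g.1 = (M a).1

/-- connectedness of the cubic multigraph -/
def Conn {n : ℕ} (M : Perm (HE n)) : Prop :=
  ∀ u v : Fin n, Relation.ReflTransGen (fun u v => ∃ p : Fin 3, (M (u, p)).1 = v) u v

/-- `M` is `K`-good: no permutation `(p₂ q₂) σ (p₁ q₁)` with `σ` block preserving moving at least
`K` blocks commutes with `M` (`p = q` is allowed: then `swap p q = 1`) -/
def Good {n : ℕ} (K : ℕ) (M : Perm (HE n)) : Prop :=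
  ∀ (p₁ q₁ p₂ q₂ : HE n) (σ : Perm (HE n)), BP σ → K ≤ mv σ →
    (swap p₂ q₂ * σ * swap p₁ q₁) * M ≠ M * (swap p₂ q₂ * σ * swap p₁ q₁)

open Classical in
/-- the stabiliser of `M` in the group of block preserving permutations -/
noncomputable def stab {n : ℕ} (M : Perm (HE n)) : Finset (Perm (HE n)) :=
  (bpSet n).filter fun σ => σ * M = M * σ

/-! ## The graph in the block model -/

/-- cubic graphs in the block model: connected matchings -/
def CG (n : ℕ) : Type := {M : Perm (HE n) // IsMat M ∧ Conn M}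

/-- isomorphism of cubic graphs in the block model -/
def BIso {n : ℕ} (M M' : CG n) : Prop := ∃ σ : Perm (HE n), BP σ ∧ σ * M.1 = M'.1 * σ

theorem BP.one {n : ℕ} : BP (1 : Perm (HE n)) := fun _ _ => Iff.rfl

theorem BP.mul {n : ℕ} {σ τ : Perm (HE n)} (hσ : BP σ) (hτ : BP τ) : BP (σ * τ) := by
  intro p q
  rw [Perm.mul_apply, Perm.mul_apply, hσ, hτ]

theorem BP.inv {n : ℕ} {σ : Perm (HE n)} (hσ : BP σ) : BP σ⁻¹ := by
  intro p q
  have := hσ (σ⁻¹ p) (σ⁻¹ q)
  simpa using this.symm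

theorem BIso.equivalence (n : ℕ) : Equivalence (BIso (n := n)) where
  refl M := ⟨1, BP.one, by simp⟩
  symm := by
    rintro M M' ⟨σ, hσ, h⟩
    refine ⟨σ⁻¹, hσ.inv, ?_⟩
    rw [inv_mul_eq_iff_eq_mul, ← mul_assoc, h, mul_assoc, mul_inv_cancel, mul_one]
  trans := by
    rintro M M' M'' ⟨σ, hσ, h⟩ ⟨τ, hτ, h'⟩
    refine ⟨τ * σ, hτ.mul hσ, ?_⟩
    rw [mul_assoc, h, ← mul_assoc, h', mul_assoc]

/-- isomorphism classes -/
def bSetoid (n : ℕ) : Setoid (CG n) := ⟨BIso, BIso.equivalence n⟩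

/-- unlabelled cubic graphs in the block model -/
abbrev VB (n : ℕ) : Type := Quotient (bSetoid n)

/-- `M'` is the result of one Whitehead move on `M` -/
def WMove {n : ℕ} (M M' : CG n) : Prop :=
  ∃ a f g : HE n, MoveAt M.1 a f g ∧ M'.1 = swap f g * M.1 * swap f g

/-- the unlabelled Whitehead-move graph in the block model -/
def GammaB (n : ℕ) : SimpleGraph (VB n) where
  Adj X Y := X ≠ Y ∧ ∃ M M' : CG n, Quotient.mk (bSetoid n) M = X ∧ Quotient.mk (bSetoid n) M' = Y ∧
    (WMove M M' ∨ WMove M' M)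
  symm := by
    constructor
    rintro X Y ⟨hne, M, M', h1, h2, h3⟩
    exact ⟨hne.symm, M', M, h2, h1, h3.symm⟩
  loopless := ⟨fun X h => h.1 rfl⟩

instance (n : ℕ) : Finite (CG n) := by unfold CG; infer_instance

instance (n : ℕ) : Finite (VB n) := by unfold VB; infer_instance

/-! ## Module statements -/

/-- MODULE Local (section 2 of the paper proof). -/
def Stmt_Local : Prop := ∀ (n : ℕ) (M σ : Perm (HE n)) (a f g a' f' g' : HE n) (L : ℕ),
  IsMat M → BP σ → MoveAt M a f g → MoveAt M a' f' g' → Clean M L a → 2 * mv σ + 4 ≤ L →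
  (swap f' g' * σ * swap f g) * M = M * (swap f' g' * σ * swap f g) →
  (a' = a ∧ (f' = f ↔ g' = g)) ∨ (a' = M a ∧ (f' = g ↔ g' = f))

/-- MODULE Local, second half (the case `τ' = 1`). -/
def Stmt_Local0 : Prop := ∀ (n : ℕ) (M σ : Perm (HE n)) (a f g : HE n) (L : ℕ),
  IsMat M → BP σ → MoveAt M a f g → Clean M L a → 2 * mv σ + 4 ≤ L →
  (σ * swap f g) * M = M * (σ * swap f g) → False

/-- MODULE Switch (section 4). -/
def Stmt_Switch : Prop := ∀ L : ℕ, ∃ C : ℕ, ∀ (n : ℕ) (ρ : Perm (HE n)),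
  ∑ M ∈ fixMat ρ, dirty M L ≤ C * (1 + ρ.support.card) * (fixMat ρ).card

/-- MODULE Match: number of perfect matchings. -/
def Stmt_Match : Prop := ∀ (α : Type) [Fintype α] [DecidableEq α],
  (Even (Fintype.card α) → (fixMat (1 : Perm α)).card = (Fintype.card α - 1)‼) ∧
  (¬ Even (Fintype.card α) → (fixMat (1 : Perm α)).card = 0)

/-- MODULE Fix (section 5), may use `Stmt_Match`. `R` meets every nontrivial cycle of `ρ`. -/
def Stmt_Fix : Prop := ∀ (α : Type) [Fintype α] [DecidableEq α] (ρ : Perm α) (R : Finset α),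
  (∀ p, ρ p ≠ p → ∃ q ∈ R, ρ.SameCycle q p) →
  (fixMat ρ).card ≤ 2 ^ R.card * (ρ.support.card + 1) ^ (R.card / 2) *
    (Fintype.card α - ρ.support.card - 1)‼

/-- MODULE Even (tiny): a matching commuting with `ρ` restricts to a matching of the support. -/
def Stmt_Even : Prop := ∀ (α : Type) [Fintype α] [DecidableEq α] (ρ : Perm α),
  (fixMat ρ).Nonempty → Even ρ.support.card

/-- MODULE Ratio. -/
def Stmt_Ratio : Prop := ∀ (m l : ℕ), l ≤ m →
  ((2 * (m - l) - 1)‼ : ℝ) * (m / 3 : ℝ) ^ l ≤ ((2 * m - 1)‼ : ℝ)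

/-- MODULE Cyc. -/
def Stmt_Cyc : Prop := ∀ (n k y : ℕ),
  ∑ π ∈ (univ : Finset (Perm (Fin n))).filter (fun π => π.support.card = k), y ^ cyc π ≤
    n.choose k * (y + k) ^ k

/-- MODULE FixW, first half (from `Stmt_Fix`, `Stmt_Even`, `Stmt_Match`, `Stmt_Ratio`,
`Stmt_Supp`, `Stmt_Trans`). -/
def Stmt_FixW1 : Prop := ∀ (n : ℕ), 2 ≤ n → Even n →
  ∀ (π : Perm (Fin n)) (θ : Fin n → Perm (Fin 3)),
  ((fixMat (tp π θ)).card : ℝ) ≤ ((fixMat (1 : Perm (HE n))).card : ℝ) *
    (2 ^ (3 * cyc π + jj π θ) *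
      √(3 * (π.support.card + jj π θ) + 1 : ℝ) ^ (3 * cyc π + jj π θ) *
      √(2 / n : ℝ) ^ (3 * π.support.card + 2 * jj π θ))

/-- MODULE FixW, second half (from the same). -/
def Stmt_FixW2 : Prop := ∀ (n : ℕ), 2 ≤ n → Even n →
  ∀ (π : Perm (Fin n)) (θ : Fin n → Perm (Fin 3)) (p₁ q₁ p₂ q₂ : HE n),
  ((fixMat (swap p₂ q₂ * tp π θ * swap p₁ q₁)).card : ℝ) ≤
    ((fixMat (1 : Perm (HE n))).card : ℝ) *
    (2 ^ (3 * cyc π + jj π θ + 4) *
      √(3 * (π.support.card + jj π θ) + 5 : ℝ) ^ (3 * cyc π + jj π θ + 4) *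
      √(2 / n : ℝ) ^ (3 * π.support.card + 2 * jj π θ) * (n : ℝ) ^ 2)

/-- MODULE Supp: support of `tp π θ`. -/
def Stmt_Supp : Prop := ∀ (n : ℕ) (π : Perm (Fin n)) (θ : Fin n → Perm (Fin 3)),
  3 * π.support.card + 2 * jj π θ ≤ (tp π θ).support.card ∧
  (tp π θ).support.card ≤ 3 * (π.support.card + jj π θ) ∧
  π.support.card + jj π θ ≤ n ∧ 2 * cyc π ≤ π.support.card

/-- MODULE Trans: a set meeting every nontrivial cycle of `(p₂ q₂) (tp π θ) (p₁ q₁)`. -/
def Stmt_Trans : Prop := ∀ (n : ℕ) (π : Perm (Fin n)) (θ : Fin n → Perm (Fin 3)),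
  (∃ R : Finset (HE n), R.card ≤ 3 * cyc π + jj π θ ∧
    ∀ p, tp π θ p ≠ p → ∃ q ∈ R, (tp π θ).SameCycle q p) ∧
  ∀ p₁ q₁ p₂ q₂ : HE n, ∃ R : Finset (HE n), R.card ≤ 3 * cyc π + jj π θ + 4 ∧
    ∀ p, (swap p₂ q₂ * tp π θ * swap p₁ q₁) p ≠ p →
      ∃ q ∈ R, (swap p₂ q₂ * tp π θ * swap p₁ q₁).SameCycle q p

/-- MODULE Master (section 5, from `Stmt_Cyc` and `Stmt_Supp`), `n ^ (1/4) = √√n`. -/
def Stmt_Master : Prop := ∀ A : ℝ, 1 ≤ A → ∃ (C : ℝ) (n₀ : ℕ), 0 < C ∧ ∀ n : ℕ, n₀ ≤ n →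
  ∀ k₀ : ℕ,
  ∑ x ∈ (univ : Finset (Perm (Fin n) × (Fin n → Perm (Fin 3)))).filter
      (fun x => k₀ ≤ x.1.support.card),
    A ^ (x.1.support.card + jj x.1 x.2) *
      √(x.1.support.card + jj x.1 x.2 : ℝ) ^ (3 * cyc x.1 + jj x.1 x.2) /
      √(n : ℝ) ^ (3 * x.1.support.card + 2 * jj x.1 x.2) ≤ C * (C / √√(n : ℝ)) ^ k₀

/-- MODULE TSum, first half (from `Stmt_FixW1`, `Stmt_Master`, `Stmt_Supp`). -/
def Stmt_T1 : Prop := ∃ (C : ℝ) (n₀ : ℕ), ∀ n : ℕ, n₀ ≤ n → Even n →
  ∑ x : Perm (Fin n) × (Fin n → Perm (Fin 3)),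
    (1 + ((tp x.1 x.2).support.card : ℝ)) * ((fixMat (tp x.1 x.2)).card : ℝ) ≤
    C * ((fixMat (1 : Perm (HE n))).card : ℝ)

/-- MODULE TSum, second half (from `Stmt_FixW2`, `Stmt_Master`, `Stmt_Supp`). -/
def Stmt_T2 : Prop := ∃ (C : ℝ) (n₀ : ℕ), ∀ n : ℕ, n₀ ≤ n → Even n →
  ∑ z : (HE n × HE n) × (HE n × HE n),
  ∑ x ∈ (univ : Finset (Perm (Fin n) × (Fin n → Perm (Fin 3)))).filter
      (fun x => 32 ≤ x.1.support.card),
    ((fixMat (swap z.2.1 z.2.2 * tp x.1 x.2 * swap z.1.1 z.1.2)).card : ℝ) ≤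
    C / n * ((fixMat (1 : Perm (HE n))).card : ℝ)

/-- MODULE Tp: `tp` parametrises the block preserving permutations. -/
def Stmt_Tp : Prop := ∀ n : ℕ,
  (∀ (π : Perm (Fin n)) (θ : Fin n → Perm (Fin 3)), BP (tp π θ) ∧
    mv (tp π θ) = π.support.card) ∧
  ∀ F : Perm (HE n) → ℝ,
    ∑ σ ∈ bpSet n, F σ = ∑ x : Perm (Fin n) × (Fin n → Perm (Fin 3)), F (tp x.1 x.2)

/-- MODULE Bad (section 3): stabilisers of bad matchings. -/
def Stmt_Bad : Prop := ∀ (n K : ℕ) (B : Finset (Perm (HE n))),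
  (∀ M ∈ B, IsMat M ∧ ¬ Good (2 * K) M) →
  ∑ M ∈ B, (stab M).card ≤ 2 * ∑ z : (HE n × HE n) × (HE n × HE n),
    ∑ σ ∈ (bpSet n).filter (fun σ => K ≤ mv σ),
      (fixMat (swap z.2.1 z.2.2 * σ * swap z.1.1 z.1.2)).card

open Classical in
/-- MODULE Conn (section 6, from `Stmt_Match`): at least half of all matchings are connected. -/
def Stmt_Conn : Prop := ∃ n₀ : ℕ, ∀ n : ℕ, n₀ ≤ n → Even n →
  (fixMat (1 : Perm (HE n))).card ≤
    2 * ((univ : Finset (Perm (HE n))).filter (fun M => IsMat M ∧ Conn M)).card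

/-- MODULE MoveConn: Whitehead moves preserve connectedness. -/
def Stmt_MoveConn : Prop := ∀ (n : ℕ) (M : Perm (HE n)) (a f g : HE n),
  IsMat M → Conn M → MoveAt M a f g → Conn (swap f g * M * swap f g)

/-- MODULE Deg (section 3, from `Stmt_Local`, `Stmt_Local0`, `Stmt_MoveConn`): degrees of good
classes. -/
def Stmt_Deg : Prop := ∀ (n K : ℕ) (M : CG n), Good K M.1 →
  3 * n ≤ ((GammaB n).neighborSet (Quotient.mk (bSetoid n) M)).ncard + dirty M.1 (2 * K + 4)

/-- MODULE Orb: orbit-stabiliser. For a nonnegative function `F` of classes,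
`∑_{M connected} |Stab M| F [M] = |W| ∑_classes F`. -/
def Stmt_Orb : Prop := ∀ (n : ℕ) (F : VB n → ℝ) [Fintype (VB n)] [Fintype (CG n)],
  ∑ M : CG n, ((stab M.1).card : ℝ) * F (Quotient.mk (bSetoid n) M) =
    ((bpSet n).card : ℝ) * ∑ X : VB n, F X

/-- MODULE Final (from all the above). -/
def Stmt_FinalB : Prop := ∃ (C : ℝ) (n₀ : ℕ), ∀ n : ℕ, n₀ ≤ n → Even n →
  ∀ [Fintype (VB n)], 0 < Fintype.card (VB n) ∧ (3 * n - C : ℝ) * Fintype.card (VB n) ≤
    ∑ X : VB n, (((GammaB n).neighborSet X).ncard : ℝ)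

/-! ## The literal model -/

/-- A cubic graph on the vertex set `Fin n`: a finite connected multigraph, loops and multiple
edges allowed, in which every vertex has degree `3`.  It is described by its edge-ends, numbered
by `Fin (3 * n)`: `vert h` is the vertex at which the edge-end `h` is attached and `inv h` is the
other end of the same edge.  An edge is a pair `{h, inv h}`, and it is a loop when
`vert h = vert (inv h)`. -/
structure CubicGraph (n : ℕ) where
  /-- the vertex at which an edge-end is attached -/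
  vert : Fin (3 * n) → Fin n
  /-- the other end of the edge -/
  inv : Fin (3 * n) → Fin (3 * n)
  inv_inv : ∀ h, inv (inv h) = h
  inv_ne : ∀ h, inv h ≠ h
  degree : ∀ v : Fin n, (univ.filter fun h => vert h = v).card = 3
  connected : ∀ u v : Fin n,
    Relation.ReflTransGen (fun u v => ∃ h, vert h = u ∧ vert (inv h) = v) u v

/-- isomorphism of cubic graphs -/
def CubicGraph.Iso {n : ℕ} (G G' : CubicGraph n) : Prop :=
  ∃ (κ : Perm (Fin (3 * n))) (ψ : Perm (Fin n)),
    (∀ h, G'.vert (κ h) = ψ (G.vert h)) ∧ ∀ h, G'.inv (κ h) = κ (G.inv h)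

theorem CubicGraph.Iso.equivalence (n : ℕ) : Equivalence (CubicGraph.Iso (n := n)) where
  refl G := ⟨1, 1, fun _ => rfl, fun _ => rfl⟩
  symm := by
    rintro G G' ⟨κ, ψ, h1, h2⟩
    refine ⟨κ.symm, ψ.symm, fun h => ?_, fun h => ?_⟩
    · have := h1 (κ.symm h)
      rw [Equiv.apply_symm_apply] at this
      rw [this, Equiv.symm_apply_apply]
    · have := h2 (κ.symm h)
      rw [Equiv.apply_symm_apply] at this
      rw [this, Equiv.symm_apply_apply]
  trans := by
    rintro G G' G'' ⟨κ, ψ, h1, h2⟩ ⟨κ', ψ', h1', h2'⟩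
    refine ⟨κ' * κ, ψ' * ψ, fun h => ?_, fun h => ?_⟩
    · rw [Perm.mul_apply, Perm.mul_apply, h1', h1]
    · rw [Perm.mul_apply, Perm.mul_apply, h2', h2]

/-- `G'` is obtained from `G` by one Whitehead move on the edge `{a, inv a}`, which is not a loop:
an edge-end `f ≠ a` at the vertex of `a` is detached and reattached at the vertex of `inv a`, and an
edge-end `g ≠ inv a` at the vertex of `inv a` is detached and reattached at the vertex of `a`. -/
def CubicGraph.WhiteheadMove {n : ℕ} (G G' : CubicGraph n) : Prop :=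
  ∃ a f g : Fin (3 * n), G.vert a ≠ G.vert (G.inv a) ∧
    f ≠ a ∧ G.vert f = G.vert a ∧ g ≠ G.inv a ∧ G.vert g = G.vert (G.inv a) ∧
    G'.inv = G.inv ∧ G'.vert f = G.vert (G.inv a) ∧ G'.vert g = G.vert a ∧
    ∀ h, h ≠ f → h ≠ g → G'.vert h = G.vert h

/-- the setoid of isomorphism -/
def isoSetoid (n : ℕ) : Setoid (CubicGraph n) := ⟨CubicGraph.Iso, CubicGraph.Iso.equivalence n⟩

/-- unlabelled cubic graphs on `n` vertices: isomorphism classes -/
abbrev Unlabelled (n : ℕ) : Type := Quotient (isoSetoid n)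

/-- the unlabelled Whitehead-move graph `Γ^u_n`: two distinct classes are adjacent when some
representative of one is turned into a representative of the other by a single Whitehead move -/
def Gamma (n : ℕ) : SimpleGraph (Unlabelled n) where
  Adj X Y := X ≠ Y ∧ ∃ G G' : CubicGraph n, Quotient.mk (isoSetoid n) G = X ∧
    Quotient.mk (isoSetoid n) G' = Y ∧ (G.WhiteheadMove G' ∨ G'.WhiteheadMove G)
  symm := by
    constructor
    rintro X Y ⟨hne, G, G', h1, h2, h3⟩
    exact ⟨hne.symm, G', G, h2, h1, h3.symm⟩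
  loopless := ⟨fun X h => h.1 rfl⟩

/-- MODULE Lit: the block model and the literal model agree. -/
def Stmt_Lit : Prop := ∀ n : ℕ, ∃ e : VB n ≃ Unlabelled n,
  ∀ X Y, (Gamma n).Adj (e X) (e Y) ↔ (GammaB n).Adj X Y

end Pool.Agent.Whitehead
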