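import Pool.Agent.Whitehead.Lit
import Pool.Agent.Whitehead.MoveConn

/-!
# Sanity checks for MP_406c5d_co (not used by the hand-in)

* there is a cubic graph on two vertices (the theta graph);
* every vertex of the unlabelled Whitehead-move graph has degree at most `12 n`
  (the true bound is `3 n`), so degrees are finite and of the right order.
-/

set_option autoImplicit false

namespace Pool.Agent.Whitehead

open Equiv Finset

namespace SanityAux

theorem conj_isMat {α : Type} [DecidableEq α] {M : Perm α} (hM : IsMat M) (f g : α) :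
    IsMat (swap f g * M * swap f g) := by
  refine ⟨fun x => ?_, fun x hx => ?_⟩
  · simp only [Perm.mul_apply, swap_apply_self]
    rw [hM.1, swap_apply_self]
  · simp only [Perm.mul_apply] at hx
    have := congrArg (swap f g) hx
    rw [swap_apply_self] at this
    exact hM.2 _ this

theorem wMove_symm {n : ℕ} {M M' : CG n} (h : WMove M M') : WMove M' M := by
  obtain ⟨a, f, g, ⟨h1, h2, h3, h4, h5⟩, h6⟩ := h
  have haf : a ≠ f := h2.symm
  have hag : a ≠ g := by
    intro h; rw [← h] at h5; exact h1 h5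
  have hMaf : M.1 a ≠ f := by
    intro h; rw [← h] at h3; exact h1 h3.symm
  have hMag : M.1 a ≠ g := h4.symm
  have hMa : M'.1 a = M.1 a := by
    rw [h6]
    simp only [Perm.mul_apply]
    rw [swap_apply_of_ne_of_ne haf hag, swap_apply_of_ne_of_ne hMaf hMag]
  refine ⟨a, f, g, ⟨by rw [hMa]; exact h1, h2, h3, by rw [hMa]; exact h4,
    by rw [hMa]; exact h5⟩, ?_⟩
  rw [h6]
  simp only [mul_assoc]
  rw [swap_mul_self, mul_one, ← mul_assoc, swap_mul_self, one_mul]

theorem eq_nxt {n : ℕ} {p q : HE n} (h : q.1 = p.1) (hne : q ≠ p) : ∃ c, q = nxt p c := by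
  obtain ⟨p1, p2⟩ := p
  obtain ⟨q1, q2⟩ := q
  simp only at h
  subst h
  have : q2 = p2 ∨ ∃ c : Bool, q2 = p2 + cond c 1 2 := by
    clear hne
    revert p2 q2; decide
  rcases this with h | ⟨c, h⟩
  · exact absurd (by rw [h]) hne
  · exact ⟨c, by rw [h]; rfl⟩

end SanityAux

open SanityAux in
open Classical in
theorem degB_le {n : ℕ} (M : CG n) :
    ((GammaB n).neighborSet (Quotient.mk (bSetoid n) M)).ncard ≤ 12 * n := by
  let Φ : HE n × Bool × Bool → VB n := fun x =>
    if h : MoveAt M.1 x.1 (nxt x.1 x.2.1) (nxt (M.1 x.1) x.2.2) then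
      Quotient.mk (bSetoid n) ⟨_, conj_isMat M.2.1 _ _, MoveConn_proof n _ _ _ _ M.2.1 M.2.2 h⟩
    else Quotient.mk (bSetoid n) M
  have hsub : (GammaB n).neighborSet (Quotient.mk (bSetoid n) M) ⊆
      ((univ : Finset (HE n × Bool × Bool)).image Φ : Set (VB n)) := by
    rintro Y ⟨_, M1, M2, h1, h2, h3⟩
    have h4 : WMove M1 M2 := by
      rcases h3 with h | h
      · exact h
      · exact wMove_symm h
    obtain ⟨σ, hσ, hσ2⟩ : BIso M1 M := Quotient.exact h1
    obtain ⟨a, f, g, ⟨m1, m2, m3, m4, m5⟩, h6⟩ := h4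
    have hM : ∀ x, σ (M1.1 x) = M.1 (σ x) := fun x =>
      congrArg (fun z : Perm (HE n) => z x) hσ2
    have hmove : MoveAt M.1 (σ a) (σ f) (σ g) := by
      refine ⟨?_, fun h => m2 (σ.injective h), (hσ _ _).mpr m3, ?_, ?_⟩
      · rw [← hM]; exact fun h => m1 ((hσ _ _).mp h)
      · rw [← hM]; exact fun h => m4 (σ.injective h)
      · rw [← hM]; exact (hσ _ _).mpr m5
    obtain ⟨i, hi⟩ := eq_nxt hmove.f_at hmove.f_ne
    obtain ⟨j, hj⟩ := eq_nxt hmove.g_at hmove.g_ne
    rw [hi, hj] at hmove
    rw [mem_coe, mem_image]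
    refine ⟨(σ a, i, j), mem_univ _, ?_⟩
    simp only [Φ]
    rw [dif_pos hmove, ← h2]
    apply Quotient.sound (s := bSetoid n)
    refine (BIso.equivalence n).symm ⟨σ, hσ, ?_⟩
    show σ * M2.1 = (swap (nxt (σ a) i) (nxt (M.1 (σ a)) j) * M.1 *
      swap (nxt (σ a) i) (nxt (M.1 (σ a)) j)) * σ
    rw [← hi, ← hj, h6]
    have hsw : σ * swap f g = swap (σ f) (σ g) * σ := by
      rw [Equiv.swap_apply_apply]; group
    calc σ * (swap f g * M1.1 * swap f g) = (σ * swap f g) * M1.1 * swap f g := by
          simp only [mul_assoc]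
      _ = swap (σ f) (σ g) * (σ * M1.1) * swap f g := by rw [hsw]; simp only [mul_assoc]
      _ = swap (σ f) (σ g) * M.1 * (σ * swap f g) := by rw [hσ2]; simp only [mul_assoc]
      _ = _ := by rw [hsw]; simp only [mul_assoc]
  have h1 := Set.ncard_le_ncard hsub (Set.toFinite _)
  rw [Set.ncard_coe_finset] at h1
  refine h1.trans (card_image_le.trans ?_)
  simp [HE]
  omega

/-- every degree of `Γ^u_n` is at most `12 n` -/
theorem sanity_degree_le {n : ℕ} (X : Unlabelled n) :
    ((Gamma n).neighborSet X).ncard ≤ 12 * n := by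
  obtain ⟨e, he⟩ := Lit_proof n
  obtain ⟨Y, rfl⟩ := e.surjective X
  have hset : (Gamma n).neighborSet (e Y) = e '' ((GammaB n).neighborSet Y) := by
    ext Z
    rw [SimpleGraph.mem_neighborSet, Set.mem_image]
    constructor
    · intro hZ
      refine ⟨e.symm Z, ?_, by simp⟩
      rw [SimpleGraph.mem_neighborSet, ← he]
      simpa using hZ
    · rintro ⟨Z, hZ, rfl⟩
      rw [he]
      exact hZ
  rw [hset, Set.ncard_image_of_injective _ e.injective]
  induction Y using Quotient.inductionOn with | h M => ?_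
  exact degB_le M

/-- the theta graph: a cubic graph on two vertices -/
def theta : CubicGraph 2 where
  vert h := if h.1 < 3 then 0 else 1
  inv h := h + 3
  inv_inv := by decide
  inv_ne := by decide
  degree := by decide
  connected := by
    intro u v
    by_cases h : u = v
    · subst h; exact Relation.ReflTransGen.refl
    · refine Relation.ReflTransGen.single ?_
      revert u v
      decide

end Pool.Agent.Whitehead
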