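import Pool.Agent.Whitehead.Defs

/-!
# MODULE TSum: the two sums over the group `S_3 wr S_n` (MP_406c5d_co)
-/

set_option autoImplicit false

namespace Pool.Agent.Whitehead

open Equiv Finset

open scoped Nat

namespace TSumAux

theorem lin_le (t : ℕ) : 1 + 3 * (t : ℝ) ≤ 4 ^ t := by
  induction t with
  | zero => simp
  | succ t ih =>
    rw [pow_succ]
    push_cast
    have : (1 : ℝ) ≤ 4 ^ t := one_le_pow₀ (by norm_num)
    linarith

theorem two_pow_le (k c j : ℕ) (h : 2 * c ≤ k) : (2 : ℝ) ^ (3 * c + j) ≤ 3 ^ (k + j) := by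
  have h1 : (2 : ℝ) ^ (3 * c) ≤ 3 ^ k := by
    calc (2 : ℝ) ^ (3 * c) = 8 ^ c := by rw [pow_mul]; norm_num
      _ ≤ 9 ^ c := by gcongr; norm_num
      _ = 3 ^ (2 * c) := by rw [pow_mul]; norm_num
      _ ≤ 3 ^ k := pow_le_pow_right₀ (by norm_num) h
  have h2 : (2 : ℝ) ^ j ≤ 3 ^ j := by gcongr; norm_num
  rw [pow_add, pow_add]
  gcongr

theorem sqrt_two_pow_le (k j : ℕ) : √(2 : ℝ) ^ (3 * k + 2 * j) ≤ 3 ^ (k + j) := by
  have h0 : (1 : ℝ) ≤ √2 := by rw [Real.one_le_sqrt]; norm_num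
  have h1 : √(2 : ℝ) ^ 3 ≤ 3 := by
    have h3 : √(2 : ℝ) ^ 3 = 2 * √2 := by
      rw [pow_succ, Real.sq_sqrt (by norm_num)]
    rw [h3]
    have : √(2 : ℝ) ≤ 3 / 2 := by
      rw [Real.sqrt_le_left (by norm_num)]
      norm_num
    linarith
  calc √(2 : ℝ) ^ (3 * k + 2 * j) ≤ √(2 : ℝ) ^ (3 * (k + j)) := pow_le_pow_right₀ h0 (by omega)
    _ = (√(2 : ℝ) ^ 3) ^ (k + j) := by rw [pow_mul]
    _ ≤ 3 ^ (k + j) := by gcongr

theorem sqrt_div_pow_le (k j : ℕ) (n : ℕ) :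
    √(2 / n : ℝ) ^ (3 * k + 2 * j) ≤ 3 ^ (k + j) / √(n : ℝ) ^ (3 * k + 2 * j) := by
  rw [Real.sqrt_div (by norm_num), div_pow]
  gcongr
  exact sqrt_two_pow_le k j

theorem sqrt_t1 (k c j : ℕ) (h : 2 * c ≤ k) :
    √(3 * ((k : ℝ) + j) + 1) ^ (3 * c + j) ≤ 3 ^ (k + j) * √((k : ℝ) + j) ^ (3 * c + j) := by
  rcases Nat.eq_zero_or_pos (k + j) with h0 | h0
  · have hk : k = 0 := by omega
    have hj : j = 0 := by omega
    have hc : c = 0 := by omega
    subst hk hj hc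
    simp
  · have ht : (1 : ℝ) ≤ (k : ℝ) + j := by exact_mod_cast h0
    have h1 : √(3 * ((k : ℝ) + j) + 1) ≤ 2 * √((k : ℝ) + j) := by
      have : (2 : ℝ) * √((k : ℝ) + j) = √(4 * ((k : ℝ) + j)) := by
        rw [Real.sqrt_mul (by norm_num)]
        congr 1
        rw [show (4 : ℝ) = 2 ^ 2 by norm_num, Real.sqrt_sq (by norm_num)]
      rw [this]
      apply Real.sqrt_le_sqrt
      linarith
    calc √(3 * ((k : ℝ) + j) + 1) ^ (3 * c + j) ≤ (2 * √((k : ℝ) + j)) ^ (3 * c + j) := by gcongr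
      _ = 2 ^ (3 * c + j) * √((k : ℝ) + j) ^ (3 * c + j) := by rw [mul_pow]
      _ ≤ 3 ^ (k + j) * √((k : ℝ) + j) ^ (3 * c + j) := by
        gcongr
        exact two_pow_le k c j h

theorem six_pow_le (k c j : ℕ) (h : 2 * c ≤ k) : (3 : ℝ) ^ (3 * c + j) ≤ 6 ^ (k + j) := by
  have h1 : (3 : ℝ) ^ (3 * c) ≤ 6 ^ k := by
    calc (3 : ℝ) ^ (3 * c) = 27 ^ c := by rw [pow_mul]; norm_num
      _ ≤ 36 ^ c := by gcongr; norm_num
      _ = 6 ^ (2 * c) := by rw [pow_mul]; norm_num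
      _ ≤ 6 ^ k := pow_le_pow_right₀ (by norm_num) h
  have h2 : (3 : ℝ) ^ j ≤ 6 ^ j := by gcongr; norm_num
  rw [pow_add, pow_add]
  gcongr

theorem sq_le (t : ℕ) : ((t : ℝ) + 1) ^ 2 ≤ 4 ^ t := by
  have h : (t : ℝ) + 1 ≤ 2 ^ t := by
    exact_mod_cast Nat.succ_le_of_lt (Nat.lt_two_pow_self (n := t))
  calc ((t : ℝ) + 1) ^ 2 ≤ (2 ^ t) ^ 2 := by gcongr
    _ = 4 ^ t := by rw [← pow_mul, mul_comm, pow_mul]; norm_num

/-- `√(3t+5)^(3c+j+4) ≤ 25 · 24^t √t^(3c+j)` for `t ≥ 1`. -/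
theorem sqrt_t2 (k c j : ℕ) (h : 2 * c ≤ k) (hk : 1 ≤ k) :
    √(3 * ((k : ℝ) + j) + 5) ^ (3 * c + j + 4) ≤
      25 * 24 ^ (k + j) * √((k : ℝ) + j) ^ (3 * c + j) := by
  have hk' : (1 : ℝ) ≤ (k : ℝ) := by exact_mod_cast hk
  have hj' : (0 : ℝ) ≤ (j : ℝ) := by positivity
  have ht : (1 : ℝ) ≤ (k : ℝ) + j := by linarith
  have h1 : √(3 * ((k : ℝ) + j) + 5) ≤ 3 * √((k : ℝ) + j) := by
    have : (3 : ℝ) * √((k : ℝ) + j) = √(9 * ((k : ℝ) + j)) := by
      rw [Real.sqrt_mul (by norm_num)]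
      congr 1
      rw [show (9 : ℝ) = 3 ^ 2 by norm_num, Real.sqrt_sq (by norm_num)]
    rw [this]
    apply Real.sqrt_le_sqrt
    linarith
  have h2 : √(3 * ((k : ℝ) + j) + 5) ^ 4 ≤ 25 * 4 ^ (k + j) := by
    have : √(3 * ((k : ℝ) + j) + 5) ^ 4 = (3 * ((k : ℝ) + j) + 5) ^ 2 := by
      have e : √(3 * ((k : ℝ) + j) + 5) ^ 4 = (√(3 * ((k : ℝ) + j) + 5) ^ 2) ^ 2 := by ring
      rw [e, Real.sq_sqrt (by linarith)]
    rw [this]
    have h3 := sq_le (k + j)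
    push_cast at h3
    calc (3 * ((k : ℝ) + j) + 5) ^ 2 ≤ (5 * ((k : ℝ) + j + 1)) ^ 2 := by
          gcongr
          linarith
      _ = 25 * ((k : ℝ) + j + 1) ^ 2 := by ring
      _ ≤ 25 * 4 ^ (k + j) := by gcongr
  have h4 : √(3 * ((k : ℝ) + j) + 5) ^ (3 * c + j) ≤ 6 ^ (k + j) * √((k : ℝ) + j) ^ (3 * c + j) := by
    calc √(3 * ((k : ℝ) + j) + 5) ^ (3 * c + j) ≤ (3 * √((k : ℝ) + j)) ^ (3 * c + j) := by gcongr
      _ = 3 ^ (3 * c + j) * √((k : ℝ) + j) ^ (3 * c + j) := by rw [mul_pow]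
      _ ≤ 6 ^ (k + j) * √((k : ℝ) + j) ^ (3 * c + j) := by
        gcongr
        exact six_pow_le k c j h
  rw [pow_add _ (3 * c + j) 4]
  calc √(3 * ((k : ℝ) + j) + 5) ^ (3 * c + j) * √(3 * ((k : ℝ) + j) + 5) ^ 4 ≤
      (6 ^ (k + j) * √((k : ℝ) + j) ^ (3 * c + j)) * (25 * 4 ^ (k + j)) := by gcongr
    _ = 25 * (6 ^ (k + j) * 4 ^ (k + j)) * √((k : ℝ) + j) ^ (3 * c + j) := by ring
    _ = _ := by rw [← mul_pow]; norm_num

end TSumAux

open TSumAux

theorem t1_proof (hF : Stmt_FixW1) (hM : Stmt_Master) (hS : Stmt_Supp) : Stmt_T1 := by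
  obtain ⟨C, n₀, hC, hM'⟩ := hM 108 (by norm_num)
  refine ⟨C, max n₀ 2, fun n hn hne => ?_⟩
  have key := hM' n (le_of_max_le_left hn) 0
  have hn2 : 2 ≤ n := le_of_max_le_right hn
  have pw : ∀ x : Perm (Fin n) × (Fin n → Perm (Fin 3)),
      (1 + ((tp x.1 x.2).support.card : ℝ)) * ((fixMat (tp x.1 x.2)).card : ℝ) ≤
      (108 ^ (x.1.support.card + jj x.1 x.2) *
      √(x.1.support.card + jj x.1 x.2 : ℝ) ^ (3 * cyc x.1 + jj x.1 x.2) /
      √(n : ℝ) ^ (3 * x.1.support.card + 2 * jj x.1 x.2)) *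
        ((fixMat (1 : Perm (HE n))).card : ℝ) := by
    rintro ⟨π, θ⟩
    obtain ⟨-, s2, -, s4⟩ := hS n π θ
    have h1 := hF n hn2 hne π θ
    simp only
    have a1 : (1 + ((tp π θ).support.card : ℝ)) ≤ 4 ^ (π.support.card + jj π θ) := by
      have := lin_le (π.support.card + jj π θ)
      have h' : ((tp π θ).support.card : ℝ) ≤ 3 * ((π.support.card + jj π θ : ℕ) : ℝ) := by
        exact_mod_cast s2
      linarith
    have a2 := two_pow_le π.support.card (cyc π) (jj π θ) s4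
    have a3 := sqrt_t1 π.support.card (cyc π) (jj π θ) s4
    have a4 := sqrt_div_pow_le π.support.card (jj π θ) n
    calc (1 + ((tp π θ).support.card : ℝ)) * ((fixMat (tp π θ)).card : ℝ)
        ≤ 4 ^ (π.support.card + jj π θ) * (((fixMat (1 : Perm (HE n))).card : ℝ) *
    (3 ^ (π.support.card + jj π θ) *
      (3 ^ (π.support.card + jj π θ) *
        √((π.support.card : ℝ) + jj π θ) ^ (3 * cyc π + jj π θ)) *
      (3 ^ (π.support.card + jj π θ) / √(n : ℝ) ^ (3 * π.support.card + 2 * jj π θ)))) := by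
          refine mul_le_mul a1 (h1.trans ?_) (by positivity) (by positivity)
          gcongr
      _ = ((4 ^ (π.support.card + jj π θ) * 3 ^ (π.support.card + jj π θ) *
            3 ^ (π.support.card + jj π θ) * 3 ^ (π.support.card + jj π θ)) *
            √((π.support.card : ℝ) + jj π θ) ^ (3 * cyc π + jj π θ) /
            √(n : ℝ) ^ (3 * π.support.card + 2 * jj π θ)) *
            ((fixMat (1 : Perm (HE n))).card : ℝ) := by ring
      _ = _ := by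
          rw [← mul_pow, ← mul_pow, ← mul_pow]
          norm_num
  refine (Finset.sum_le_sum fun x _ => pw x).trans ?_
  rw [← Finset.sum_mul]
  refine mul_le_mul_of_nonneg_right ?_ (by positivity)
  have hfil : (univ : Finset (Perm (Fin n) × (Fin n → Perm (Fin 3)))).filter
      (fun x => 0 ≤ x.1.support.card) = univ := by
    apply Finset.filter_true_of_mem
    intro x _
    exact Nat.zero_le _
  rw [hfil] at key
  simpa using key

theorem t2_proof (hF : Stmt_FixW2) (hM : Stmt_Master) (hS : Stmt_Supp) : Stmt_T2 := by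
  obtain ⟨C, n₀, hC, hM'⟩ := hM 216 (by norm_num)
  refine ⟨81 * 400 * C ^ 33, max n₀ 2, fun n hn hne => ?_⟩
  have key := hM' n (le_of_max_le_left hn) 32
  have hn2 : 2 ≤ n := le_of_max_le_right hn
  have hn0 : (0 : ℝ) < n := by
    have : 0 < n := by omega
    exact_mod_cast this
  have pw : ∀ (z : (HE n × HE n) × (HE n × HE n)),
      ∀ x ∈ (univ : Finset (Perm (Fin n) × (Fin n → Perm (Fin 3)))).filter
      (fun x => 32 ≤ x.1.support.card),
      ((fixMat (swap z.2.1 z.2.2 * tp x.1 x.2 * swap z.1.1 z.1.2)).card : ℝ) ≤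
      (216 ^ (x.1.support.card + jj x.1 x.2) *
      √(x.1.support.card + jj x.1 x.2 : ℝ) ^ (3 * cyc x.1 + jj x.1 x.2) /
      √(n : ℝ) ^ (3 * x.1.support.card + 2 * jj x.1 x.2)) *
        (400 * (n : ℝ) ^ 2 * ((fixMat (1 : Perm (HE n))).card : ℝ)) := by
    rintro z ⟨π, θ⟩ hx
    rw [Finset.mem_filter] at hx
    have hk : 32 ≤ π.support.card := hx.2
    obtain ⟨-, s2, -, s4⟩ := hS n π θ
    have h1 := hF n hn2 hne π θ z.1.1 z.1.2 z.2.1 z.2.2
    simp only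
    have a2 := two_pow_le π.support.card (cyc π) (jj π θ) s4
    have a2' : (2 : ℝ) ^ (3 * cyc π + jj π θ + 4) ≤ 16 * 3 ^ (π.support.card + jj π θ) := by
      rw [pow_add _ _ 4]
      linarith
    have a3 := sqrt_t2 π.support.card (cyc π) (jj π θ) s4 (by omega)
    have a4 := sqrt_div_pow_le π.support.card (jj π θ) n
    calc ((fixMat (swap z.2.1 z.2.2 * tp π θ * swap z.1.1 z.1.2)).card : ℝ)
        ≤ ((fixMat (1 : Perm (HE n))).card : ℝ) *
    ((16 * 3 ^ (π.support.card + jj π θ)) *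
      (25 * 24 ^ (π.support.card + jj π θ) *
        √((π.support.card : ℝ) + jj π θ) ^ (3 * cyc π + jj π θ)) *
      (3 ^ (π.support.card + jj π θ) / √(n : ℝ) ^ (3 * π.support.card + 2 * jj π θ)) *
      (n : ℝ) ^ 2) := by
          refine h1.trans ?_
          gcongr
      _ = ((3 ^ (π.support.card + jj π θ) * 24 ^ (π.support.card + jj π θ) *
            3 ^ (π.support.card + jj π θ)) *
            √((π.support.card : ℝ) + jj π θ) ^ (3 * cyc π + jj π θ) /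
            √(n : ℝ) ^ (3 * π.support.card + 2 * jj π θ)) *
            (400 * (n : ℝ) ^ 2 * ((fixMat (1 : Perm (HE n))).card : ℝ)) := by ring
      _ = _ := by
          rw [← mul_pow, ← mul_pow]
          norm_num
  have hz : ∀ z ∈ (univ : Finset ((HE n × HE n) × (HE n × HE n))),
      ∑ x ∈ (univ : Finset (Perm (Fin n) × (Fin n → Perm (Fin 3)))).filter
      (fun x => 32 ≤ x.1.support.card),
      ((fixMat (swap z.2.1 z.2.2 * tp x.1 x.2 * swap z.1.1 z.1.2)).card : ℝ) ≤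
      (C * (C / √√(n : ℝ)) ^ 32) *
        (400 * (n : ℝ) ^ 2 * ((fixMat (1 : Perm (HE n))).card : ℝ)) := by
    intro z _
    refine (Finset.sum_le_sum (pw z)).trans ?_
    rw [← Finset.sum_mul]
    exact mul_le_mul_of_nonneg_right key (by positivity)
  refine (Finset.sum_le_sum hz).trans ?_
  rw [Finset.sum_const, nsmul_eq_mul]
  have hcard : ((univ : Finset ((HE n × HE n) × (HE n × HE n))).card : ℝ) = 81 * (n : ℝ) ^ 4 := by
    rw [Finset.card_univ]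
    simp [HE]
    ring
  have hsq : √√(n : ℝ) ^ 32 = (n : ℝ) ^ 8 := by
    rw [show (32 : ℕ) = 2 * (2 * 8) by norm_num, pow_mul, Real.sq_sqrt (Real.sqrt_nonneg _),
      pow_mul, Real.sq_sqrt hn0.le]
  rw [hcard, div_pow, hsq]
  have hn1 : (1 : ℝ) ≤ n := by
    have : 1 ≤ n := by omega
    exact_mod_cast this
  have e1 : 81 * (n : ℝ) ^ 4 * (C * (C ^ 32 / (n : ℝ) ^ 8) *
      (400 * (n : ℝ) ^ 2 * ((fixMat (1 : Perm (HE n))).card : ℝ))) =
      (81 * 400 * C ^ 33 / (n : ℝ) ^ 2) * ((fixMat (1 : Perm (HE n))).card : ℝ) := by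
    field_simp
  rw [e1]
  refine mul_le_mul_of_nonneg_right ?_ (by positivity)
  have hn3 : (n : ℝ) ≤ (n : ℝ) ^ 2 := by nlinarith
  gcongr

end Pool.Agent.Whitehead
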